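import Pool.Agent.TH561.FP.Pair

/-!
# Two freely periodic knots which are not separated by Vassiliev invariants of small order
-/

set_option autoImplicit false

namespace Pool.Agent.TH561.FP

open Pool.Agent.H891R2.Jones Pool.Agent.TH561 Pool.Agent.TH561.PK Finset LaurentPolynomial
open Pool.Agent.H832R3.VJ (Dia Separated)

/-- the classes of the two cores modulo `q` -/
def Core (q a l : ℤ) : Prop := q ∣ l - 1 ∨ q ∣ l + 1 ∨ q ∣ a * l - 1 ∨ q ∣ a * l + 1

/-- the pairs `(l, a l)` and `(l', a' l')` agree modulo `q` up to sign and order -/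
def SameClass (q a l a' l' : ℤ) : Prop :=
  ∃ ε : ℤ, (ε = 1 ∨ ε = -1) ∧
    ((q ∣ l' - ε * l ∧ q ∣ a' * l' - ε * (a * l)) ∨ (q ∣ l' - ε * (a * l) ∧ q ∣ a' * l' - ε * l))

theorem SameClass.symm {q a l a' l' : ℤ} (h : SameClass q a l a' l') : SameClass q a' l' a l := by
  obtain ⟨ε, hε, h⟩ := h
  refine ⟨ε, hε, ?_⟩
  have hee : ε * ε = 1 := by rcases hε with rfl | rfl <;> rfl
  rcases h with ⟨⟨x, hx⟩, ⟨y, hy⟩⟩ | ⟨⟨x, hx⟩, ⟨y, hy⟩⟩
  · left
    exact ⟨⟨-ε * x, by linear_combination (-ε) * hx - l * hee⟩,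
      ⟨-ε * y, by linear_combination (-ε) * hy - (a * l) * hee⟩⟩
  · right
    exact ⟨⟨-ε * y, by linear_combination (-ε) * hy - l * hee⟩,
      ⟨-ε * x, by linear_combination (-ε) * hx - (a * l) * hee⟩⟩

section pair

variable (p : ℕ) [hp : Fact p.Prime]

/-- the comparison of two identities, if the first class is not one of a core -/
theorem pair_core' (k : ℕ) (hp5 : 5 ≤ p) (hk : 1 ≤ k) (a l z a' l' z' : ℤ) (c c' : ZMod p)
    (hc : c = 1 ∨ c = -1) (hc' : c' = 1 ∨ c' = -1)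
    (h : toG p (p ^ k) (C c * T z * FT p a l) = toG p (p ^ k) (C c' * T z' * FT p a' l'))
    (hcore : ¬ Core (p ^ k) a l) : SameClass (p ^ k) a l a' l' := by
  have hcop2 : IsCoprime ((p : ℤ) ^ k) 2 := by
    apply IsCoprime.pow_left
    rw [Int.isCoprime_iff_gcd_eq_one]
    have : Nat.Coprime p 2 := (Nat.coprime_primes hp.out Nat.prime_two).2 (by omega)
    exact_mod_cast this
  have hcop4 : IsCoprime ((p : ℤ) ^ k) 4 := by
    have h6 : (4 : ℤ) = 2 ^ 2 := by norm_num
    rw [h6]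
    exact hcop2.pow_right
  have h16 : ¬ (p : ℤ) ^ k ∣ 16 := by
    intro h1
    have h2 : IsCoprime ((p : ℤ) ^ k) 16 := by
      have h6 : (16 : ℤ) = 2 ^ 4 := by norm_num
      rw [h6]
      exact hcop2.pow_right
    have h3 := h2.dvd_of_dvd_mul_right (show (p : ℤ) ^ k ∣ 1 * 16 by rwa [one_mul])
    have h4 : p ^ k ∣ 1 := by exact_mod_cast h3
    have h5 := Nat.le_of_dvd one_pos h4
    have h6 : p ≤ p ^ k := Nat.le_self_pow (by omega) p
    omega
  have hexp : ∀ (c : ZMod p) (z a l : ℤ), (C c * T z * FT p a l : (ZMod p)[T;T⁻¹]) =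
      C c * T (a * (l * (l + 2)) + (2 * l + 2) + z) -
      C c * T (a * (l * (l + 2)) + (-2 * l - 2) + z) -
      C c * T (a * ((l - 2) * (l - 2 + 2)) + (2 * (l - 2) + 2) + z) +
      C c * T (a * ((l - 2) * (l - 2 + 2)) + (-2 * (l - 2) - 2) + z) := by
    intro c z a l
    have f1 : (T (a * (l * (l + 2)) + (2 * l + 2) + z) : (ZMod p)[T;T⁻¹]) =
      T (a * (l * (l + 2))) * T (2 * l + 2) * T z := by rw [T_add, T_add]
    have f2 : (T (a * (l * (l + 2)) + (-2 * l - 2) + z) : (ZMod p)[T;T⁻¹]) =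
      T (a * (l * (l + 2))) * T (-2 * l - 2) * T z := by rw [T_add, T_add]
    have f3 : (T (a * ((l - 2) * (l - 2 + 2)) + (2 * (l - 2) + 2) + z) : (ZMod p)[T;T⁻¹]) =
      T (a * ((l - 2) * (l - 2 + 2))) * T (2 * (l - 2) + 2) * T z := by rw [T_add, T_add]
    have f4 : (T (a * ((l - 2) * (l - 2 + 2)) + (-2 * (l - 2) - 2) + z) : (ZMod p)[T;T⁻¹]) =
      T (a * ((l - 2) * (l - 2 + 2))) * T (-2 * (l - 2) - 2) * T z := by rw [T_add, T_add]
    rw [f1, f2, f3, f4]
    unfold FT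
    ring
  rw [hexp, hexp] at h
  simp only [map_add, map_sub, toG_CT] at h
  classical
  have key := pairs_comb (G := ZMod (p ^ k)) p hp5 _ _ _ _ _ _ _ _ c c' hc hc' (by
      intro g
      have h2 := congrArg (fun f : AddMonoidAlgebra (ZMod p) (ZMod (p ^ k)) => f.coeff g) h
      have h3 : ∀ (x : ZMod (p ^ k)) (c : ZMod p),
          (AddMonoidAlgebra.single x c : AddMonoidAlgebra (ZMod p) (ZMod (p ^ k))).coeff g =
            if x = g then c else 0 := by
        intro x c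
        show (Finsupp.single x c) g = _
        rw [Finsupp.single_apply]
      simp only [AddMonoidAlgebra.coeff_sub, AddMonoidAlgebra.coeff_add, Finsupp.sub_apply,
        Finsupp.add_apply, h3] at h2
      have h4 : ∀ (x : ZMod (p ^ k)) (c : ZMod p), (if x = g then c else 0) =
          c * (if x = g then 1 else 0) := by
        intro x c
        split_ifs <;> ring
      rw [h4 _ c, h4 _ c, h4 _ c, h4 _ c, h4 _ c', h4 _ c', h4 _ c', h4 _ c', ← mul_sub, ← mul_sub,
        ← mul_add, ← mul_sub, ← mul_sub, ← mul_add] at h2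
      exact h2)
  have hcast : ((p ^ k : ℕ) : ℤ) = (p : ℤ) ^ k := by push_cast; ring
  simp only [ne_eq, zcast_eq, hcast] at key
  have key := key (by
      rintro ⟨x, hx⟩
      apply hcore
      right; left
      apply hcop4.dvd_of_dvd_mul_left
      exact ⟨x, by linear_combination hx⟩) (by
      rintro ⟨x, hx⟩
      apply hcore
      right; right; right
      apply hcop4.dvd_of_dvd_mul_left
      exact ⟨x, by linear_combination hx⟩) (by
      rintro ⟨x, hx⟩
      apply hcore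
      right; right; left
      apply hcop4.dvd_of_dvd_mul_left
      exact ⟨-x, by linear_combination -hx⟩) (by
      rintro ⟨x, hx⟩
      apply hcore
      left
      apply hcop4.dvd_of_dvd_mul_left
      exact ⟨-x, by linear_combination -hx⟩)
  rcases key with key | key
  · exact pair_arith _ hcop2 a l z a' l' z' key
  · exfalso
    apply h16
    obtain ⟨hP, hN⟩ := key
    rcases hP with ⟨⟨x1, hx1⟩, ⟨x2, hx2⟩⟩ | ⟨⟨x1, hx1⟩, ⟨x2, hx2⟩⟩ <;>
      rcases hN with ⟨⟨y1, hy1⟩, ⟨y2, hy2⟩⟩ | ⟨⟨y1, hy1⟩, ⟨y2, hy2⟩⟩ <;>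
      exact ⟨x1 + x2 + y1 + y2, by linear_combination hx1 + hx2 + hy1 + hy2⟩

/-- the comparison of two identities -/
theorem pair_core (k : ℕ) (hp5 : 5 ≤ p) (hk : 1 ≤ k) (a l z a' l' z' : ℤ) (c c' : ZMod p)
    (hc : c = 1 ∨ c = -1) (hc' : c' = 1 ∨ c' = -1)
    (h : toG p (p ^ k) (C c * T z * FT p a l) = toG p (p ^ k) (C c' * T z' * FT p a' l')) :
    (Core (p ^ k) a l ∧ Core (p ^ k) a' l') ∨ SameClass (p ^ k) a l a' l' := by
  by_cases h1 : Core (p ^ k) a l
  · by_cases h2 : Core (p ^ k) a' l'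
    · left; exact ⟨h1, h2⟩
    · right
      exact (pair_core' p k hp5 hk a' l' z' a l z c' c hc' hc h.symm h2).symm
  · right
    exact pair_core' p k hp5 hk a l z a' l' z' c c' hc hc' h h1

variable {M l : ℕ}

/-- the identity for `f` -/
theorem identity_f (k : ℕ) (hp2 : p ≠ 2) (hM : 0 < M) (v : Fin l → Elem M)
    (hl : 0 < l) (a : ℤ)
    (dir : Fin (p ^ k * l + a.natAbs * (M * (M - 1))) × Fin M → Bool)
    (ho : Oriented (freeWord (p ^ k) v a) dir) (hK : IsKnot (PK.annular (freeWord (p ^ k) v a) dir))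
    (t : Fin (p ^ k * l + a.natAbs * (M * (M - 1)))) :
    ∃ (c : ZMod p) (z : ℤ), (c = 1 ∨ c = -1) ∧
      toG p (p ^ k) ((T (-4) - T 4) * red p (PK.annular (freeWord (p ^ k) v a) dir).fPoly) =
        toG p (p ^ k) (C c * T z * FT p a (linking dir t)) := by
  have hq0 : 0 < p ^ k := Nat.pow_pos hp.out.pos
  have hql : 0 < p ^ k * l := Nat.mul_pos hq0 hl
  have hL : 0 < p ^ k * l + a.natAbs * (M * (M - 1)) := by omega
  have hem : ∀ t : Fin l, (t : ℕ) < p ^ k * l + a.natAbs * (M * (M - 1)) := by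
    intro t
    have h1 : l ≤ p ^ k * l := Nat.le_mul_of_pos_left l hq0
    have := t.2
    omega
  have hodd : Odd (p ^ k) := (hp.out.odd_of_ne_two hp2).pow
  have hv := quot_orient hl hM (p ^ k) hodd v a hL dir ho hK
  have hv' : Oriented v (fun x : Fin l × Fin M => dir (⟨x.1, hem x.1⟩, x.2)) := by
    have e1 : (fun x : Fin l × Fin M => dir (⟨x.1, hem x.1⟩, x.2)) =
        (fun x : Fin l × Fin M => levL hL dir x.1 x.2) := by
      funext x
      unfold levL
      congr 2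
      apply Fin.ext
      simp only
      rw [Nat.mod_eq_of_lt (hem x.1)]
    rw [e1]
    exact hv
  rw [linking_const _ dir ho t ⟨0, hL⟩]
  obtain ⟨c, z, hc, h1⟩ := free_identity p k hL hl hM v (freeWord (p ^ k) v a) a (by
    unfold freeWord
    rw [toW_append, toW_pw (p ^ k) v]) (fun t => ⟨t, hem t⟩) dir ho hK hv' (fun d hd => by
    obtain ⟨dir', h2, h3⟩ := free_ext hl hM (p ^ k) hq0 v a d hd
    exact ⟨dir', h2, fun t j => h3 _ t j rfl⟩) (p ^ k) (dvd_mul_left _ _)
  obtain ⟨ε, e, hε, h2⟩ := fPoly_bracket p (PK.annular (freeWord (p ^ k) v a) dir)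
  refine ⟨ε * c, e + z, ?_, ?_⟩
  · rcases hε with rfl | rfl <;> rcases hc with rfl | rfl <;> simp
  · have e1 : (T (-4) - T 4) * red p (PK.annular (freeWord (p ^ k) v a) dir).fPoly =
        C ε * T e * ((T (-4) - T 4) * red p (PK.annular (freeWord (p ^ k) v a) dir).bracket) := by
      rw [h2]
      ring
    rw [e1, map_mul, h1, ← map_mul, map_mul C, T_add]
    exact congrArg (toG p (p ^ k)) (by ring)

/-- the same with a change of the index -/
theorem identity_f' (k : ℕ) (hp2 : p ≠ 2) (hM : 0 < M) (v : Fin l → Elem M)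
    (hl : 0 < l) (a : ℤ) (L : ℕ) (hL : L = p ^ k * l + a.natAbs * (M * (M - 1)))
    (w : Fin L → Elem M) (hw : ∀ i, w i = freeWord (p ^ k) v a (Fin.cast hL i))
    (dir : Fin L × Fin M → Bool)
    (ho : Oriented w dir) (hK : IsKnot (PK.annular w dir)) (t : Fin L) :
    ∃ (c : ZMod p) (z : ℤ), (c = 1 ∨ c = -1) ∧
      toG p (p ^ k) ((T (-4) - T 4) * red p (PK.annular w dir).fPoly) =
        toG p (p ^ k) (C c * T z * FT p a (linking dir t)) := by
  subst hL
  have hw' : w = freeWord (p ^ k) v a := funext hw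
  subst hw'
  exact identity_f p k hp2 hM v hl a dir ho hK t

/-- the identity for a multiple of a power of `p` -/
theorem identity_f_n (k n : ℕ) (hp2 : p ≠ 2) (hn : p ^ k ∣ n) (hn0 : 0 < n) (hM : 0 < M)
    (v : Fin l → Elem M) (hl : 0 < l) (a : ℤ)
    (dir : Fin (n * l + a.natAbs * (M * (M - 1))) × Fin M → Bool)
    (ho : Oriented (freeWord n v a) dir) (hK : IsKnot (PK.annular (freeWord n v a) dir))
    (t : Fin (n * l + a.natAbs * (M * (M - 1)))) :
    ∃ (c : ZMod p) (z : ℤ), (c = 1 ∨ c = -1) ∧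
      toG p (p ^ k) ((T (-4) - T 4) * red p (PK.annular (freeWord n v a) dir).fPoly) =
        toG p (p ^ k) (C c * T z * FT p a (linking dir t)) := by
  obtain ⟨n', hn'⟩ := hn
  have hn0' : 0 < n' := by
    rcases Nat.eq_zero_or_pos n' with h | h
    · rw [h, mul_zero] at hn'
      omega
    · exact h
  exact identity_f' (l := n' * l) p k hp2 hM (pw n' v) (Nat.mul_pos hn0' hl) a _
    (by rw [hn', mul_assoc]) (freeWord n v a) (fun i => freeWord_mul _ _ _ hn' v a i) dir ho hK t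

omit hp in
/-- two freely periodic knots which are not separated -/
theorem pair_main {M' l' : ℕ} (hp : p.Prime) (hp5 : 5 ≤ p) (k n n' : ℕ) (hk : 1 ≤ k)
    (hn : p ^ k ∣ n) (hn' : p ^ k ∣ n') (hn0 : 0 < n) (hn0' : 0 < n')
    (hM : 0 < M) (v : Fin l → Elem M) (hl : 0 < l) (a : ℤ)
    (dir : Fin (n * l + a.natAbs * (M * (M - 1))) × Fin M → Bool)
    (ho : Oriented (freeWord n v a) dir) (hK : IsKnot (PK.annular (freeWord n v a) dir))
    (hM' : 0 < M') (v' : Fin l' → Elem M') (hl' : 0 < l') (a' : ℤ)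
    (dir' : Fin (n' * l' + a'.natAbs * (M' * (M' - 1))) × Fin M' → Bool)
    (ho' : Oriented (freeWord n' v' a') dir') (hK' : IsKnot (PK.annular (freeWord n' v' a') dir'))
    (hS : ¬ Separated (p ^ k - 2) ⟨_, inferInstance, PK.annular (freeWord n v a) dir⟩
      ⟨_, inferInstance, PK.annular (freeWord n' v' a') dir'⟩)
    (t : Fin (n * l + a.natAbs * (M * (M - 1)))) (t' : Fin (n' * l' + a'.natAbs * (M' * (M' - 1)))) :
    (Core (p ^ k) a (linking dir t) ∧ Core (p ^ k) a' (linking dir' t')) ∨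
      SameClass (p ^ k) a (linking dir t) a' (linking dir' t') := by
  have : Fact p.Prime := ⟨hp⟩
  have hp2 : p ≠ 2 := by omega
  obtain ⟨c, z, hc, h1⟩ := identity_f_n p k n hp2 hn hn0 hM v hl a dir ho hK t
  obtain ⟨c', z', hc', h1'⟩ := identity_f_n p k n' hp2 hn' hn0' hM' v' hl' a' dir' ho' hK' t'
  have hq : 4 ≤ p ^ k := le_trans (by omega) (Nat.le_self_pow (show k ≠ 0 by omega) p)
  have h2 := dvd_of_not_separated _ _ _ hS
  have h2' : (T 1 - 1 : ℤ[T;T⁻¹]) ^ (ord p (p ^ k) + 1) ∣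
      (PK.annular (freeWord n v a) dir).fPoly - (PK.annular (freeWord n' v' a') dir').fPoly := by
    unfold ord
    rw [if_neg hp2]
    exact h2
  have h3 := toG_kill p k hq _ h2'
  unfold grp at h3
  rw [if_neg hp2, map_sub, mul_sub, map_sub, sub_eq_zero] at h3
  rw [h1, h1'] at h3
  exact pair_core p k hp5 hk _ _ _ _ _ _ _ _ hc hc' h3

end pair

end Pool.Agent.TH561.FP
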