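import Pool.Agent.TH561.FP.Fw
import Pool.Agent.TH561.PK.Comb

/-!
# The final computation in a group ring
-/

set_option autoImplicit false

namespace Pool.Agent.TH561.FP

open Pool.Agent.H891R2.Jones Pool.Agent.TH561 Pool.Agent.TH561.PK Finset LaurentPolynomial

section cheb

/-- values of the Chebyshev polynomials -/
theorem cheb_gen {R : Type*} [CommRing R] (t : ℤ → R) (h0 : t 0 = 1)
    (hadd : ∀ m n, t (m + n) = t m * t n) (n : ℤ) :
    (t 1 - t (-1)) * Polynomial.eval (t 1 + t (-1)) (Polynomial.Chebyshev.S R n) =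
      t (n + 1) - t (-n - 1) := by
  have h11 : t 1 * t (-1) = 1 := by rw [← hadd, ← h0]; norm_num
  induction n using Polynomial.Chebyshev.induct with
  | zero => simp
  | one =>
    rw [Polynomial.Chebyshev.S_one, Polynomial.eval_X]
    have e1 : t (1 + 1) = t 1 * t 1 := hadd 1 1
    have e2 : t (-1 - 1) = t (-1) * t (-1) := by rw [← hadd]; rfl
    rw [e1, e2]
    ring
  | add_two n h1 h2 =>
    rw [Polynomial.Chebyshev.S_add_two, Polynomial.eval_sub, Polynomial.eval_mul, Polynomial.eval_X,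
      mul_sub,
      mul_left_comm, h1, h2]
    have e1 : t ((n : ℤ) + 2 + 1) = t 1 * t ((n : ℤ) + 1 + 1) := by rw [← hadd]; congr 1; ring
    have e2 : t (-((n : ℤ) + 2) - 1) = t (-1) * t (-((n : ℤ) + 1) - 1) := by
      rw [← hadd]; congr 1; ring
    have e3 : t ((n : ℤ) + 1 + 1) = t 1 * t ((n : ℤ) + 1) := by rw [← hadd]; congr 1; ring
    have e4 : t (-((n : ℤ) + 1) - 1) = t (-1) * t (-(n : ℤ) - 1) := by rw [← hadd]; congr 1; ring
    rw [e1, e2, e3, e4]
    linear_combination (t ((n : ℤ) + 1) - t (-(n : ℤ) - 1)) * h11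
  | neg_add_one n h1 h2 =>
    rw [Polynomial.Chebyshev.S_sub_one, Polynomial.eval_sub, Polynomial.eval_mul, Polynomial.eval_X,
      mul_sub,
      mul_left_comm, h1, h2]
    have e1 : t (-(n : ℤ) + 1 + 1) = t 1 * t (-(n : ℤ) + 1) := by rw [← hadd]; congr 1; ring
    have e2 : t (-(-(n : ℤ) + 1) - 1) = t (-1) * t (- -(n : ℤ) - 1) := by
      rw [← hadd]; congr 1; ring
    have e3 : t (-(n : ℤ) - 1 + 1) = t (-1) * t (-(n : ℤ) + 1) := by rw [← hadd]; congr 1; ring
    have e4 : t (-(-(n : ℤ) - 1) - 1) = t 1 * t (- -(n : ℤ) - 1) := by rw [← hadd]; congr 1; ring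
    rw [e1, e2, e3, e4]
    ring

end cheb

section poly

variable {m : ℕ}

/-- the polynomial of the quotient -/
noncomputable def Rz (m : ℕ) (B : List (Option Bool × ℕ)) : Polynomial ℤ :=
  ∑ i : Sm B, Polynomial.monomial (esn m (gen i)) ((-2 : ℤ) ^ inn m (gen i))

theorem Rz_eq (B : List (Option Bool × ℕ)) (l κ : ℤ)
    (hu : ∀ u : ℂ, u ≠ 0 → u + u⁻¹ ≠ 0 →
      ∑ i : Sm B, (-2 : ℂ) ^ inn m (gen i) * (u + u⁻¹) ^ esn m (gen i) = κ * (u ^ l + u ^ (-l))) :
    Rz m B = Polynomial.C κ * (Polynomial.Chebyshev.S ℤ l - Polynomial.Chebyshev.S ℤ (l - 2)) := by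
  apply Polynomial.map_injective (Int.castRingHom ℂ) (RingHom.injective_int _)
  apply Polynomial.eq_of_infinite_eval_eq
  apply Set.Infinite.mono (s := ({0, 2, -2} : Set ℂ)ᶜ)
  · intro z hz
    rw [Set.mem_compl_iff, Set.mem_insert_iff, Set.mem_insert_iff, Set.mem_singleton_iff] at hz
    push Not at hz
    obtain ⟨u, hu0, huz⟩ := exists_u z
    have huu : u - u⁻¹ ≠ 0 := by
      intro h
      have h1 : u = u⁻¹ := sub_eq_zero.1 h
      have h2 : u * u = 1 := by nth_rewrite 2 [h1]; exact mul_inv_cancel₀ hu0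
      have h3 : z * z = 4 := by
        rw [← huz, ← h1]
        linear_combination 4 * h2
      have h4 : (z - 2) * (z + 2) = 0 := by linear_combination h3
      rcases mul_eq_zero.1 h4 with h5 | h5
      · exact hz.2.1 (sub_eq_zero.1 h5)
      · exact hz.2.2 (eq_neg_of_add_eq_zero_left h5)
    show Polynomial.eval z _ = Polynomial.eval z _
    have h1 := hu u hu0 (by rw [huz]; exact hz.1)
    have h2 : ∀ n : ℤ, (u - u⁻¹) * Polynomial.eval z ((Polynomial.Chebyshev.S ℤ n).map (Int.castRingHom ℂ)) =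
        u ^ (n + 1) - u ^ (-n - 1) := by
      intro n
      have h3 := cheb_gen (fun n : ℤ => u ^ n) (zpow_zero u) (fun a b => zpow_add₀ hu0 a b) n
      simp only [zpow_one, zpow_neg_one] at h3
      rw [huz] at h3
      rw [← h3, Polynomial.Chebyshev.map_S]
    have h3 : Polynomial.eval z ((Rz m B).map (Int.castRingHom ℂ)) = κ * (u ^ l + u ^ (-l)) := by
      rw [← h1]
      unfold Rz
      rw [Polynomial.map_sum, Polynomial.eval_finsetSum]
      refine Finset.sum_congr rfl fun i _ => ?_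
      rw [Polynomial.map_monomial, Polynomial.eval_monomial, huz]
      simp
    rw [h3, Polynomial.map_mul, Polynomial.map_C, Polynomial.map_sub, Polynomial.eval_mul,
      Polynomial.eval_C, Polynomial.eval_sub]
    apply mul_left_cancel₀ huu
    have h4 : (u - u⁻¹) * ((Int.castRingHom ℂ) κ *
        (Polynomial.eval z ((Polynomial.Chebyshev.S ℤ l).map (Int.castRingHom ℂ)) -
        Polynomial.eval z ((Polynomial.Chebyshev.S ℤ (l-2)).map (Int.castRingHom ℂ)))) =
        κ * ((u ^ (l + 1) - u ^ (-l - 1)) - (u ^ (l - 2 + 1) - u ^ (-(l - 2) - 1))) := by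
      rw [← h2 l, ← h2 (l-2)]
      simp only [eq_intCast]
      ring
    rw [h4]
    have e1 : u ^ (l + 1) = u * u ^ l := by rw [zpow_add₀ hu0, zpow_one, mul_comm]
    have e2 : u ^ (-l - 1) = u⁻¹ * u ^ (-l) := by rw [zpow_sub₀ hu0, zpow_one]; ring
    have e3 : u ^ (l - 2 + 1) = u⁻¹ * u ^ l := by
      have : l - 2 + 1 = l - 1 := by ring
      rw [this, zpow_sub₀ hu0, zpow_one]; ring
    have e4 : u ^ (-(l - 2) - 1) = u * u ^ (-l) := by
      have : -(l - 2) - 1 = -l + 1 := by ring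
      rw [this, zpow_add₀ hu0, zpow_one, mul_comm]
    rw [e1, e2, e3, e4]
    ring
  · exact (Set.toFinite _).infinite_compl

end poly

section hfn

variable {p : ℕ} [Fact p.Prime]

/-- the sign `(-1) ^ n` -/
noncomputable def sgn' (p : ℕ) (n : ℤ) : (ZMod p)[T;T⁻¹] := (((-1 : ((ZMod p)[T;T⁻¹])ˣ) ^ n : ((ZMod p)[T;T⁻¹])ˣ) : (ZMod p)[T;T⁻¹])

theorem cheb_dF (n : ℤ) : (T 2 - T (-2)) * Polynomial.aeval (dF (ZMod p)) (Polynomial.Chebyshev.S ℤ n) =
    sgn' p n * (T (2 * n + 2) - T (-2 * n - 2)) := by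
  have h1 := cheb_gen (fun n : ℤ => sgn' p n * T (2 * n)) (by simp [sgn']) (by
    intro a b
    unfold sgn'
    rw [zpow_add, Units.val_mul, mul_add, T_add]
    ring) n
  beta_reduce at h1
  have e1 : sgn' p 1 = -1 := by simp [sgn']
  have e2 : sgn' p (-1) = -1 := by simp [sgn']
  have e3 : sgn' p (n + 1) = -sgn' p n := by
    unfold sgn'
    rw [zpow_add, Units.val_mul, zpow_one]
    simp
  have e4 : sgn' p (-n - 1) = -sgn' p n := by
    unfold sgn'
    rw [zpow_sub, zpow_neg, ← inv_zpow, inv_neg, inv_one, zpow_one, inv_neg, inv_one, Units.val_mul]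
    simp
  rw [e1, e2, e3, e4] at h1
  have e5 : (-1 * T (2 * 1) + -1 * T (2 * -1) : (ZMod p)[T;T⁻¹]) = dF (ZMod p) := by
    unfold dF
    norm_num
    ring
  rw [e5] at h1
  have e6 : (2 * (n + 1)) = 2 * n + 2 := by ring
  have e7 : (2 * (-n - 1)) = -2 * n - 2 := by ring
  rw [e6, e7] at h1
  have e8 : (-1 * T (2 * 1) - -1 * T (2 * -1) : (ZMod p)[T;T⁻¹]) = -T 2 + T (-2) := by
    norm_num
  rw [e8] at h1
  calc (T 2 - T (-2)) * Polynomial.aeval (dF (ZMod p)) (Polynomial.Chebyshev.S ℤ n)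
      = -((-T 2 + T (-2)) * Polynomial.aeval (dF (ZMod p)) (Polynomial.Chebyshev.S ℤ n)) := by ring
    _ = _ := by rw [Polynomial.Chebyshev.aeval_S, h1]; ring

omit [Fact p.Prime] in
theorem sgn'_sub_two (n : ℤ) : sgn' p (n - 2) = sgn' p n := by
  unfold sgn'
  rw [zpow_sub]
  simp

/-- the value at all Chebyshev polynomials of small index -/
theorem HF_S {m : ℕ} {b : Bool} {a : ℕ} (H : ℕ → (ZMod p)[T;T⁻¹])
    (hH : ∀ n, n ≤ m → HF H (Polynomial.Chebyshev.S ℤ (n : ℤ)) =
        T (sgb b * (a * (n * (n + 2)) : ℕ)) *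
          Polynomial.aeval (dF (ZMod p)) (Polynomial.Chebyshev.S ℤ (n : ℤ))) (n : ℤ)
    (h1 : -(m : ℤ) - 2 ≤ n) (h2 : n ≤ m) :
    HF H (Polynomial.Chebyshev.S ℤ n) = T (sgb b * a * (n * (n + 2))) *
          Polynomial.aeval (dF (ZMod p)) (Polynomial.Chebyshev.S ℤ n) := by
  rcases lt_trichotomy n (-1) with h | h | h
  · obtain ⟨n', hn'⟩ : ∃ n' : ℕ, n = -(n' : ℤ) - 2 := ⟨(-n - 2).toNat, by omega⟩
    subst hn'
    rw [Polynomial.Chebyshev.S_neg_sub_two, map_neg, map_neg, hH n' (by omega)]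
    have e1 : (sgb b * (a * (n' * (n' + 2)) : ℕ) : ℤ) =
        sgb b * a * ((-(n' : ℤ) - 2) * (-(n' : ℤ) - 2 + 2)) := by
      push_cast
      ring
    rw [e1]
    ring
  · subst h
    rw [Polynomial.Chebyshev.S_neg_one, map_zero, map_zero, mul_zero]
  · obtain ⟨n', hn'⟩ : ∃ n' : ℕ, n = (n' : ℤ) := ⟨n.toNat, by omega⟩
    subst hn'
    rw [hH n' (by omega)]
    congr 2
    push_cast
    ring

end hfn

section groupring

variable (p : ℕ) [hp : Fact p.Prime]

/-- the map to the group ring of `ℤ/r` -/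
noncomputable def toG (r : ℕ) : (ZMod p)[T;T⁻¹] →+* AddMonoidAlgebra (ZMod p) (ZMod r) :=
  AddMonoidAlgebra.mapDomainRingHom (ZMod p) (Int.castAddHom (ZMod r))

theorem toG_CT (r : ℕ) (c : ZMod p) (n : ℤ) :
    toG p r (C c * T n) = AddMonoidAlgebra.single (n : ZMod r) c := by
  rw [← single_eq_C_mul_T]
  unfold toG
  rw [AddMonoidAlgebra.mapDomainRingHom_apply, AddMonoidAlgebra.mapDomain_single]
  rfl

theorem toG_psi (k : ℕ) (f : (ZMod p)[T;T⁻¹]) :
    toG p (4 * p ^ k) (PK.psi p k f) = toG p (4 * p ^ k) (C (eps p f)) := by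
  induction f using LaurentPolynomial.induction_on' with
  | add f g hf hg => rw [map_add, map_add, hf, hg, map_add, map_add, map_add]
  | C_mul_T n c =>
    rw [map_mul (eps p), eps_C, eps_T, mul_one, PK.psi_apply, map_mul, sub4_T]
    have h1 : sub4 (ZMod p) (C c) = C c := by
      rw [sub4_apply]
      unfold C
      show AddMonoidAlgebra.mapDomain _ (AddMonoidAlgebra.single 0 c) = AddMonoidAlgebra.single 0 c
      rw [AddMonoidAlgebra.mapDomain_single, map_zero]
    rw [h1, mul_pow, ← map_pow, ZMod.pow_card_pow, T_pow, toG_CT]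
    have h2 : (C c : (ZMod p)[T;T⁻¹]) = C c * T 0 := by rw [T_zero, mul_one]
    rw [h2, toG_CT]
    congr 1
    have h3 : ((p ^ k : ℕ) : ℤ) * (4 * n) = ((4 * p ^ k : ℕ) : ℤ) * n := by push_cast; ring
    rw [h3]
    push_cast
    have h4 : ((4 * p ^ k : ℕ) : ZMod (4 * p ^ k)) = 0 := ZMod.natCast_self _
    push_cast at h4
    rw [h4, zero_mul]

/-- four terms which are two terms -/
theorem four_terms {G F : Type*} [DecidableEq G] [Field F] (x y P1 P2 N1 N2 : G) (c κ : F)
    (hc : c ≠ 0) (hxy : x ≠ y)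
    (h : ∀ g, c * ((if x = g then 1 else 0) - (if y = g then 1 else 0)) =
      κ * ((if P1 = g then 1 else 0) - (if N1 = g then 1 else 0) - (if N2 = g then 1 else 0) +
        (if P2 = g then 1 else 0))) :
    (P1 = N1 ∨ P1 = N2 ∨ P2 = N1 ∨ P2 = N2) ∨
    (P1 = P2 ∧ N1 = N2 ∧ ((P1 = x ∧ N1 = y) ∨ (P1 = y ∧ N1 = x))) ∨
    (N1 = N2 ∧ ((P1 = x ∧ P2 = y) ∨ (P1 = y ∧ P2 = x))) ∨
    (P1 = P2 ∧ ((N1 = x ∧ N2 = y) ∨ (N1 = y ∧ N2 = x))) := by
  by_cases h0 : P1 = N1 ∨ P1 = N2 ∨ P2 = N1 ∨ P2 = N2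
  · left; exact h0
  right
  push Not at h0
  obtain ⟨h1, h2, h3, h4⟩ := h0
  have hx := h x
  rw [if_pos rfl, if_neg hxy.symm, sub_zero, mul_one] at hx
  have hy := h y
  rw [if_neg hxy, if_pos rfl, zero_sub, mul_neg, mul_one] at hy
  have hκ : κ ≠ 0 := by
    rintro rfl
    rw [zero_mul] at hx
    exact hc hx
  have key : ∀ g, κ * ((if P1 = g then 1 else 0) - (if N1 = g then 1 else 0) -
      (if N2 = g then 1 else 0) + (if P2 = g then 1 else 0)) ≠ 0 → g = x ∨ g = y := by
    intro g hg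
    by_contra hcon
    push Not at hcon
    apply hg
    rw [← h g, if_neg hcon.1.symm, if_neg hcon.2.symm, sub_zero, mul_zero]
  by_cases hP : P1 = P2
  · by_cases hN : N1 = N2
    · left
      refine ⟨hP, hN, ?_⟩
      rw [← hP, ← hN] at hx hy
      have hx' : P1 = x ∨ N1 = x := by
        by_contra hcon
        push Not at hcon
        rw [if_neg hcon.1, if_neg hcon.2] at hx
        apply hc
        rw [hx]
        ring
      have hy' : P1 = y ∨ N1 = y := by
        by_contra hcon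
        push Not at hcon
        rw [if_neg hcon.1, if_neg hcon.2] at hy
        apply hc
        rw [← neg_eq_zero, hy]
        ring
      rcases hx' with hx' | hx' <;> rcases hy' with hy' | hy'
      · exact absurd (hx'.symm.trans hy') hxy
      · left; exact ⟨hx', hy'⟩
      · right; exact ⟨hy', hx'⟩
      · exact absurd (hx'.symm.trans hy') hxy
    · right; right
      refine ⟨hP, ?_⟩
      have k1 := key N1 (by
        rw [if_neg h1, if_pos rfl, if_neg (Ne.symm hN), if_neg h3]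
        simpa using hκ)
      have k2 := key N2 (by
        rw [if_neg h2, if_neg hN, if_pos rfl, if_neg h4]
        simpa using hκ)
      rcases k1 with k1 | k1 <;> rcases k2 with k2 | k2
      · exact absurd (k1.trans k2.symm) hN
      · left; exact ⟨k1, k2⟩
      · right; exact ⟨k1, k2⟩
      · exact absurd (k1.trans k2.symm) hN
  · right; left
    have k1 := key P1 (by
      rw [if_pos rfl, if_neg h1.symm, if_neg h2.symm, if_neg (Ne.symm hP)]
      simpa using hκ)
    have k2 := key P2 (by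
      rw [if_neg hP, if_neg h3.symm, if_neg h4.symm, if_pos rfl]
      simpa using hκ)
    have hPP : (P1 = x ∧ P2 = y) ∨ (P1 = y ∧ P2 = x) := by
      rcases k1 with k1 | k1 <;> rcases k2 with k2 | k2
      · exact absurd (k1.trans k2.symm) hP
      · left; exact ⟨k1, k2⟩
      · right; exact ⟨k1, k2⟩
      · exact absurd (k1.trans k2.symm) hP
    refine ⟨?_, hPP⟩
    by_contra hN
    have k3 := key N1 (by
      rw [if_neg h1, if_pos rfl, if_neg (Ne.symm hN), if_neg h3]
      simpa using hκ)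
    rcases k3 with k3 | k3 <;> rcases hPP with ⟨g1, g2⟩ | ⟨g1, g2⟩
    · exact h1 (g1.trans k3.symm)
    · exact h3 (g2.trans k3.symm)
    · exact h3 (g2.trans k3.symm)
    · exact h1 (g1.trans k3.symm)

end groupring

end Pool.Agent.TH561.FP
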