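import Pool.Agent.TH561.PK.Defs
import Pool.Agent.TH561.PK.Knot

/-!
# Words for freely periodic knots
-/

set_option autoImplicit false

namespace Pool.Agent.TH561.FP

open Pool.Agent.TH561.PK

/-- The word `w`, repeated `n` times, followed by `a` full twists on all `M` strands: the word
`(σ_0 σ_1 ⋯ σ_{M-2})^M` repeated `|a|` times, with the crossings `(some true, i)` if `a ≥ 0` and
`(some false, i)` if `a < 0`. -/
def freeWord {M l : ℕ} (n : ℕ) (w : Fin l → Elem M) (a : ℤ) :
    Fin (n * l + a.natAbs * (M * (M - 1))) → Elem M :=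
  Fin.append (pw n w) (pw a.natAbs (pw M (fun i => (some (decide (0 ≤ a)), i))))

end Pool.Agent.TH561.FP
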