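import Pool.Agent.H891R2.Jones.TL

/-!
# The full twist is `(s 0 * s 1 * ⋯ * s (M - 2)) ^ M`
-/

set_option autoImplicit false

namespace Pool.Agent.TH561.FP

open Pool.Agent.H891R2.Jones

section ft

variable {R : Type*} [Ring R]

/-- `s k * s (k+1) * ⋯ * s (k+n-2)` -/
def DD (s : ℕ → R) : ℕ → ℕ → R
  | 0, _ => 1
  | 1, _ => 1
  | (n+2), k => s k * DD s (n+1) (k+1)

/-- `s (k+j-1) * ⋯ * s k` -/
def RR (s : ℕ → R) (k : ℕ) : ℕ → R
  | 0 => 1
  | (j+1) => s (k+j) * RR s k j

variable {s : ℕ → R}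

theorem DD_last : ∀ n k, DD s (n+2) k = DD s (n+1) k * s (k+n)
  | 0, k => by simp [DD]
  | (n+1), k => by
    have e1 : DD s (n+1+2) k = s k * DD s (n+2) (k+1) := rfl
    have e2 : DD s (n+1+1) k = s k * DD s (n+1) (k+1) := rfl
    rw [e1, e2, DD_last n (k+1), mul_assoc]
    congr 3
    ring

theorem RR_last (k : ℕ) : ∀ n, RR s k (n+1) = RR s (k+1) n * s k
  | 0 => by simp [RR]
  | (n+1) => by
    have e1 : RR s k (n+1+1) = s (k+(n+1)) * RR s k (n+1) := rfl
    have e2 : RR s (k+1) (n+1) = s (k+1+n) * RR s (k+1) n := rfl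
    rw [e1, e2, RR_last k n, mul_assoc]
    congr 2
    ring

theorem LL_eq : ∀ n k, LL s (n+1) k = DD s (n+1) k * RR s k n
  | 0, k => by simp [LL, DD, RR]
  | (n+1), k => by
    have e1 : LL s (n+1+1) k = s k * LL s (n+1) (k+1) * s k := rfl
    have e2 : DD s (n+1+1) k = s k * DD s (n+1) (k+1) := rfl
    rw [e1, e2, LL_eq n (k+1), RR_last]
    simp only [mul_assoc]

variable {M : ℕ} (hb : ∀ i, i + 2 < M → s i * s (i+1) * s i = s (i+1) * s i * s (i+1))
  (hf : ∀ i j, j + 1 < M → i + 2 ≤ j → s i * s j = s j * s i)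

include hf in
theorem DD_far (i : ℕ) : ∀ n k, i + 2 ≤ k → k + n ≤ M → Commute (s i) (DD s n k)
  | 0, _, _, _ => Commute.one_right _
  | 1, _, _, _ => Commute.one_right _
  | (n+2), k, h1, h2 => by
    have e1 : DD s (n+2) k = s k * DD s (n+1) (k+1) := rfl
    rw [e1]
    exact (show Commute (s i) (s k) from hf i k (by omega) h1).mul_right
      (DD_far i (n+1) (k+1) (by omega) (by omega))

include hb hf in
theorem DD_shift : ∀ n k i, k + n ≤ M → k ≤ i → i + 2 < k + n → DD s n k * s i = s (i+1) * DD s n k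
  | 0, _, _, _, _, _ => by omega
  | 1, _, _, _, _, _ => by omega
  | (n+2), k, i, hM, hki, hi => by
    have e1 : DD s (n+2) k = s k * DD s (n+1) (k+1) := rfl
    rcases Nat.eq_or_lt_of_le hki with h | h
    · subst h
      obtain ⟨n', rfl⟩ : ∃ n', n = n' + 1 := ⟨n - 1, by omega⟩
      have e2 : DD s (n'+1+1) (k+1) = s (k+1) * DD s (n'+1) (k+1+1) := rfl
      have h1 : Commute (s k) (DD s (n'+1) (k+1+1)) := DD_far hf k _ _ (by omega) (by omega)
      have h2 := hb k (by omega)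
      rw [e1, e2]
      calc s k * (s (k+1) * DD s (n'+1) (k+1+1)) * s k
          = s k * s (k+1) * (DD s (n'+1) (k+1+1) * s k) := by noncomm_ring
        _ = s k * s (k+1) * (s k * DD s (n'+1) (k+1+1)) := by rw [h1.eq]
        _ = (s k * s (k+1) * s k) * DD s (n'+1) (k+1+1) := by noncomm_ring
        _ = (s (k+1) * s k * s (k+1)) * DD s (n'+1) (k+1+1) := by rw [h2]
        _ = _ := by noncomm_ring
    · have h1 := DD_shift (n+1) (k+1) i (by omega) (by omega) (by omega)
      have h2 := hf k (i+1) (by omega) (by omega)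
      rw [e1, mul_assoc, h1, ← mul_assoc, h2, mul_assoc]

include hb hf in
theorem DD_RR (n k : ℕ) (hM : k + n ≤ M) (b : ℕ) (hkb : k ≤ b) : ∀ j, b + j + 1 < k + n →
    RR s (b+1) j * DD s n k = DD s n k * RR s b j
  | 0, _ => by simp [RR]
  | (j+1), hj => by
    have h1 := DD_RR n k hM b hkb j (by omega)
    have h2 := DD_shift hb hf n k (b+j) hM (by omega) (by omega)
    have e1 : RR s (b+1) (j+1) = s (b+1+j) * RR s (b+1) j := rfl
    have e2 : RR s b (j+1) = s (b+j) * RR s b j := rfl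
    have e3 : b + 1 + j = b + j + 1 := by ring
    rw [e1, e2, mul_assoc, h1, ← mul_assoc, e3, ← h2, mul_assoc]

include hb hf in
theorem DD_DD (n k : ℕ) (hM : k + n ≤ M) : ∀ j b, k ≤ b → b + j < k + n →
    DD s j (b+1) * DD s n k = DD s n k * DD s j b
  | 0, _, _, _ => by simp [DD]
  | 1, _, _, _ => by simp [DD]
  | (j+2), b, hkb, hj => by
    have h1 := DD_DD n k hM (j+1) (b+1) (by omega) (by omega)
    have h2 := DD_shift hb hf n k b hM (by omega) (by omega)
    have e1 : DD s (j+2) (b+1) = s (b+1) * DD s (j+1) (b+1+1) := rfl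
    have e2 : DD s (j+2) b = s b * DD s (j+1) (b+1) := rfl
    rw [e1, e2, mul_assoc, h1, ← mul_assoc, ← h2, mul_assoc]

include hb hf in
theorem DD_pow_aux (n k : ℕ) (hM : k + (n+1) ≤ M) : ∀ j, j ≤ n →
    (DD s (n+1) k) ^ (j+1) = (DD s n (k+1)) ^ j * DD s (n+1) k * RR s (k+n-j) j
  | 0, _ => by simp [RR]
  | (j+1), hj => by
    obtain ⟨n', rfl⟩ : ∃ n', n = n' + 1 := ⟨n - 1, by omega⟩
    have h1 := DD_pow_aux (n'+1) k hM j (by omega)
    have h2 := DD_RR hb hf (n'+1+1) k hM (k+(n'+1)-(j+1)) (by omega) j (by omega)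
    have h3 := DD_DD hb hf (n'+1+1) k hM (n'+1) k le_rfl (by omega)
    have h4 : DD s (n'+1+1) k = DD s (n'+1) k * s (k+n') := DD_last n' k
    have e1 : k + (n'+1) - (j+1) + 1 = k + (n'+1) - j := by omega
    have e2 : RR s (k+(n'+1)-(j+1)) (j+1) = s (k+n') * RR s (k+(n'+1)-(j+1)) j := by
      show s (k+(n'+1)-(j+1)+j) * _ = _
      have : k + (n'+1) - (j+1) + j = k + n' := by omega
      rw [this]
    rw [e1] at h2
    rw [pow_succ, h1, e2]
    set δ := DD s (n'+1+1) k with hδ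
    set ε := DD s (n'+1) k with hε
    set δ' := DD s (n'+1) (k+1) with hδ'
    calc δ' ^ j * δ * RR s (k+(n'+1)-j) j * δ
        = δ' ^ j * δ * (RR s (k+(n'+1)-j) j * δ) := by noncomm_ring
      _ = δ' ^ j * δ * (δ * RR s (k+(n'+1)-(j+1)) j) := by rw [h2]
      _ = δ' ^ j * (δ * (ε * s (k+n'))) * RR s (k+(n'+1)-(j+1)) j := by
          rw [← h4]; noncomm_ring
      _ = δ' ^ j * ((δ' * δ) * s (k+n')) * RR s (k+(n'+1)-(j+1)) j := by
          rw [h3]; noncomm_ring
      _ = _ := by rw [pow_succ]; noncomm_ring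

include hb hf in
/-- the full twist is a power -/
theorem DD_pow : ∀ n k, k + n ≤ M → (DD s n k) ^ n = FF s n k
  | 0, _, _ => by simp [FF]
  | (n+1), k, hM => by
    have h1 := DD_pow_aux hb hf n k hM n le_rfl
    have h2 := DD_pow n (k+1) (by omega)
    have e1 : k + n - n = k := by omega
    rw [h1, h2, e1, mul_assoc, ← LL_eq]
    rfl

/-- the product of the generators -/
theorem DD_prod : ∀ n k, (List.ofFn (fun i : Fin n => s (k + i))).prod = DD s (n+1) k
  | 0, _ => by simp [DD]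
  | (n+1), k => by
    have e1 : DD s (n+1+1) k = s k * DD s (n+1) (k+1) := rfl
    rw [e1, ← DD_prod n (k+1), List.ofFn_succ, List.prod_cons]
    congr 3
    funext i
    congr 1
    rw [Fin.val_succ]
    ring

end ft

end Pool.Agent.TH561.FP
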