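import Pool.Agent.TH561.FP.St

/-!
# The contributions of `s` essential curves, as Laurent polynomials
-/

set_option autoImplicit false

namespace Pool.Agent.TH561.FP

open Pool.Agent.H891R2.Jones Pool.Agent.TH561 Pool.Agent.TH561.PK Finset LaurentPolynomial

section sl

variable {m : ℕ}

/-- the contribution of `s` essential curves -/
noncomputable def gl (m : ℕ) (b : Bool) (a s : ℕ) : ℤ[T;T⁻¹] :=
  T (sgb b * (3 * a * s : ℕ)) * dl ^ s * SSum m [] (TW b s (m - s) a)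

theorem ev_T_AA' (N : ℕ) (hN : 3 ≤ N) (b : Bool) (n : ℕ) :
    ev N hN (T (sgb b * n)) = (AA N b) ^ n := by
  rw [ev_T]
  unfold sgb AA
  cases b
  · simp
  · simp

theorem ev_gl (N : ℕ) (hN : 3 ≤ N) (b : Bool) (a s : ℕ) (hs : s ≤ m) :
    ev N hN (gl m b a s) = hh m N b a s := by
  unfold gl hh
  rw [map_mul, map_mul, map_pow, ev_dl, ev_T_AA', ev_SSum N hN _ (by simp) _ (TW_mem _ _ _ _ (by omega)),
    MR_TW, WP_nil, one_mul]

theorem star (b : Bool) (a n : ℕ) (hn : n ≤ m) :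
    HF (gl m b a) (Polynomial.Chebyshev.S ℤ (n : ℤ)) =
      T (sgb b * (a * (n * (n + 2)) : ℕ)) *
        (dl ^ m * Polynomial.aeval dl (Polynomial.Chebyshev.S ℤ (n : ℤ))) := by
  apply eq_of_ev
  intro N hN
  have h1 : ev N hN (HF (gl m b a) (Polynomial.Chebyshev.S ℤ (n : ℤ))) =
      HF (fun s => ev N hN (gl m b a s)) (Polynomial.Chebyshev.S ℤ (n : ℤ)) :=
    HF_comp (ev N hN).toIntAlgHom.toLinearMap (gl m b a) _
  have h2 : ev N hN (Polynomial.aeval dl (Polynomial.Chebyshev.S ℤ (n : ℤ))) =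
      (Polynomial.Chebyshev.S ℂ (n : ℤ)).eval (N : ℂ) := by
    rw [← Polynomial.Chebyshev.aeval_S (R := ℤ) (N : ℂ) n, ← ev_dl N hN]
    exact (Polynomial.aeval_algHom_apply (ev N hN).toIntAlgHom dl _).symm
  rw [h1, HF_congr (S_deg n).1 (fun s hs => ev_gl N hN b a s (by omega)), map_mul, map_mul, map_pow,
    ev_T_AA', h2, ev_dl, ← star_ev hN n hn b a, ← HF_int (R := ℂ), Polynomial.Chebyshev.map_S]

theorem dF_ne (F : Type*) [Field F] : dF F ≠ 0 := top_dF.ne_zero

/-- the contribution modulo `p` without the common factor -/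
theorem exists_H (p : ℕ) [Fact p.Prime] (m : ℕ) (b : Bool) (a : ℕ) :
    ∃ H : ℕ → (ZMod p)[T;T⁻¹], (∀ s, s ≤ m → red p (gl m b a s) = dF (ZMod p) ^ m * H s) ∧
      ∀ n, n ≤ m → HF H (Polynomial.Chebyshev.S ℤ (n : ℤ)) =
        T (sgb b * (a * (n * (n + 2)) : ℕ)) *
          Polynomial.aeval (dF (ZMod p)) (Polynomial.Chebyshev.S ℤ (n : ℤ)) := by
  have h0 : ∀ n, n ≤ m → HF (fun s => red p (gl m b a s)) (Polynomial.Chebyshev.S ℤ (n : ℤ)) =
      dF (ZMod p) ^ m * (T (sgb b * (a * (n * (n + 2)) : ℕ)) *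
        Polynomial.aeval (dF (ZMod p)) (Polynomial.Chebyshev.S ℤ (n : ℤ))) := by
    intro n hn
    have h1 := congrArg (red p) (star (m := m) b a n hn)
    have h2 : red p (HF (gl m b a) (Polynomial.Chebyshev.S ℤ (n : ℤ))) =
      HF (fun s => red p (gl m b a s)) (Polynomial.Chebyshev.S ℤ (n : ℤ)) :=
      HF_comp (red p).toIntAlgHom.toLinearMap (gl m b a) _
    have h3 : red p (Polynomial.aeval dl (Polynomial.Chebyshev.S ℤ (n : ℤ))) =
        Polynomial.aeval (dF (ZMod p)) (Polynomial.Chebyshev.S ℤ (n : ℤ)) := by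
      rw [← red_dl p]
      exact (Polynomial.aeval_algHom_apply (red p).toIntAlgHom dl _).symm
    rw [h2, map_mul, map_mul, map_pow, red_T, red_dl, h3] at h1
    rw [h1]
    ring
  have hdiv : ∀ n, n ≤ m → dF (ZMod p) ^ m ∣ red p (gl m b a n) := by
    intro n
    induction n using Nat.strong_induction_on with
    | _ n ih =>
      intro hn
      obtain ⟨h1, h2⟩ := S_deg (R := ℤ) n
      have h3 := h0 n hn
      rw [HF_eq_sum _ _ (Nat.lt_succ_of_le h1), Finset.sum_range_succ, h2, one_smul] at h3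
      have h4 : red p (gl m b a n) = dF (ZMod p) ^ m * (T (sgb b * (a * (n * (n + 2)) : ℕ)) *
        Polynomial.aeval (dF (ZMod p)) (Polynomial.Chebyshev.S ℤ (n : ℤ))) -
          ∑ s ∈ range n, (Polynomial.Chebyshev.S ℤ (n : ℤ)).coeff s • red p (gl m b a s) := by
        rw [← h3]; ring
      rw [h4]
      refine dvd_sub (dvd_mul_right _ _) (Finset.dvd_sum fun s hs => ?_)
      rw [Finset.mem_range] at hs
      rw [zsmul_eq_mul]
      exact Dvd.dvd.mul_left (ih s hs (by omega)) _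
  choose! H hH using hdiv
  refine ⟨H, hH, fun n hn => ?_⟩
  apply mul_left_cancel₀ (pow_ne_zero m (dF_ne (ZMod p)))
  rw [← h0 n hn]
  have h1 : dF (ZMod p) ^ m * HF H (Polynomial.Chebyshev.S ℤ (n : ℤ)) =
      HF (fun s => dF (ZMod p) ^ m * H s) (Polynomial.Chebyshev.S ℤ (n : ℤ)) :=
    HF_comp (LinearMap.mulLeft ℤ (dF (ZMod p) ^ m)) H _
  rw [h1]
  exact HF_congr (S_deg n).1 (fun s hs => (hH s (by omega)).symm)

end sl

end Pool.Agent.TH561.FP
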