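import Pool.Agent.TH561.FP.Defs
import Pool.Agent.TH561.FP.Ft
import Pool.Agent.TH561.FP.Sl
import Pool.Agent.TH561.PK.Main

/-!
# The bracket modulo `p` of the diagram of a freely periodic link
-/

set_option autoImplicit false

namespace Pool.Agent.TH561.FP

open Pool.Agent.H891R2.Jones Pool.Agent.TH561 Pool.Agent.TH561.PK Finset LaurentPolynomial

section fw

variable {m : ℕ}

theorem MW_append {R : Type*} [Ring R] [Algebra ℂ R] (A : ℂ) (e : ℕ → R)
    (w w' : List (Option Bool × ℕ)) : MW A e (w ++ w') = MW A e w * MW A e w' := by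
  simp [MW]

theorem toW_append {L L' : ℕ} (w : Fin L → Elem m) (w' : Fin L' → Elem m) :
    toW (Fin.append w w') = toW w ++ toW w' := by
  unfold toW
  rw [← List.ofFn_fin_append]
  congr 1
  funext t
  refine Fin.addCases (fun i => ?_) (fun i => ?_) t
  · rw [Fin.append_left, Fin.append_left]
  · rw [Fin.append_right, Fin.append_right]

theorem MW_twist (hm : 0 < m) (N : ℕ) (hN : 3 ≤ N) (b : Bool) (a : ℕ) :
    MW (Ar N) (KK m N) (toW (pw a (pw m (fun i : Fin (m - 1) => (some b, i))))) =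
      (FF (sg (AA N b) (KK m N)) m 0) ^ a := by
  have hTL := isTL_KK m N
  have hA := AA_ne N hN b
  have hd := AA_d N hN b
  rw [toW_pw, MW_replicate, toW_pw, MW_replicate]
  congr 1
  rw [← DD_pow (M := m) (fun i hi => braid hA hd hTL i hi) (fun i j hj hij => far_ss hTL i j hj hij)
    m 0 (by omega)]
  congr 1
  obtain ⟨n, rfl⟩ : ∃ n, m = n + 1 := ⟨m - 1, by omega⟩
  rw [← DD_prod n 0]
  unfold MW toW
  rw [List.map_ofFn]
  congr 2
  funext i
  rw [zero_add]
  show ME (Ar N) (KK (n+1) N) (some b, (i : ℕ)) = _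
  unfold ME sg AA
  cases b
  · simp [opts, WP_cons]
  · simp [opts, WP_cons]

/-- the bracket of the closure of a power followed by full twists -/
theorem bracket_free {L : ℕ} (hL : 0 < L) (hm : 0 < m) (w : Fin L → Elem m)
    (dir : Fin L × Fin m → Bool) (B : List (Option Bool × ℕ)) (hB : ∀ x ∈ B, x.2 + 1 < m) (q : ℕ)
    (b : Bool) (a : ℕ)
    (hW : toW w = (List.replicate q B).flatten ++ toW (pw a (pw m (fun i : Fin (m - 1) => (some b, i))))) :
    dl * (PK.annular w dir).bracket =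
      ∑ f : Fin q → Sm B, T (∑ j, wgt (f j)) * SSum m (sqw f) (TW b m 0 a) := by
  apply eq_of_ev
  intro N hN
  rw [map_mul, ev_dl, annular_bracket hL w dir hm hN, hW, MW_append, MW_replicate,
    MW_twist hm N hN, MW_pow (Ar_ne N hN), Finset.sum_mul, Matrix.trace_sum, map_sum]
  refine Finset.sum_congr rfl fun f _ => ?_
  rw [smul_mul_assoc, Matrix.trace_smul, map_mul, ev_T,
    ev_SSum N hN _ (sqw_mem hB f) _ (TW_mem _ m 0 _ (by omega)), MR_TW, smul_eq_mul]

theorem SSum_rot' {B : List (Option Bool × ℕ)} (hB : ∀ x ∈ B, x.2 + 1 < m) {q : ℕ} (f : Fin q → Sm B)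
    (b : Bool) (a : ℕ) :
    SSum m (sqw (f ∘ finRotate q)) (TW b m 0 a) = SSum m (sqw f) (TW b m 0 a) := by
  apply eq_of_ev
  intro N hN
  rw [ev_SSum N hN _ (sqw_mem hB _) _ (TW_mem _ m 0 _ (by omega)),
    ev_SSum N hN _ (sqw_mem hB _) _ (TW_mem _ m 0 _ (by omega)), MR_TW, WP_sqw, WP_sqw]
  exact trace_rot2 q (fun j => WP (KK m N) (gen (f j))) _
    (fun j => comm_P_WP N hN b a _ (gen_mem hB _))

theorem esn_le {L : List ℕ} (h : ∀ i ∈ L, i + 1 < m) : esn m L ≤ m := (esn_inn L h).1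

theorem SSum_const' {B : List (Option Bool × ℕ)} (hB : ∀ x ∈ B, x.2 + 1 < m) {q : ℕ} (hq : 1 ≤ q)
    (i : Sm B) (b : Bool) (a : ℕ) :
    dl ^ m * SSum m (sqw (fun _ : Fin q => i)) (TW b m 0 a) =
      dl ^ (q * inn m (gen i)) * (T (-sgb b * (3 * a * m : ℕ)) * gl m b a (esn m (gen i))) := by
  have hle := esn_le (gen_mem hB i)
  have h1 : dl ^ (m - esn m (gen i)) * SSum m (sqw (fun _ : Fin q => i)) (TW b m 0 a) =
      dl ^ (q * inn m (gen i)) * (T (-sgb b * (3 * a * (m - esn m (gen i)) : ℕ)) *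
        SSum m [] (TW b (esn m (gen i)) (m - esn m (gen i)) a)) := by
    apply eq_of_ev
    intro N hN
    rw [map_mul, map_mul, map_mul, map_pow, map_pow, ev_dl, ev_T_AA,
      ev_SSum N hN _ (sqw_mem hB _) _ (TW_mem _ m 0 _ (by omega)),
      ev_SSum N hN _ (by simp) _ (TW_mem _ _ _ _ (by omega)), MR_TW, MR_TW, WP_sqw,
      List.ofFn_const, List.prod_replicate, WP_nil, one_mul]
    obtain ⟨s, hs, hes, h2⟩ := trace_twist' m m le_rfl (gen i)
      (fun k hk => ⟨by omega, gen_mem hB i k hk⟩)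
    have hes' : esn m (gen i) = s := by omega
    have h3 := h2 N hN b q a hq
    rw [hes']
    have h4 : m - m = 0 := Nat.sub_self m
    rw [h4] at h3
    exact h3
  have h2 : dl ^ m = dl ^ esn m (gen i) * dl ^ (m - esn m (gen i)) := by
    rw [← pow_add]; congr 1; omega
  have h3 : (T (-sgb b * (3 * a * (m - esn m (gen i)) : ℕ)) : ℤ[T;T⁻¹]) =
      T (-sgb b * (3 * a * m : ℕ)) * T (sgb b * (3 * a * esn m (gen i) : ℕ)) := by
    rw [← T_add]
    congr 1
    push_cast [Nat.cast_sub hle]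
    ring
  rw [h2, mul_assoc, h1, h3]
  unfold gl
  ring

/-- the bracket modulo `p` of the diagram of a freely periodic link -/
theorem free_modp {L : ℕ} (hL : 0 < L) (hm : 0 < m) (w : Fin L → Elem m)
    (dir : Fin L × Fin m → Bool) (p : ℕ) [Fact p.Prime] (k : ℕ) (B : List (Option Bool × ℕ))
    (hB : ∀ x ∈ B, x.2 + 1 < m) (b : Bool) (a : ℕ)
    (hW : toW w = (List.replicate (p ^ k) B).flatten ++
      toW (pw a (pw m (fun i : Fin (m - 1) => (some b, i)))))
    (H : ℕ → (ZMod p)[T;T⁻¹]) (hH : ∀ s, s ≤ m → red p (gl m b a s) = dF (ZMod p) ^ m * H s) :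
    red p (dl * (PK.annular w dir).bracket) = T (-sgb b * (3 * a * m : ℕ)) *
      ∑ i : Sm B, (T (wgt i) * dF (ZMod p) ^ inn m (gen i)) ^ (p ^ k) * H (esn m (gen i)) := by
  have hq : 1 ≤ p ^ k := Nat.one_le_iff_ne_zero.2 (pow_ne_zero k (Fact.out : p.Prime).ne_zero)
  rw [bracket_free hL hm w dir B hB (p ^ k) b a hW, map_sum]
  have h1 : ∀ f : Fin (p ^ k) → Sm B, red p (T (∑ j, wgt (f j)) * SSum m (sqw f) (TW b m 0 a)) =
      T (∑ j, wgt (f j)) * red p (SSum m (sqw f) (TW b m 0 a)) := by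
    intro f
    rw [map_mul, red_T]
  rw [Finset.sum_congr rfl (fun f _ => h1 f)]
  rw [sum_seq p k (fun f : Fin (p ^ k) → Sm B =>
    (T (∑ j, wgt (f j)) * red p (SSum m (sqw f) (TW b m 0 a)) : (ZMod p)[T;T⁻¹])) (by
      intro f
      rw [SSum_rot' hB f]
      congr 2
      exact Equiv.sum_comp (finRotate (p ^ k)) (fun j => wgt (f j)))]
  apply mul_left_cancel₀ (pow_ne_zero m (dF_ne (ZMod p)))
  rw [Finset.mul_sum, Finset.mul_sum, Finset.mul_sum]
  refine Finset.sum_congr rfl fun i _ => ?_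
  have h3 := congrArg (red p) (SSum_const' hB hq i b a)
  rw [map_mul, map_mul, map_mul, map_pow, map_pow, red_dl, red_T,
    hH _ (esn_le (gen_mem hB i))] at h3
  have h5 : (T (∑ _j : Fin (p ^ k), wgt i) : (ZMod p)[T;T⁻¹]) = T (wgt i) ^ (p ^ k) := by
    rw [T_pow, Finset.sum_const, Finset.card_univ, Fintype.card_fin, nsmul_eq_mul]
  rw [h5, mul_pow, ← pow_mul, mul_comm (inn m (gen i)) (p ^ k)]
  calc dF (ZMod p) ^ m * (T (wgt i) ^ p ^ k *
        red p (SSum m (sqw (fun _ : Fin (p ^ k) => i)) (TW b m 0 a)))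
      = T (wgt i) ^ p ^ k * (dF (ZMod p) ^ m *
        red p (SSum m (sqw (fun _ : Fin (p ^ k) => i)) (TW b m 0 a))) := by ring
    _ = _ := by rw [h3]; ring

end fw

end Pool.Agent.TH561.FP
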