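import Pool.Agent.TH561.FP.Main

/-!
# The identity in the group ring of `ℤ/r`
-/

set_option autoImplicit false

namespace Pool.Agent.TH561.FP

open Pool.Agent.H891R2.Jones Pool.Agent.TH561 Pool.Agent.TH561.PK Finset LaurentPolynomial

section pm

variable {M : ℕ}

theorem colOf_adj (i : ℕ) (h : i + 1 < M) (a : Fin M → Bool) :
    colOf a ⟨i, Nat.lt_of_succ_lt h⟩ = colOf a ⟨i+1, h⟩ ↔ a ⟨i, Nat.lt_of_succ_lt h⟩ = !(a ⟨i+1, h⟩) := by
  rw [dirOf_adj i h, dirOf_colOf]

theorem colOf_congr {a b : Fin M → Bool} {j : Fin M} (h : a j = b j) : colOf a j = colOf b j := by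
  unfold colOf
  rw [h]

/-- the entries which belong to an orientation are `1` or `-1` -/
theorem PP_of_fits (x : Elem M) (a b : Fin M → Bool) (h : Fits x a b) :
    PK.PP M (x.1, (x.2 : ℕ)) (colOf a) (colOf b) = 1 ∨ PK.PP M (x.1, (x.2 : ℕ)) (colOf a) (colOf b) = -1 := by
  obtain ⟨o, i⟩ := x
  have hi : (i : ℕ) + 1 < M := by have := i.2; omega
  have hlf : (Elem.lf (o, i) : Fin M) = ⟨i, Nat.lt_of_succ_lt hi⟩ := rfl
  have hrg : (Elem.rg (o, i) : Fin M) = ⟨i+1, hi⟩ := rfl
  obtain ⟨h1, h2⟩ := h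
  rw [hlf, hrg] at h1 h2
  have hoth : ∀ j : Fin M, j ≠ ⟨i, Nat.lt_of_succ_lt hi⟩ → j ≠ ⟨i+1, hi⟩ → colOf a j = colOf b j :=
    fun j h3 h4 => colOf_congr (h1 j h3 h4)
  rcases o with _ | c
  · right
    simp only at h2
    rw [PP_none, Matrix.neg_apply, KK_apply _ hi, ind_pos]
    refine ⟨(colOf_adj _ hi a).2 ?_, (colOf_adj _ hi b).2 ?_, hoth⟩
    · rw [Bool.eq_not]; exact h2.1
    · rw [Bool.eq_not]; exact h2.2
  · simp only at h2
    rw [PP_some, Matrix.sub_apply, Matrix.one_apply, KK_apply _ hi]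
    by_cases h3 : a ⟨i, Nat.lt_of_succ_lt hi⟩ = a ⟨i+1, hi⟩
    · left
      have hab : a = b := by
        funext j
        by_cases hj : j = ⟨i, Nat.lt_of_succ_lt hi⟩
        · rw [hj, h3, h2.2]
        · by_cases hj' : j = ⟨i+1, hi⟩
          · rw [hj', ← h3, h2.1]
          · exact h1 j hj hj'
      rw [if_pos (by rw [hab]), ind_neg (fun h4 => by
        have h5 := (colOf_adj _ hi a).1 h4.1
        rw [h3] at h5
        revert h5
        cases a ⟨i+1, hi⟩ <;> simp), sub_zero]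
    · right
      have hab : colOf a ≠ colOf b := by
        intro h4
        have h5 : a = b := by rw [← dirOf_colOf a, h4, dirOf_colOf]
        apply h3
        rw [h2.1, ← h5]
      rw [if_neg hab, ind_pos, zero_sub]
      refine ⟨(colOf_adj _ hi a).2 ?_, (colOf_adj _ hi b).2 ?_, hoth⟩
      · rw [Bool.eq_not]; exact h3
      · rw [Bool.eq_not, ← h2.1, ← h2.2]; exact fun h4 => h3 h4.symm

/-- the twisted trace of a word, if all its orientations come from a knot -/
theorem twisted_sum_pm {l L : ℕ} (hl : 0 < l) (hM : 0 < M) (v : Fin l → Elem M) (w : Fin L → Elem M)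
    (em : Fin l → Fin L) (dir : Fin L × Fin M → Bool) (ho : Oriented w dir)
    (hK : IsKnot (PK.annular w dir)) (hv : Oriented v (fun x => dir (em x.1, x.2)))
    (hext : ∀ d : Fin l × Fin M → Bool, Oriented v d →
      ∃ dir' : Fin L × Fin M → Bool, Oriented w dir' ∧ ∀ t j, dir' (em t, j) = d (t, j)) :
    ∃ κ : ℤ, (κ = 1 ∨ κ = -1) ∧ ∀ u : ℂ, u ≠ 0 → u + u⁻¹ ≠ 0 →
      ∑ i : Sm (toW v), (-2 : ℂ) ^ inn M (gen i) * (u + u⁻¹) ^ esn M (gen i) =
        κ * (u ^ (linking dir (em ⟨0, hl⟩)) + u ^ (-(linking dir (em ⟨0, hl⟩)))) := by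
  let fp : Fin l → (Fin M → Fin 2) := fun t => colOf (fun j => dir (em t, j))
  let fm : Fin l → (Fin M → Fin 2) := fun t => flp (fp t)
  have hmem : ∀ t, (v t).2.val + 1 < M := fun t => by have := (v t).2.2; omega
  have hn0 : ∀ t, ∃ n : ℤ, (n = 1 ∨ n = -1) ∧
      PK.PP M ((v t).1, ((v t).2 : ℕ)) (fp t) (fp (finRotate l t)) = n := by
    intro t
    rcases PP_of_fits (v t) (fun j => dir (em t, j)) (fun j => dir (em (finRotate l t), j)) (hv t) with h | h
    · exact ⟨1, Or.inl rfl, by push_cast; exact h⟩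
    · exact ⟨-1, Or.inr rfl, by push_cast; exact h⟩
  choose n hn1 hn2 using hn0
  refine ⟨∏ t, n t, ?_, fun u hu hz => ?_⟩
  · apply Finset.prod_induction n (fun x => x = 1 ∨ x = -1)
    · rintro a b (rfl | rfl) (rfl | rfl) <;> simp
    · left; rfl
    · intro t _; exact hn1 t
  · -- the sum is a trace
    have h1 : ∑ i : Sm (toW v), (-2 : ℂ) ^ inn M (gen i) * (u + u⁻¹) ^ esn M (gen i) =
        Matrix.trace (Matrix.diagonal (tw u) * MW 1 (nK M) (toW v)) := by
      rw [MW_sum one_ne_zero, Finset.mul_sum, Matrix.trace_sum]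
      refine Finset.sum_congr rfl fun i _ => ?_
      rw [one_zpow, one_smul, WP_nK, mul_smul_comm, Matrix.trace_smul,
        trace_U (gen i) (gen_mem (toW_mem v) i) hu hz, smul_eq_mul]
      have h2 := (esn_inn (gen i) (gen_mem (toW_mem v) i)).2.2.1
      have h3 : (-1 : ℂ) ^ (gen i).length = (-1) ^ inn M (gen i) := by
        rw [neg_one_pow_eq_pow_mod_two, h2, ← neg_one_pow_eq_pow_mod_two]
      rw [h3]
      have h4 : (-2 : ℂ) = (-1) * 2 := by norm_num
      rw [h4, mul_pow]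
      ring
    have h2 : MW 1 (nK M) (toW v) = (List.ofFn (fun t => PK.PP M ((v t).1, ((v t).2 : ℕ)))).prod := by
      unfold MW toW
      rw [List.map_ofFn]
      rfl
    rw [h1, h2, trace_prod l hl]
    -- only two terms
    have hzero : ∀ f : Fin l → (Fin M → Fin 2), f ≠ fp → f ≠ fm →
        tw u (f ⟨0, hl⟩) * ∏ t, PK.PP M ((v t).1, ((v t).2 : ℕ)) (f t) (f (finRotate l t)) = 0 := by
      intro f hf1 hf2
      by_contra hne
      have h3 := (mul_ne_zero_iff.1 hne).2
      rw [Finset.prod_ne_zero_iff] at h3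
      have h4 : Oriented v (fun s => dirOf (f s.1) s.2) :=
        fun t => PP_fits (v t) (f t) (f (finRotate l t)) (h3 t (Finset.mem_univ t))
      obtain ⟨dir', h5, h5'⟩ := hext _ h4
      rcases two_orientations w dir _ ho h5 hK with h6 | h6
      · apply hf1
        funext t
        have h7 : dirOf (f t) = fun j => dir (em t, j) := by
          funext j
          rw [← h6 (em t, j), h5' t j]
        show f t = colOf (fun j => dir (em t, j))
        rw [← h7, colOf_dirOf]
      · apply hf2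
        funext t
        have h7 : dirOf (f t) = fun j => !(dir (em t, j)) := by
          funext j
          rw [← h6 (em t, j), h5' t j]
        show f t = flp (colOf (fun j => dir (em t, j)))
        rw [← colOf_not, ← h7, colOf_dirOf]
    have hpm : fp ≠ fm := by
      intro h3
      have h4 := congrFun (congrFun h3 ⟨0, hl⟩) ⟨0, hM⟩
      have h5 : fp ⟨0, hl⟩ ⟨0, hM⟩ = Equiv.swap 0 1 (fp ⟨0, hl⟩ ⟨0, hM⟩) := h4
      revert h5
      generalize fp ⟨0, hl⟩ ⟨0, hM⟩ = a
      revert a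
      decide
    rw [← Finset.sum_subset (Finset.subset_univ {fp, fm}) (fun f _ hf => by
      simp only [Finset.mem_insert, Finset.mem_singleton, not_or] at hf
      exact hzero f hf.1 hf.2), Finset.sum_pair hpm]
    have h3 : ∏ t, PK.PP M ((v t).1, ((v t).2 : ℕ)) (fp t) (fp (finRotate l t)) = ((∏ t, n t : ℤ) : ℂ) := by
      push_cast
      refine Finset.prod_congr rfl fun t _ => ?_
      exact hn2 t
    have h4 : ∏ t, PK.PP M ((v t).1, ((v t).2 : ℕ)) (fm t) (fm (finRotate l t)) = ((∏ t, n t : ℤ) : ℂ) := by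
      rw [← h3]
      refine Finset.prod_congr rfl fun t _ => ?_
      exact PP_flp _ (hmem t) _ _
    rw [h3, h4]
    have h5 : tw u (fp ⟨0, hl⟩) = u ^ (linking dir (em ⟨0, hl⟩)) := tw_colOf hu _
    have h6 : tw u (fm ⟨0, hl⟩) = u ^ (-(linking dir (em ⟨0, hl⟩))) := by
      show tw u (flp (colOf (fun j => dir (em ⟨0, hl⟩, j)))) = _
      rw [← colOf_not, tw_colOf hu]
      congr 1
      unfold linking
      rw [← Finset.sum_neg_distrib]
      refine Finset.sum_congr rfl fun j _ => ?_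
      cases dir (em ⟨0, hl⟩, j) <;> simp
    rw [h5, h6]
    ring

end pm

section iden

variable (p : ℕ) [hp : Fact p.Prime]

theorem toG_psi' (k r : ℕ) (hr : r ∣ 4 * p ^ k) (f : (ZMod p)[T;T⁻¹]) :
    toG p r (PK.psi p k f) = toG p r (C (eps p f)) := by
  induction f using LaurentPolynomial.induction_on' with
  | add f g hf hg => rw [map_add, map_add, hf, hg, map_add, map_add, map_add]
  | C_mul_T n c =>
    rw [map_mul (eps p), eps_C, eps_T, mul_one, PK.psi_apply, map_mul, sub4_T]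
    have h1 : sub4 (ZMod p) (C c) = C c := by
      rw [sub4_apply]
      unfold C
      show AddMonoidAlgebra.mapDomain _ (AddMonoidAlgebra.single 0 c) = AddMonoidAlgebra.single 0 c
      rw [AddMonoidAlgebra.mapDomain_single, map_zero]
    rw [h1, mul_pow, ← map_pow, ZMod.pow_card_pow, T_pow, toG_CT]
    have h2 : (C c : (ZMod p)[T;T⁻¹]) = C c * T 0 := by rw [T_zero, mul_one]
    rw [h2, toG_CT]
    congr 1
    have h3 : ((p ^ k : ℕ) : ℤ) * (4 * n) = ((4 * p ^ k : ℕ) : ℤ) * n := by push_cast; ring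
    rw [h3]
    rw [Int.cast_mul, Int.cast_natCast, (ZMod.natCast_eq_zero_iff _ _).2 hr, zero_mul, Int.cast_zero]

/-- the polynomial with four terms -/
noncomputable def FT (a l : ℤ) : (ZMod p)[T;T⁻¹] :=
  T (a * (l * (l + 2))) * (T (2 * l + 2) - T (-2 * l - 2)) -
        T (a * ((l - 2) * (l - 2 + 2))) * (T (2 * (l - 2) + 2) - T (-2 * (l - 2) - 2))

variable {M l : ℕ}

/-- the identity for the bracket in the group ring of `ℤ/r`, if the twisted trace is known -/
theorem free_identity_of (k : ℕ) {L : ℕ} (hL : 0 < L)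
    (hM : 0 < M) (v : Fin l → Elem M) (w : Fin L → Elem M) (a : ℤ)
    (hW : toW w = (List.replicate (p ^ k) (toW v)).flatten ++
      toW (pw a.natAbs (pw M (fun i : Fin (M - 1) => (some (decide (0 ≤ a)), i)))))
    (dir : Fin L × Fin M → Bool) (κ : ℤ) (lk : ℤ) (hlb : -(M : ℤ) ≤ lk) (hub : lk ≤ M)
    (hu : ∀ u : ℂ, u ≠ 0 → u + u⁻¹ ≠ 0 →
      ∑ i : Sm (toW v), (-2 : ℂ) ^ inn M (gen i) * (u + u⁻¹) ^ esn M (gen i) =
        κ * (u ^ lk + u ^ (-lk)))
    (r : ℕ) (hr : r ∣ 4 * p ^ k) :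
    ∃ (s : ZMod p) (z : ℤ), (s = 1 ∨ s = -1) ∧
      toG p r ((T (-4) - T 4) * red p (PK.annular w dir).bracket) =
        toG p r (C (κ * s) * T z * FT p a lk) := by
  have hR := Rz_eq (m := M) (toW v) lk κ hu
  set b := decide (0 ≤ a) with hb
  obtain ⟨H, hH1, hH2⟩ := exists_H p M b a.natAbs
  have hB := toW_mem v
  have hF := free_modp hL hM w dir p k (toW v) hB b a.natAbs hW H hH1
  set B := toW v with hBdef
  have hα : sgb b * (a.natAbs : ℤ) = a := by
    rw [hb]
    unfold sgb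
    by_cases h0 : 0 ≤ a
    · rw [decide_eq_true h0, if_pos rfl]
      omega
    · rw [decide_eq_false h0, if_neg (by simp)]
      omega
  -- the sum in the group ring
  have hsum : toG p r (∑ i : Sm B, (T (wgt i) * dF (ZMod p) ^ inn M (gen i)) ^ (p ^ k) *
      H (esn M (gen i))) = toG p r (T ((p ^ k : ℕ) * clw B) * HF H (Rz M B)) := by
    have h1 : HF H (Rz M B) = ∑ i : Sm B, C ((-2 : ZMod p) ^ inn M (gen i)) * H (esn M (gen i)) := by
      unfold Rz
      rw [map_sum]
      refine Finset.sum_congr rfl fun i _ => ?_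
      rw [HF_monomial, zsmul_eq_mul]
      congr 1
      rw [map_pow, map_neg, map_ofNat]
      push_cast
      rfl
    rw [h1, Finset.mul_sum, map_sum, map_sum]
    refine Finset.sum_congr rfl fun i _ => ?_
    rw [← sub4_gq p hB i, mul_pow, T_pow, ← psi_apply, map_mul, map_mul, toG_psi' p k r hr, map_mul,
      map_mul, mul_assoc]
    congr 3
    congr 1
    unfold gq
    rw [map_mul, map_mul, map_pow, map_pow, map_neg, map_one, map_add, map_one, eps_T, eps_T, mul_one,
      ← mul_pow]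
    norm_num
  -- the value of `HF`
  have hHF : (T 2 - T (-2)) * HF H (Rz M B) = C (κ : ZMod p) * sgn' p lk * FT p a lk := by
    have h1 : HF H (Rz M B) = C (κ : ZMod p) * (HF H (Polynomial.Chebyshev.S ℤ lk) -
        HF H (Polynomial.Chebyshev.S ℤ (lk - 2))) := by
      rw [hR, ← Polynomial.smul_eq_C_mul, map_smul, map_sub, zsmul_eq_mul]
      congr 1
    rw [h1, HF_S H hH2 lk (by omega) hub, HF_S H hH2 (lk - 2) (by omega) (by omega), hα]
    have h2 := cheb_dF (p := p) lk
    have h3 := cheb_dF (p := p) (lk - 2)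
    rw [sgn'_sub_two] at h3
    unfold FT
    calc (T 2 - T (-2)) * (C (κ : ZMod p) * (T (a * (lk * (lk + 2))) *
          Polynomial.aeval (dF (ZMod p)) (Polynomial.Chebyshev.S ℤ lk) -
          T (a * ((lk - 2) * (lk - 2 + 2))) *
            Polynomial.aeval (dF (ZMod p)) (Polynomial.Chebyshev.S ℤ (lk - 2))))
        = C (κ : ZMod p) * (T (a * (lk * (lk + 2))) * ((T 2 - T (-2)) *
          Polynomial.aeval (dF (ZMod p)) (Polynomial.Chebyshev.S ℤ lk)) -
          T (a * ((lk - 2) * (lk - 2 + 2))) * ((T 2 - T (-2)) *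
            Polynomial.aeval (dF (ZMod p)) (Polynomial.Chebyshev.S ℤ (lk - 2)))) := by ring
      _ = _ := by rw [h2, h3]; ring
  -- the left side
  have hleft : (T 2 - T (-2)) * red p (dl * (PK.annular w dir).bracket) =
      (T (-4) - T 4) * red p (PK.annular w dir).bracket := by
    rw [map_mul, red_dl]
    unfold dF
    have h1 : (T 2 * T 2 : (ZMod p)[T;T⁻¹]) = T 4 := by rw [← T_add]; norm_num
    have h2 : (T (-2) * T (-2) : (ZMod p)[T;T⁻¹]) = T (-4) := by rw [← T_add]; norm_num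
    calc (T 2 - T (-2)) * ((-T 2 - T (-2)) * red p (PK.annular w dir).bracket)
        = (T (-2) * T (-2) - T 2 * T 2 : (ZMod p)[T;T⁻¹]) * red p (PK.annular w dir).bracket := by ring
      _ = _ := by rw [h1, h2]
  have hsgn : ∃ s : ZMod p, (s = 1 ∨ s = -1) ∧ sgn' p lk = C s := by
    rcases sgn'_eq p lk with h | h
    · exact ⟨1, Or.inl rfl, by rw [h, map_one]⟩
    · exact ⟨-1, Or.inr rfl, by rw [h, map_neg, map_one]⟩
  obtain ⟨s, hs1, hs⟩ := hsgn
  set x : ℤ := (-sgb b * (3 * a.natAbs * M : ℕ) : ℤ) with hx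
  set y : ℤ := ((p ^ k : ℕ) * clw B : ℤ) with hy
  refine ⟨s, x + y, hs1, ?_⟩
  · rw [← hleft, map_mul, hF, map_mul, hsum, ← map_mul, ← map_mul]
    congr 1
    have h2 : (T 2 - T (-2)) * (T x * (T y * HF H (Rz M B))) =
        (T x * T y) * ((T 2 - T (-2)) * HF H (Rz M B)) := by ring
    rw [h2, hHF, hs, ← T_add, map_mul]
    ring

/-- the identity for the bracket in the group ring of `ℤ/r` -/
theorem free_identity (k : ℕ) {L : ℕ} (hL : 0 < L) (hl : 0 < l)
    (hM : 0 < M) (v : Fin l → Elem M) (w : Fin L → Elem M) (a : ℤ)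
    (hW : toW w = (List.replicate (p ^ k) (toW v)).flatten ++
      toW (pw a.natAbs (pw M (fun i : Fin (M - 1) => (some (decide (0 ≤ a)), i)))))
    (em : Fin l → Fin L) (dir : Fin L × Fin M → Bool) (ho : Oriented w dir)
    (hK : IsKnot (PK.annular w dir)) (hv : Oriented v (fun x => dir (em x.1, x.2)))
    (hext : ∀ d : Fin l × Fin M → Bool, Oriented v d →
      ∃ dir' : Fin L × Fin M → Bool, Oriented w dir' ∧ ∀ t j, dir' (em t, j) = d (t, j))
    (r : ℕ) (hr : r ∣ 4 * p ^ k) :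
    ∃ (c : ZMod p) (z : ℤ), (c = 1 ∨ c = -1) ∧
      toG p r ((T (-4) - T 4) * red p (PK.annular w dir).bracket) =
        toG p r (C c * T z * FT p a (linking dir (em ⟨0, hl⟩))) := by
  obtain ⟨κ, hκ, hu⟩ := twisted_sum_pm hl hM v w em dir ho hK hv hext
  obtain ⟨hlb, hub⟩ := linking_bound dir (em ⟨0, hl⟩)
  obtain ⟨s, z, hs, h⟩ := free_identity_of p k hL hM v w a hW dir κ _ hlb hub hu r hr
  refine ⟨κ * s, z, ?_, h⟩
  rcases hκ with rfl | rfl <;> rcases hs with rfl | rfl <;> simp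

/-- the identity without the assumption on the orientation -/
theorem free_identity_zero (k : ℕ) {L : ℕ} (hL : 0 < L) (hl : 0 < l)
    (hM : 0 < M) (v : Fin l → Elem M) (w : Fin L → Elem M) (a : ℤ)
    (hW : toW w = (List.replicate (p ^ k) (toW v)).flatten ++
      toW (pw a.natAbs (pw M (fun i : Fin (M - 1) => (some (decide (0 ≤ a)), i)))))
    (em : Fin l → Fin L) (dir : Fin L × Fin M → Bool) (ho : Oriented w dir)
    (hK : IsKnot (PK.annular w dir))
    (hext : ∀ d : Fin l × Fin M → Bool, Oriented v d →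
      ∃ dir' : Fin L × Fin M → Bool, Oriented w dir' ∧ ∀ t j, dir' (em t, j) = d (t, j))
    (r : ℕ) (hr : r ∣ 4 * p ^ k) :
    ∃ (c : ZMod p) (z : ℤ), (c = 0 ∨ c = 1 ∨ c = -1) ∧
      toG p r ((T (-4) - T 4) * red p (PK.annular w dir).bracket) =
        toG p r (C c * T z * FT p a (linking dir (em ⟨0, hl⟩))) := by
  obtain ⟨κ, hκ, hu⟩ := twisted_sum_gen hl hM v w em dir ho hK hext
  obtain ⟨hlb, hub⟩ := linking_bound dir (em ⟨0, hl⟩)
  obtain ⟨s, z, hs, h⟩ := free_identity_of p k hL hM v w a hW dir κ _ hlb hub hu r hr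
  refine ⟨κ * s, z, ?_, h⟩
  rcases hκ with rfl | rfl | rfl <;> rcases hs with rfl | rfl <;> simp

end iden

end Pool.Agent.TH561.FP
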