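import Pool.Agent.TH561.PB.Words

/-!
# The idempotents of Jones and Wenzl in the Temperley–Lieb algebra
-/

set_option autoImplicit false

namespace Pool.Agent.TH561.FP

open Pool.Agent.H891R2.Jones Pool.Agent.TH561

section jw

variable {K R : Type*} [Field K] [Ring R] [Algebra K R]

/-- quantum integers -/
def qn (d : K) : ℕ → K
  | 0 => 0
  | 1 => 1
  | (n+2) => d * qn d (n+1) - qn d n

/-- the idempotent on the last `n` of `M` strands -/
noncomputable def jw (M : ℕ) (d : K) (e : ℕ → R) : ℕ → R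
  | 0 => 1
  | (n+1) => jw M d e n + (-(qn d n / qn d (n+1))) • (jw M d e n * e (M-n-1) * jw M d e n)

/-- the subalgebra generated by the generators on the last `n` strands -/
def AR (K : Type*) {R : Type*} [Field K] [Ring R] [Algebra K R] (M : ℕ) (e : ℕ → R) (n : ℕ) :
    Subalgebra K R := Algebra.adjoin K (e '' {i | M - n ≤ i ∧ i + 1 < M})

variable {M : ℕ} {d : K} {e : ℕ → R}

theorem AR_gen {n i : ℕ} (h1 : M - n ≤ i) (h2 : i + 1 < M) : e i ∈ AR K M e n :=
  Algebra.subset_adjoin ⟨i, ⟨h1, h2⟩, rfl⟩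

theorem AR_mono {n n' : ℕ} (h : n ≤ n') : AR K M e n ≤ AR K M e n' := by
  apply Algebra.adjoin_mono
  rintro _ ⟨i, ⟨h1, h2⟩, rfl⟩
  exact ⟨i, ⟨by omega, h2⟩, rfl⟩

theorem AR_comm (h : IsTL M d e) {n i : ℕ} (hi : i + 2 ≤ M - n) {x : R} (hx : x ∈ AR K M e n) :
    Commute (e i) x := by
  have h1 : AR K M e n ≤ Subalgebra.centralizer K {e i} := by
    apply Algebra.adjoin_le
    rintro _ ⟨j, ⟨h1, h2⟩, rfl⟩
    show e j ∈ Subalgebra.centralizer K {e i}
    rw [Subalgebra.mem_centralizer_iff]
    intro g hg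
    rw [Set.mem_singleton_iff] at hg
    rw [hg]
    exact h.far i j h2 (by omega)
  have h2 := h1 hx
  rw [Subalgebra.mem_centralizer_iff] at h2
  exact h2 (e i) rfl

theorem jw_zero : jw M d e 0 = 1 := rfl

theorem jw_succ (n : ℕ) : jw M d e (n+1) =
    jw M d e n + (-(qn d n / qn d (n+1))) • (jw M d e n * e (M-n-1) * jw M d e n) := rfl

theorem jw_one : jw M d e 1 = 1 := by
  rw [jw_succ, jw_zero]
  simp [qn]

theorem jw_mem (n : ℕ) (hn : n ≤ M) : jw M d e n ∈ AR K M e n := by
  induction n with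
  | zero => exact one_mem _
  | succ n ih =>
    rcases Nat.eq_zero_or_pos n with h0 | h0
    · subst h0
      rw [jw_one]
      exact one_mem _
    · have ih' := AR_mono (Nat.le_succ n) (ih (by omega))
      rw [jw_succ]
      exact add_mem ih' (Subalgebra.smul_mem _ (mul_mem (mul_mem ih' (AR_gen (by omega) (by omega)))
        ih') _)

/-- the properties of the idempotents -/
theorem jw_main (h : IsTL M d e) (hq : ∀ n, 1 ≤ n → n ≤ M → qn d n ≠ 0) : ∀ n, n + 1 ≤ M →
    (jw M d e (n+1) * jw M d e (n+1) = jw M d e (n+1)) ∧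
    (jw M d e n * jw M d e (n+1) = jw M d e (n+1) ∧ jw M d e (n+1) * jw M d e n = jw M d e (n+1)) ∧
    (∀ i, M - (n+1) ≤ i → i + 1 < M → e i * jw M d e (n+1) = 0 ∧ jw M d e (n+1) * e i = 0) ∧
    (n + 2 ≤ M → e (M-n-2) * jw M d e (n+1) * e (M-n-2) =
      (qn d (n+2) / qn d (n+1)) • (jw M d e n * e (M-n-2))) := by
  intro n
  induction n with
  | zero =>
    intro hn
    refine ⟨?_, ?_, ?_, ?_⟩
    · rw [jw_one, one_mul]
    · rw [zero_add, jw_one, jw_zero, one_mul]
      exact ⟨rfl, rfl⟩
    · intro i h1 h2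
      omega
    · intro h2
      rw [zero_add, jw_one, jw_zero, mul_one, one_mul, h.sq _ (by omega)]
      simp [qn]
  | succ n ih =>
    intro hn
    obtain ⟨hPP, ⟨hP0P, hPP0⟩, hkill, hcap⟩ := ih (by omega)
    have hcap := hcap (by omega)
    have hmem0 := jw_mem (K := K) (R := R) (M := M) (d := d) (e := e) n (by omega)
    have hmem := jw_mem (K := K) (R := R) (M := M) (d := d) (e := e) (n+1) (by omega)
    have hf : Commute (e (M-n-2)) (jw M d e n) := AR_comm h (by omega) hmem0
    have hq1 := hq (n+1) (by omega) (by omega)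
    have hq2 := hq (n+2) (by omega) (by omega)
    have hjw2 : jw M d e (n+1+1) = jw M d e (n+1) +
        (-(qn d (n+1) / qn d (n+2))) • (jw M d e (n+1) * e (M-n-2) * jw M d e (n+1)) := by
      rw [jw_succ]
      have : M - (n+1) - 1 = M - n - 2 := by omega
      rw [this]
    set P := jw M d e (n+1) with hP
    set P0 := jw M d e n with hP0
    set f := e (M-n-2) with hf'
    set c := -(qn d (n+1) / qn d (n+2)) with hc
    set κ := qn d (n+2) / qn d (n+1) with hκ
    have hcκ : c * κ = -1 := by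
      rw [hc, hκ]
      field_simp
    have hPX : P * (P * f * P) = P * f * P := by
      rw [← mul_assoc, ← mul_assoc, hPP]
    have hXP : (P * f * P) * P = P * f * P := by
      rw [mul_assoc, hPP]
    have hfX : f * (P * f * P) = κ • (f * P) := by
      calc f * (P * f * P) = (f * P * f) * P := by noncomm_ring
        _ = κ • (P0 * f * P) := by rw [hcap, smul_mul_assoc]
        _ = κ • (f * (P0 * P)) := by rw [← hf.eq, mul_assoc]
        _ = _ := by rw [hP0P]
    have hXf : (P * f * P) * f = κ • (P * f) := by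
      calc (P * f * P) * f = P * (f * P * f) := by noncomm_ring
        _ = κ • (P * P0 * f) := by rw [hcap, mul_smul_comm, mul_assoc]
        _ = _ := by rw [hPP0]
    have hXX : (P * f * P) * (P * f * P) = κ • (P * f * P) := by
      calc (P * f * P) * (P * f * P) = P * f * (P * P) * f * P := by noncomm_ring
        _ = P * (f * (P * f * P)) := by rw [hPP]; noncomm_ring
        _ = κ • (P * f * P) := by rw [hfX, mul_smul_comm, mul_assoc]
    refine ⟨?_, ?_, ?_, ?_⟩
    · rw [hjw2, add_mul, mul_add, mul_add, smul_mul_assoc, smul_mul_assoc, mul_smul_comm,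
        mul_smul_comm, hPP, hPX, hXP, hXX]
      have : (c • (P * f * P) + c • c • κ • (P * f * P) : R) = 0 := by
        rw [smul_smul c κ, hcκ, neg_one_smul, smul_neg, add_neg_cancel]
      rw [this, add_zero]
    · constructor
      · rw [hjw2, mul_add, mul_smul_comm, hPP, hPX]
      · rw [hjw2, add_mul, smul_mul_assoc, hPP, hXP]
    · intro i h1 h2
      have hi : i = M - n - 2 ∨ M - (n+1) ≤ i := by omega
      rcases hi with rfl | hi
      · constructor
        · rw [hjw2, mul_add, mul_smul_comm, ← hf', hfX, smul_smul, hcκ, neg_one_smul, add_neg_cancel]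
        · rw [hjw2, add_mul, smul_mul_assoc, ← hf', hXf, smul_smul, hcκ, neg_one_smul,
            add_neg_cancel]
      · obtain ⟨h3, h4⟩ := hkill i hi h2
        constructor
        · rw [hjw2, mul_add, mul_smul_comm, ← mul_assoc, ← mul_assoc, h3, zero_mul, zero_mul,
            smul_zero, add_zero]
        · rw [hjw2, add_mul, smul_mul_assoc, mul_assoc, h4, mul_zero, smul_zero, add_zero]
    · intro hn3
      have hg : Commute (e (M-n-3)) P := AR_comm h (by omega) hmem
      have e1 : M - (n+1) - 2 = M - n - 3 := by omega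
      rw [e1, hjw2]
      set g := e (M-n-3) with hg'
      have hgfg : g * f * g = g := by
        have := h.up (M-n-3) (by omega)
        have e2 : M - n - 3 + 1 = M - n - 2 := by omega
        rw [e2] at this
        exact this
      have hgg : g * g = d • g := h.sq _ (by omega)
      have h1 : g * P * g = d • (P * g) := by
        rw [hg.eq, mul_assoc, hgg, mul_smul_comm]
      have h2 : g * (P * f * P) * g = P * g := by
        calc g * (P * f * P) * g = (g * P) * f * (P * g) := by noncomm_ring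
          _ = (P * g) * f * (g * P) := by rw [hg.eq]
          _ = P * (g * f * g) * P := by noncomm_ring
          _ = P * (g * P) := by rw [hgfg, mul_assoc]
          _ = P * P * g := by rw [hg.eq, mul_assoc]
          _ = P * g := by rw [hPP]
      rw [mul_add, add_mul, mul_smul_comm, smul_mul_assoc, h1, h2, ← add_smul]
      congr 1
      have e3 : qn d (n+1+2) = d * qn d (n+2) - qn d (n+1) := rfl
      rw [e3, hc]
      field_simp
      ring

/-- the quantum integers are positive if the loop value is at least two -/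
theorem qn_pos (N : ℕ) (hN : 2 ≤ N) : ∀ n : ℕ, (n : ℝ) ≤ qn (N : ℝ) n ∧ qn (N : ℝ) n + 1 ≤ qn (N : ℝ) (n+1) := by
  have hN' : (2 : ℝ) ≤ N := by exact_mod_cast hN
  intro n
  induction n with
  | zero => simp [qn]
  | succ n ih =>
    obtain ⟨h1, h2⟩ := ih
    have h0 : (0 : ℝ) ≤ n := Nat.cast_nonneg n
    have e1 : qn (N : ℝ) (n+1+1) = N * qn (N : ℝ) (n+1) - qn (N : ℝ) n := rfl
    refine ⟨by push_cast; linarith, ?_⟩
    rw [e1]
    nlinarith

theorem qn_map (N : ℕ) : ∀ n, ((qn (N : ℝ) n : ℝ) : ℂ) = qn (N : ℂ) n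
  | 0 => by simp [qn]
  | 1 => by simp [qn]
  | (n+2) => by
    have e1 : qn (N : ℝ) (n+2) = N * qn (N : ℝ) (n+1) - qn (N : ℝ) n := rfl
    have e2 : qn (N : ℂ) (n+2) = N * qn (N : ℂ) (n+1) - qn (N : ℂ) n := rfl
    rw [e1, e2]
    push_cast
    rw [qn_map N (n+1), qn_map N n]

theorem qn_ne (N : ℕ) (hN : 2 ≤ N) (n : ℕ) (hn : 1 ≤ n) : qn (N : ℂ) n ≠ 0 := by
  rw [← qn_map]
  have h1 := (qn_pos N hN n).1
  have h2 : (1 : ℝ) ≤ n := by exact_mod_cast hn
  intro h
  rw [Complex.ofReal_eq_zero] at h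
  linarith

/-- the idempotent and the full twist -/
theorem jw_FF (h : IsTL M d e) (hq : ∀ n, 1 ≤ n → n ≤ M → qn d n ≠ 0) (A : K) (n : ℕ) (hn : n ≤ M) :
    jw M d e n * FF (sg A e) n (M-n) = A ^ (n * (n-1)) • jw M d e n := by
  apply mul_FF_of
  intro i h1 h2
  unfold sg
  rw [mul_add, mul_smul_comm, mul_smul_comm, mul_one]
  obtain ⟨n', rfl⟩ : ∃ n', n = n' + 1 := ⟨n - 1, by omega⟩
  rw [((jw_main h hq n' hn).2.2.1 i (by omega) (by omega)).2, smul_zero, add_zero]

theorem jw_FF_pow (h : IsTL M d e) (hq : ∀ n, 1 ≤ n → n ≤ M → qn d n ≠ 0) (A : K) (n : ℕ)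
    (hn : n ≤ M) (a : ℕ) :
    jw M d e n * (FF (sg A e) n (M-n)) ^ a = A ^ (a * (n * (n-1))) • jw M d e n := by
  induction a with
  | zero => simp
  | succ a ih =>
    rw [pow_succ, ← mul_assoc, ih, smul_mul_assoc, jw_FF h hq A n hn, smul_smul, ← pow_add]
    congr 2
    ring

end jw

end Pool.Agent.TH561.FP
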