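import Pool.Agent.TH561.FP.Defs

/-!
# Orientations of freely periodic knots
-/

set_option autoImplicit false

namespace Pool.Agent.TH561.FP

open Pool.Agent.H891R2.Jones Pool.Agent.TH561 Pool.Agent.TH561.PK Finset

section gen

variable {M : ℕ}

/-- the twisted trace of a word, if all its orientations come from a knot -/
theorem twisted_sum_gen {l L : ℕ} (hl : 0 < l) (hM : 0 < M) (v : Fin l → Elem M) (w : Fin L → Elem M)
    (em : Fin l → Fin L) (dir : Fin L × Fin M → Bool) (ho : Oriented w dir)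
    (hK : IsKnot (PK.annular w dir))
    (hext : ∀ d : Fin l × Fin M → Bool, Oriented v d →
      ∃ dir' : Fin L × Fin M → Bool, Oriented w dir' ∧ ∀ t j, dir' (em t, j) = d (t, j)) :
    ∃ κ : ℤ, (κ = 0 ∨ κ = 1 ∨ κ = -1) ∧ ∀ u : ℂ, u ≠ 0 → u + u⁻¹ ≠ 0 →
      ∑ i : Sm (toW v), (-2 : ℂ) ^ inn M (gen i) * (u + u⁻¹) ^ esn M (gen i) =
        κ * (u ^ (linking dir (em ⟨0, hl⟩)) + u ^ (-(linking dir (em ⟨0, hl⟩)))) := by
  let fp : Fin l → (Fin M → Fin 2) := fun t => colOf (fun j => dir (em t, j))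
  let fm : Fin l → (Fin M → Fin 2) := fun t => flp (fp t)
  have hmem : ∀ t, (v t).2.val + 1 < M := fun t => by have := (v t).2.2; omega
  choose n hn1 hn2 using fun t => PP_int ((v t).1, ((v t).2 : ℕ)) (hmem t) (fp t) (fp (finRotate l t))
  refine ⟨∏ t, n t, ?_, fun u hu hz => ?_⟩
  · apply Finset.prod_induction n (fun x => x = 0 ∨ x = 1 ∨ x = -1)
    · rintro a b (rfl | rfl | rfl) (rfl | rfl | rfl) <;> simp
    · right; left; rfl
    · intro t _; exact hn1 t
  · -- the sum is a trace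
    have h1 : ∑ i : Sm (toW v), (-2 : ℂ) ^ inn M (gen i) * (u + u⁻¹) ^ esn M (gen i) =
        Matrix.trace (Matrix.diagonal (tw u) * MW 1 (nK M) (toW v)) := by
      rw [MW_sum one_ne_zero, Finset.mul_sum, Matrix.trace_sum]
      refine Finset.sum_congr rfl fun i _ => ?_
      rw [one_zpow, one_smul, WP_nK, mul_smul_comm, Matrix.trace_smul,
        trace_U (gen i) (gen_mem (toW_mem v) i) hu hz, smul_eq_mul]
      have h2 := (esn_inn (gen i) (gen_mem (toW_mem v) i)).2.2.1
      have h3 : (-1 : ℂ) ^ (gen i).length = (-1) ^ inn M (gen i) := by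
        rw [neg_one_pow_eq_pow_mod_two, h2, ← neg_one_pow_eq_pow_mod_two]
      rw [h3]
      have h4 : (-2 : ℂ) = (-1) * 2 := by norm_num
      rw [h4, mul_pow]
      ring
    have h2 : MW 1 (nK M) (toW v) = (List.ofFn (fun t => PK.PP M ((v t).1, ((v t).2 : ℕ)))).prod := by
      unfold MW toW
      rw [List.map_ofFn]
      rfl
    rw [h1, h2, trace_prod l hl]
    -- only two terms
    have hzero : ∀ f : Fin l → (Fin M → Fin 2), f ≠ fp → f ≠ fm →
        tw u (f ⟨0, hl⟩) * ∏ t, PK.PP M ((v t).1, ((v t).2 : ℕ)) (f t) (f (finRotate l t)) = 0 := by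
      intro f hf1 hf2
      by_contra hne
      have h3 := (mul_ne_zero_iff.1 hne).2
      rw [Finset.prod_ne_zero_iff] at h3
      have h4 : Oriented v (fun s => dirOf (f s.1) s.2) :=
        fun t => PP_fits (v t) (f t) (f (finRotate l t)) (h3 t (Finset.mem_univ t))
      obtain ⟨dir', h5, h5'⟩ := hext _ h4
      rcases two_orientations w dir _ ho h5 hK with h6 | h6
      · apply hf1
        funext t
        have h7 : dirOf (f t) = fun j => dir (em t, j) := by
          funext j
          rw [← h6 (em t, j), h5' t j]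
        show f t = colOf (fun j => dir (em t, j))
        rw [← h7, colOf_dirOf]
      · apply hf2
        funext t
        have h7 : dirOf (f t) = fun j => !(dir (em t, j)) := by
          funext j
          rw [← h6 (em t, j), h5' t j]
        show f t = flp (colOf (fun j => dir (em t, j)))
        rw [← colOf_not, ← h7, colOf_dirOf]
    have hpm : fp ≠ fm := by
      intro h3
      have h4 := congrFun (congrFun h3 ⟨0, hl⟩) ⟨0, hM⟩
      have h5 : fp ⟨0, hl⟩ ⟨0, hM⟩ = Equiv.swap 0 1 (fp ⟨0, hl⟩ ⟨0, hM⟩) := h4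
      revert h5
      generalize fp ⟨0, hl⟩ ⟨0, hM⟩ = a
      revert a
      decide
    rw [← Finset.sum_subset (Finset.subset_univ {fp, fm}) (fun f _ hf => by
      simp only [Finset.mem_insert, Finset.mem_singleton, not_or] at hf
      exact hzero f hf.1 hf.2), Finset.sum_pair hpm]
    have h3 : ∏ t, PK.PP M ((v t).1, ((v t).2 : ℕ)) (fp t) (fp (finRotate l t)) = ((∏ t, n t : ℤ) : ℂ) := by
      push_cast
      refine Finset.prod_congr rfl fun t _ => ?_
      exact hn2 t
    have h4 : ∏ t, PK.PP M ((v t).1, ((v t).2 : ℕ)) (fm t) (fm (finRotate l t)) = ((∏ t, n t : ℤ) : ℂ) := by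
      rw [← h3]
      refine Finset.prod_congr rfl fun t _ => ?_
      exact PP_flp _ (hmem t) _ _
    rw [h3, h4]
    have h5 : tw u (fp ⟨0, hl⟩) = u ^ (linking dir (em ⟨0, hl⟩)) := tw_colOf hu _
    have h6 : tw u (fm ⟨0, hl⟩) = u ^ (-(linking dir (em ⟨0, hl⟩))) := by
      show tw u (flp (colOf (fun j => dir (em ⟨0, hl⟩, j)))) = _
      rw [← colOf_not, tw_colOf hu]
      congr 1
      unfold linking
      rw [← Finset.sum_neg_distrib]
      refine Finset.sum_congr rfl fun j _ => ?_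
      cases dir (em ⟨0, hl⟩, j) <;> simp
    rw [h5, h6]
    ring

end gen

section perm

variable {M : ℕ}

/-- the transposition of a crossing -/
def sw (i : Fin (M - 1)) : Equiv.Perm (Fin M) :=
  Equiv.swap ⟨i, by have := i.2; omega⟩ ⟨i + 1, by have := i.2; omega⟩

/-- the place of a strand after the first `s` letters of the word `(σ_0 ⋯ σ_{M-2})^∞` -/
def pm (hM : 0 < M - 1) : ℕ → Equiv.Perm (Fin M)
  | 0 => 1
  | (s+1) => pm hM s * sw ⟨s % (M-1), Nat.mod_lt _ hM⟩

theorem pm_block (hM : 0 < M - 1) (r : ℕ) : ∀ j, j ≤ M - 1 → ∀ x : Fin M,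
    ((x : ℕ) < j → pm hM (r * (M-1) + j) x = pm hM (r * (M-1)) (finRotate M x)) ∧
    ((x : ℕ) = j → pm hM (r * (M-1) + j) x = pm hM (r * (M-1)) ⟨0, by omega⟩) ∧
    (j < (x : ℕ) → pm hM (r * (M-1) + j) x = pm hM (r * (M-1)) x) := by
  intro j
  induction j with
  | zero =>
    intro _ x
    refine ⟨fun h => by omega, fun h => ?_, fun _ => rfl⟩
    have : x = ⟨0, by omega⟩ := Fin.ext h
    rw [this]
    rfl
  | succ j ih =>
    intro hj x
    have ih := ih (by omega)
    have hmod : (r * (M-1) + j) % (M-1) = j := by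
      rw [Nat.add_comm, Nat.add_mul_mod_self_right, Nat.mod_eq_of_lt (by omega)]
    have e1 : pm hM (r * (M-1) + (j+1)) = pm hM (r * (M-1) + j) * sw ⟨j, by omega⟩ := by
      show pm hM (r * (M-1) + j) * sw ⟨(r * (M-1) + j) % (M-1), Nat.mod_lt _ hM⟩ = _
      congr 2
      apply Fin.ext
      exact hmod
    rw [e1, Equiv.Perm.mul_apply]
    unfold sw
    simp only
    refine ⟨fun h => ?_, fun h => ?_, fun h => ?_⟩
    · by_cases hx : (x : ℕ) = j
      · have hx' : x = ⟨j, by omega⟩ := Fin.ext hx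
        rw [hx', Equiv.swap_apply_left, (ih ⟨j+1, by omega⟩).2.2 (by simp)]
        congr 1
        apply Fin.ext
        rw [finRotate_val]
        simp only
        rw [Nat.mod_eq_of_lt (by omega)]
      · rw [Equiv.swap_apply_of_ne_of_ne (by intro h'; apply hx; rw [h'])
          (by intro h'; rw [h'] at h; simp at h)]
        exact (ih x).1 (by omega)
    · have hx' : x = ⟨j+1, by omega⟩ := Fin.ext h
      rw [hx', Equiv.swap_apply_right]
      exact (ih ⟨j, by omega⟩).2.1 rfl
    · rw [Equiv.swap_apply_of_ne_of_ne (by intro h'; rw [h'] at h; simp at h)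
        (by intro h'; rw [h'] at h; simp at h)]
      exact (ih x).2.2 (by omega)

theorem pm_rot (hM : 0 < M - 1) (r : ℕ) : pm hM ((r+1) * (M-1)) = pm hM (r * (M-1)) * finRotate M := by
  ext x
  rw [Equiv.Perm.mul_apply]
  have e1 : (r+1) * (M-1) = r * (M-1) + (M-1) := by ring
  rw [e1]
  rcases Nat.lt_or_eq_of_le (show (x : ℕ) ≤ M - 1 by have := x.2; omega) with h | h
  · rw [(pm_block hM r (M-1) le_rfl x).1 h]
  · rw [(pm_block hM r (M-1) le_rfl x).2.1 h]
    congr 2
    apply Fin.ext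
    rw [finRotate_val, h]
    have : M - 1 + 1 = M := by omega
    rw [this, Nat.mod_self]

theorem pm_pow (hM : 0 < M - 1) : ∀ r, pm hM (r * (M-1)) = (finRotate M) ^ r
  | 0 => by simp [pm]
  | (r+1) => by rw [pm_rot, pm_pow hM r, pow_succ]

theorem pm_full (hM : 0 < M - 1) (a : ℕ) : pm hM (a * (M * (M-1))) = 1 := by
  have : a * (M * (M-1)) = (M * a) * (M-1) := by ring
  rw [this, pm_pow, pow_mul]
  obtain ⟨n, rfl⟩ : ∃ n, M = n + 1 := ⟨M - 1, by omega⟩
  rw [finRotate_pow, one_pow]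

end perm

section ext

variable {M l : ℕ}

/-- the directions at all levels -/
def gdir (hl : 0 < l) (hM : 0 < M - 1) (n : ℕ) (d : Fin l × Fin M → Bool) (s : ℕ) (j : Fin M) : Bool :=
  if s ≤ n * l then d (⟨s % l, Nat.mod_lt _ hl⟩, j) else d (⟨0, hl⟩, pm hM (s - n * l) j)

theorem gdir_ge (hl : 0 < l) (hM : 0 < M - 1) (n : ℕ) (d : Fin l × Fin M → Bool) (s : ℕ) (j : Fin M)
    (hs : n * l ≤ s) : gdir hl hM n d s j = d (⟨0, hl⟩, pm hM (s - n * l) j) := by
  unfold gdir
  split_ifs with h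
  · have h1 : s = n * l := by omega
    subst h1
    have h2 : (⟨n * l % l, Nat.mod_lt _ hl⟩ : Fin l) = ⟨0, hl⟩ := Fin.ext (Nat.mul_mod_left n l)
    rw [h2, Nat.sub_self]
    rfl
  · rfl

theorem free_fits (hl : 0 < l) (hM : 0 < M - 1) (n : ℕ) (v : Fin l → Elem M) (a : ℤ)
    (d : Fin l × Fin M → Bool) (ho : Oriented v d) (s : Fin (n * l + a.natAbs * (M * (M - 1)))) :
    Fits (freeWord n v a s) (gdir hl hM n d s) (gdir hl hM n d (s + 1)) := by
  by_cases hs : (s : ℕ) < n * l
  · have h1 : freeWord n v a s = v ⟨(s : ℕ) % l, Nat.mod_lt _ hl⟩ := by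
      have h2 : s = Fin.castAdd _ (⟨s, hs⟩ : Fin (n * l)) := Fin.ext rfl
      conv_lhs => rw [h2]
      unfold freeWord
      rw [Fin.append_left]
      rfl
    have h3 := ho ⟨(s : ℕ) % l, Nat.mod_lt _ hl⟩
    rw [h1]
    have h4 : gdir hl hM n d s = fun j => d (⟨(s : ℕ) % l, Nat.mod_lt _ hl⟩, j) := by
      funext j
      unfold gdir
      rw [if_pos hs.le]
    have h5 : gdir hl hM n d (s + 1) = fun j => d (finRotate l ⟨(s : ℕ) % l, Nat.mod_lt _ hl⟩, j) := by
      funext j
      unfold gdir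
      rw [if_pos (by omega)]
      congr 2
      apply Fin.ext
      rw [finRotate_val]
      simp
    rw [h4, h5]
    exact h3
  · have hs' : n * l ≤ (s : ℕ) := not_lt.1 hs
    have hlt : (s : ℕ) - n * l < a.natAbs * (M * (M - 1)) := by
      have := s.2
      omega
    have hmod : ((s : ℕ) - n * l) % (M * (M-1)) % (M-1) = ((s : ℕ) - n * l) % (M-1) :=
      Nat.mod_mod_of_dvd _ (Dvd.intro_left M rfl)
    have h1 : freeWord n v a s = (some (decide (0 ≤ a)), ⟨((s : ℕ) - n * l) % (M-1), Nat.mod_lt _ hM⟩) := by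
      have h2 : s = Fin.natAdd (n * l) (⟨(s : ℕ) - n * l, hlt⟩ : Fin (a.natAbs * (M * (M - 1)))) := by
        apply Fin.ext
        simp only [Fin.val_natAdd]
        omega
      conv_lhs => rw [h2]
      unfold freeWord
      rw [Fin.append_right]
      unfold pw
      congr 1
      apply Fin.ext
      simp only [Fin.modNat]
      exact hmod
    have h3 : gdir hl hM n d s = fun j => d (⟨0, hl⟩, pm hM ((s : ℕ) - n * l) j) := by
      funext j
      exact gdir_ge hl hM n d s j hs'
    have h4 : gdir hl hM n d (s + 1) = fun j => d (⟨0, hl⟩, pm hM ((s : ℕ) - n * l)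
        (sw ⟨((s : ℕ) - n * l) % (M-1), Nat.mod_lt _ hM⟩ j)) := by
      funext j
      rw [gdir_ge hl hM n d (s+1) j (by omega)]
      have h5 : (s : ℕ) + 1 - n * l = (s - n * l) + 1 := by omega
      rw [h5]
      rfl
    rw [h1, h3, h4]
    set i : Fin (M-1) := ⟨((s : ℕ) - n * l) % (M-1), Nat.mod_lt _ hM⟩ with hi
    have hlf : (Elem.lf ((some (decide (0 ≤ a)), i) : Elem M)) = ⟨i, by have := i.2; omega⟩ := rfl
    have hrg : (Elem.rg ((some (decide (0 ≤ a)), i) : Elem M)) = ⟨i + 1, by have := i.2; omega⟩ := rfl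
    refine ⟨fun j h6 h7 => ?_, ?_, ?_⟩
    · rw [hlf] at h6
      rw [hrg] at h7
      simp only
      unfold sw
      rw [Equiv.swap_apply_of_ne_of_ne h6 h7]
    · rw [hlf, hrg]
      unfold sw
      simp only
      rw [Equiv.swap_apply_right]
    · rw [hlf, hrg]
      unfold sw
      simp only
      rw [Equiv.swap_apply_left]

/-- an orientation of the closure of `v` extends to the closure of `freeWord n v a` -/
theorem free_ext (hl : 0 < l) (hM : 0 < M) (n : ℕ) (hn : 0 < n) (v : Fin l → Elem M) (a : ℤ)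
    (d : Fin l × Fin M → Bool) (ho : Oriented v d) :
    ∃ dir' : Fin (n * l + a.natAbs * (M * (M - 1))) × Fin M → Bool, Oriented (freeWord n v a) dir' ∧
      ∀ (s : Fin (n * l + a.natAbs * (M * (M - 1)))) (t : Fin l) (j : Fin M), (s : ℕ) = t →
        dir' (s, j) = d (t, j) := by
  have hM1 : 0 < M - 1 := lt_of_le_of_lt (Nat.zero_le _) (v ⟨0, hl⟩).2.2
  have hnl : 0 < n * l := Nat.mul_pos hn hl
  refine ⟨fun x => gdir hl hM1 n d x.1 x.2, fun s => ?_, fun s t j hst => ?_⟩
  · have h1 := free_fits hl hM1 n v a d ho s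
    have h2 : (fun j => gdir hl hM1 n d ((finRotate _ s : Fin _) : ℕ) j) = gdir hl hM1 n d (s + 1) := by
      funext j
      rw [finRotate_val]
      rcases Nat.lt_or_eq_of_le (Nat.succ_le_of_lt s.2) with h3 | h3
      · rw [Nat.mod_eq_of_lt h3]
      · have h4 : (s : ℕ) + 1 = n * l + a.natAbs * (M * (M - 1)) := h3
        rw [h4, Nat.mod_self, gdir_ge hl hM1 n d (n * l + a.natAbs * (M * (M-1))) j (by omega)]
        have h5 : n * l + a.natAbs * (M * (M-1)) - n * l = a.natAbs * (M * (M-1)) := by omega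
        rw [h5, pm_full]
        unfold gdir
        rw [if_pos (Nat.zero_le _)]
        congr 2
    show Fits (freeWord n v a s) (gdir hl hM1 n d s)
      (fun j => gdir hl hM1 n d ((finRotate _ s : Fin _) : ℕ) j)
    rw [h2]
    exact h1
  · show gdir hl hM1 n d s j = d (t, j)
    have h1 : (s : ℕ) ≤ n * l := by
      rw [hst]
      calc (t : ℕ) ≤ l := t.2.le
        _ ≤ n * l := Nat.le_mul_of_pos_left l hn
    unfold gdir
    rw [if_pos h1]
    congr 2
    apply Fin.ext
    simp only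
    rw [hst, Nat.mod_eq_of_lt t.2]

end ext

end Pool.Agent.TH561.FP
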