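import Pool.Agent.TH561.FP.Al
import Pool.Agent.TH561.FP.Ko

/-!
# Freely periodic knots whose Jones polynomial is a unit modulo `p`
-/

set_option autoImplicit false

namespace Pool.Agent.TH561.FP

open Pool.Agent.H891R2.Jones Pool.Agent.TH561 Pool.Agent.TH561.PK Finset LaurentPolynomial

section main

variable {M l : ℕ}

/-- the arithmetic at the end -/
theorem arith (p k : ℕ) (hp : p.Prime) (hq : 4 ≤ p ^ k) (a l : ℤ)
    (h : ((4 * p ^ k : ℤ) ∣ 4 * l + 4 ∨ (4 * p ^ k : ℤ) ∣ 4 * a * l + 4 ∨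
        (4 * p ^ k : ℤ) ∣ -4 * a * l + 4 ∨ (4 * p ^ k : ℤ) ∣ -4 * l + 4) ∨
      ((4 * p ^ k : ℤ) ∣ 4 * a * l + 4 * l ∧ (4 * p ^ k : ℤ) ∣ 4 * a * l - 4 * l ∧
        ((4 * p ^ k : ℤ) ∣ 4 * l + 4 + 8 ∨ (4 * p ^ k : ℤ) ∣ 4 * l + 4 - 8)) ∨
      ((4 * p ^ k : ℤ) ∣ 4 * a * l - 4 * l ∧
        ((4 * p ^ k : ℤ) ∣ 4 * a * l + 4 * l + 8 ∨ (4 * p ^ k : ℤ) ∣ 4 * a * l + 4 * l - 8)) ∨
      ((4 * p ^ k : ℤ) ∣ 4 * a * l + 4 * l ∧
        ((4 * p ^ k : ℤ) ∣ 4 * a * l - 4 * l + 8 ∨ (4 * p ^ k : ℤ) ∣ 4 * a * l - 4 * l - 8))) :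
    (p ^ k : ℤ) ∣ 2 * (l - 1) ∨ (p ^ k : ℤ) ∣ 2 * (l + 1) ∨ (p ^ k : ℤ) ∣ a * l - 1 ∨
      (p ^ k : ℤ) ∣ a * l + 1 := by
  have hdiv : ∀ x : ℤ, (4 * p ^ k : ℤ) ∣ 4 * x → (p ^ k : ℤ) ∣ x := fun x hx =>
    (mul_dvd_mul_iff_left (by norm_num : (4 : ℤ) ≠ 0)).1 hx
  have hdiv' : ∀ x y : ℤ, y = 4 * x → (4 * p ^ k : ℤ) ∣ y → (p ^ k : ℤ) ∣ x := fun x y hxy hy =>
    hdiv x (by rw [← hxy]; exact hy)
  rcases h with (h | h | h | h) | ⟨h1, h2, h3⟩ | ⟨h1, h2⟩ | ⟨h1, h2⟩
  · have h' := hdiv' (l + 1) _ (by ring) h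
    right; left
    exact h'.mul_left 2
  · have h' := hdiv' (a * l + 1) _ (by ring) h
    right; right; right
    exact h'
  · have h' := hdiv' (-(a * l - 1)) _ (by ring) h
    right; right; left
    exact (dvd_neg.1 h')
  · have h' := hdiv' (-(l - 1)) _ (by ring) h
    left
    exact (dvd_neg.1 h').mul_left 2
  · -- impossible
    exfalso
    have g1 := hdiv' (a * l + l) _ (by ring) h1
    have g2 := hdiv' (a * l - l) _ (by ring) h2
    have g3 : (p ^ k : ℤ) ∣ 2 * l := by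
      have := dvd_sub g1 g2
      have e : a * l + l - (a * l - l) = 2 * l := by ring
      rwa [e] at this
    have g4 : (p ^ k : ℤ) ∣ 6 ∨ (p ^ k : ℤ) ∣ 2 := by
      rcases h3 with h3 | h3
      · have g5 := (hdiv' (l + 3) _ (by ring) h3).mul_left 2
        left
        have := dvd_sub g5 g3
        have e : 2 * (l + 3) - 2 * l = 6 := by ring
        rwa [e] at this
      · have g5 := (hdiv' (l - 1) _ (by ring) h3).mul_left 2
        right
        have := dvd_sub g3 g5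
        have e : 2 * l - 2 * (l - 1) = 2 := by ring
        rwa [e] at this
    have g6 : p ^ k ∣ 6 := by
      rcases g4 with g4 | g4
      · exact_mod_cast g4
      · have : p ^ k ∣ 2 := by exact_mod_cast g4
        exact this.trans (by norm_num)
    have g7 : p ^ k ≤ 6 := Nat.le_of_dvd (by norm_num) g6
    have g8 : p ^ k = 6 := by
      interval_cases (p ^ k) <;> omega
    have g9 : 2 ∣ p := by
      apply Nat.prime_two.dvd_of_dvd_pow (n := k)
      rw [g8]; norm_num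
    have g10 : 3 ∣ p := by
      apply Nat.prime_three.dvd_of_dvd_pow (n := k)
      rw [g8]; norm_num
    have g11 : p = 2 := ((Nat.prime_dvd_prime_iff_eq Nat.prime_two hp).1 g9).symm
    have g12 : p = 3 := ((Nat.prime_dvd_prime_iff_eq Nat.prime_three hp).1 g10).symm
    omega
  · have g1 := hdiv' (a * l - l) _ (by ring) h1
    rcases h2 with h2 | h2
    · have g2 := hdiv' (a * l + l + 2) _ (by ring) h2
      right; left
      have := dvd_sub g2 g1
      have e : a * l + l + 2 - (a * l - l) = 2 * (l + 1) := by ring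
      rwa [e] at this
    · have g2 := hdiv' (a * l + l - 2) _ (by ring) h2
      left
      have := dvd_sub g2 g1
      have e : a * l + l - 2 - (a * l - l) = 2 * (l - 1) := by ring
      rwa [e] at this
  · have g1 := hdiv' (a * l + l) _ (by ring) h1
    rcases h2 with h2 | h2
    · have g2 := hdiv' (a * l - l + 2) _ (by ring) h2
      left
      have := dvd_sub g1 g2
      have e : a * l + l - (a * l - l + 2) = 2 * (l - 1) := by ring
      rwa [e] at this
    · have g2 := hdiv' (a * l - l - 2) _ (by ring) h2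
      right; left
      have := dvd_sub g1 g2
      have e : a * l + l - (a * l - l - 2) = 2 * (l + 1) := by ring
      rwa [e] at this

theorem zcast_eq (r : ℕ) (x y : ℤ) : ((x : ZMod r) = (y : ZMod r)) ↔ (r : ℤ) ∣ x - y := by
  rw [← sub_eq_zero, ← Int.cast_sub, ZMod.intCast_zmod_eq_zero_iff_dvd]

/-- the congruence from the identity in the group ring -/
theorem final (p k : ℕ) [hp : Fact p.Prime] (hq : 4 ≤ p ^ k) (a l e : ℤ) (c κ : ZMod p) (hc : c ≠ 0)
    (h : toG p (4 * p ^ k) (C c * T (e - 4) - C c * T (e + 4)) =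
      toG p (4 * p ^ k) (C κ * (T (a * (l * (l + 2))) * (T (2 * l + 2) - T (-2 * l - 2)) -
        T (a * ((l - 2) * (l - 2 + 2))) * (T (2 * (l - 2) + 2) - T (-2 * (l - 2) - 2))))) :
    (p ^ k : ℤ) ∣ 2 * (l - 1) ∨ (p ^ k : ℤ) ∣ 2 * (l + 1) ∨ (p ^ k : ℤ) ∣ a * l - 1 ∨
      (p ^ k : ℤ) ∣ a * l + 1 := by
  set P1 : ℤ := a * (l * (l + 2)) + (2 * l + 2) with hP1
  set N1 : ℤ := a * (l * (l + 2)) + (-2 * l - 2) with hN1
  set N2 : ℤ := a * ((l - 2) * (l - 2 + 2)) + (2 * (l - 2) + 2) with hN2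
  set P2 : ℤ := a * ((l - 2) * (l - 2 + 2)) + (-2 * (l - 2) - 2) with hP2
  have h1 : (C κ * (T (a * (l * (l + 2))) * (T (2 * l + 2) - T (-2 * l - 2)) -
        T (a * ((l - 2) * (l - 2 + 2))) * (T (2 * (l - 2) + 2) - T (-2 * (l - 2) - 2))) :
        (ZMod p)[T;T⁻¹]) = C κ * T P1 - C κ * T N1 - C κ * T N2 + C κ * T P2 := by
    have f1 : (T P1 : (ZMod p)[T;T⁻¹]) = T (a * (l * (l + 2))) * T (2 * l + 2) := T_add _ _
    have f2 : (T N1 : (ZMod p)[T;T⁻¹]) = T (a * (l * (l + 2))) * T (-2 * l - 2) := T_add _ _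
    have f3 : (T N2 : (ZMod p)[T;T⁻¹]) = T (a * ((l - 2) * (l - 2 + 2))) * T (2 * (l - 2) + 2) :=
      T_add _ _
    have f4 : (T P2 : (ZMod p)[T;T⁻¹]) = T (a * ((l - 2) * (l - 2 + 2))) * T (-2 * (l - 2) - 2) :=
      T_add _ _
    rw [f1, f2, f3, f4]
    ring
  rw [h1, map_sub, map_add, map_sub, map_sub, toG_CT, toG_CT, toG_CT, toG_CT, toG_CT, toG_CT] at h
  classical
  have key := four_terms (((e - 4 : ℤ)) : ZMod (4 * p ^ k)) ((e + 4 : ℤ) : ZMod (4 * p ^ k))
    (P1 : ZMod (4 * p ^ k)) P2 N1 N2 c κ hc (by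
      intro h2
      rw [zcast_eq] at h2
      have h3 : ((4 * p ^ k : ℕ) : ℤ) ∣ 8 := by
        have e1 : e - 4 - (e + 4) = -8 := by ring
        rw [e1, dvd_neg] at h2
        exact h2
      have h4 : 4 * p ^ k ∣ 8 := by exact_mod_cast h3
      have := Nat.le_of_dvd (by norm_num) h4
      omega) (by
      intro g
      have h2 := congrArg (fun f : AddMonoidAlgebra (ZMod p) (ZMod (4 * p ^ k)) => f.coeff g) h
      have h3 : ∀ (x : ZMod (4 * p ^ k)) (c : ZMod p),
          (AddMonoidAlgebra.single x c : AddMonoidAlgebra (ZMod p) (ZMod (4 * p ^ k))).coeff g =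
            if x = g then c else 0 := by
        intro x c
        show (Finsupp.single x c) g = _
        rw [Finsupp.single_apply]
      simp only [AddMonoidAlgebra.coeff_sub, AddMonoidAlgebra.coeff_add, Finsupp.sub_apply,
        Finsupp.add_apply, h3] at h2
      have h4 : ∀ (x : ZMod (4 * p ^ k)) (c : ZMod p), (if x = g then c else 0) =
          c * (if x = g then 1 else 0) := by
        intro x c
        split_ifs <;> ring
      rw [h4 _ c, h4 _ c, h4 _ κ, h4 _ κ, h4 _ κ, h4 _ κ] at h2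
      linear_combination h2)
  simp only [zcast_eq] at key
  have hcast : ((4 * p ^ k : ℕ) : ℤ) = 4 * (p : ℤ) ^ k := by push_cast; ring
  rw [hcast] at key
  have e11 : P1 - N1 = 4 * l + 4 := by rw [hP1, hN1]; ring
  have e12 : P1 - N2 = 4 * a * l + 4 := by rw [hP1, hN2]; ring
  have e21 : P2 - N1 = -4 * a * l + 4 := by rw [hP2, hN1]; ring
  have e22 : P2 - N2 = -4 * l + 4 := by rw [hP2, hN2]; ring
  have ePP : P1 - P2 = 4 * a * l + 4 * l := by rw [hP1, hP2]; ring
  have eNN : N1 - N2 = 4 * a * l - 4 * l := by rw [hN1, hN2]; ring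
  apply arith p k hp.out hq a l
  have hsub : ∀ {x y z w : ℤ}, (4 * (p : ℤ) ^ k ∣ x - z) → (4 * (p : ℤ) ^ k ∣ y - w) →
      4 * (p : ℤ) ^ k ∣ (x - y) - (z - w) := by
    intro x y z w h5 h6
    have := dvd_sub h5 h6
    have e5 : x - z - (y - w) = (x - y) - (z - w) := by ring
    rwa [e5] at this
  rcases key with (h2 | h2 | h2 | h2) | ⟨h2, h3, h4⟩ | ⟨h2, h3⟩ | ⟨h2, h3⟩
  · left; left; rwa [e11] at h2
  · left; right; left; rwa [e12] at h2
  · left; right; right; left; rwa [e21] at h2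
  · left; right; right; right; rwa [e22] at h2
  · right; left
    refine ⟨by rwa [ePP] at h2, by rwa [eNN] at h3, ?_⟩
    rcases h4 with ⟨h5, h6⟩ | ⟨h5, h6⟩
    · left
      have := hsub h5 h6
      rw [e11] at this
      have e5 : 4 * l + 4 - (e - 4 - (e + 4)) = 4 * l + 4 + 8 := by ring
      rwa [e5] at this
    · right
      have := hsub h5 h6
      rw [e11] at this
      have e5 : 4 * l + 4 - (e + 4 - (e - 4)) = 4 * l + 4 - 8 := by ring
      rwa [e5] at this
  · right; right; left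
    refine ⟨by rwa [eNN] at h2, ?_⟩
    rcases h3 with ⟨h5, h6⟩ | ⟨h5, h6⟩
    · left
      have := hsub h5 h6
      rw [ePP] at this
      have e5 : 4 * a * l + 4 * l - (e - 4 - (e + 4)) = 4 * a * l + 4 * l + 8 := by ring
      rwa [e5] at this
    · right
      have := hsub h5 h6
      rw [ePP] at this
      have e5 : 4 * a * l + 4 * l - (e + 4 - (e - 4)) = 4 * a * l + 4 * l - 8 := by ring
      rwa [e5] at this
  · right; right; right
    refine ⟨by rwa [ePP] at h2, ?_⟩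
    rcases h3 with ⟨h5, h6⟩ | ⟨h5, h6⟩
    · left
      have := hsub h5 h6
      rw [eNN] at this
      have e5 : 4 * a * l - 4 * l - (e - 4 - (e + 4)) = 4 * a * l - 4 * l + 8 := by ring
      rwa [e5] at this
    · right
      have := hsub h5 h6
      rw [eNN] at this
      have e5 : 4 * a * l - 4 * l - (e + 4 - (e - 4)) = 4 * a * l - 4 * l - 8 := by ring
      rwa [e5] at this

theorem sgn'_eq (p : ℕ) (n : ℤ) : sgn' p n = 1 ∨ sgn' p n = -1 := by
  unfold sgn'
  rcases Int.even_or_odd' n with ⟨k, rfl | rfl⟩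
  · left
    rw [zpow_mul]
    simp
  · right
    rw [zpow_add, zpow_mul]
    simp

theorem linking_bound {L : ℕ} (dir : Fin L × Fin M → Bool) (t : Fin L) :
    -(M : ℤ) ≤ linking dir t ∧ linking dir t ≤ M := by
  have h1 : ∀ j : Fin M, -1 ≤ (if dir (t, j) then (1 : ℤ) else -1) ∧
      (if dir (t, j) then (1 : ℤ) else -1) ≤ 1 := by
    intro j
    cases dir (t, j) <;> simp
  unfold linking
  constructor
  · have := Finset.sum_le_sum (fun (j : Fin M) (_ : j ∈ univ) => (h1 j).1)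
    simpa using this
  · have := Finset.sum_le_sum (fun (j : Fin M) (_ : j ∈ univ) => (h1 j).2)
    simpa using this

/-- the main argument -/
theorem free_core (p k : ℕ) [hp : Fact p.Prime] (hq : 4 ≤ p ^ k) {L : ℕ} (hL : 0 < L) (hl : 0 < l)
    (hM : 0 < M) (v : Fin l → Elem M) (w : Fin L → Elem M) (a : ℤ)
    (hW : toW w = (List.replicate (p ^ k) (toW v)).flatten ++
      toW (pw a.natAbs (pw M (fun i : Fin (M - 1) => (some (decide (0 ≤ a)), i)))))
    (em : Fin l → Fin L) (dir : Fin L × Fin M → Bool) (ho : Oriented w dir)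
    (hK : IsKnot (PK.annular w dir))
    (hext : ∀ d : Fin l × Fin M → Bool, Oriented v d →
      ∃ dir' : Fin L × Fin M → Bool, Oriented w dir' ∧ ∀ t j, dir' (em t, j) = d (t, j))
    (c : ZMod p) (hc : c ≠ 0) (e : ℤ) (hbr : red p (PK.annular w dir).bracket = C c * T e) :
    (p ^ k : ℤ) ∣ 2 * (linking dir (em ⟨0, hl⟩) - 1) ∨ (p ^ k : ℤ) ∣ 2 * (linking dir (em ⟨0, hl⟩) + 1) ∨
      (p ^ k : ℤ) ∣ a * linking dir (em ⟨0, hl⟩) - 1 ∨
      (p ^ k : ℤ) ∣ a * linking dir (em ⟨0, hl⟩) + 1 := by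
  obtain ⟨κ, -, hu⟩ := twisted_sum_gen hl hM v w em dir ho hK hext
  obtain ⟨hlb, hub⟩ := linking_bound dir (em ⟨0, hl⟩)
  set lk := linking dir (em ⟨0, hl⟩) with hlk
  have hR := Rz_eq (m := M) (toW v) lk κ hu
  set b := decide (0 ≤ a) with hb
  obtain ⟨H, hH1, hH2⟩ := exists_H p M b a.natAbs
  have hB := toW_mem v
  have hF := free_modp hL hM w dir p k (toW v) hB b a.natAbs hW H hH1
  set B := toW v with hBdef
  have hα : sgb b * (a.natAbs : ℤ) = a := by
    rw [hb]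
    unfold sgb
    by_cases h0 : 0 ≤ a
    · rw [decide_eq_true h0, if_pos rfl]
      omega
    · rw [decide_eq_false h0, if_neg (by simp)]
      omega
  -- the sum in the group ring
  have hsum : toG p (4 * p ^ k) (∑ i : Sm B, (T (wgt i) * dF (ZMod p) ^ inn M (gen i)) ^ (p ^ k) *
      H (esn M (gen i))) = toG p (4 * p ^ k) (T ((p ^ k : ℕ) * clw B) * HF H (Rz M B)) := by
    have h1 : HF H (Rz M B) = ∑ i : Sm B, C ((-2 : ZMod p) ^ inn M (gen i)) * H (esn M (gen i)) := by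
      unfold Rz
      rw [map_sum]
      refine Finset.sum_congr rfl fun i _ => ?_
      rw [HF_monomial, zsmul_eq_mul]
      congr 1
      rw [map_pow, map_neg, map_ofNat]
      push_cast
      rfl
    rw [h1, Finset.mul_sum, map_sum, map_sum]
    refine Finset.sum_congr rfl fun i _ => ?_
    rw [← sub4_gq p hB i, mul_pow, T_pow, ← psi_apply, map_mul, map_mul, toG_psi, map_mul, map_mul,
      mul_assoc]
    congr 3
    congr 1
    unfold gq
    rw [map_mul, map_mul, map_pow, map_pow, map_neg, map_one, map_add, map_one, eps_T, eps_T, mul_one,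
      ← mul_pow]
    norm_num
  -- the value of `HF`
  have hHF : (T 2 - T (-2)) * HF H (Rz M B) = C (κ : ZMod p) * sgn' p lk *
      (T (a * (lk * (lk + 2))) * (T (2 * lk + 2) - T (-2 * lk - 2)) -
        T (a * ((lk - 2) * (lk - 2 + 2))) * (T (2 * (lk - 2) + 2) - T (-2 * (lk - 2) - 2))) := by
    have h1 : HF H (Rz M B) = C (κ : ZMod p) * (HF H (Polynomial.Chebyshev.S ℤ lk) -
        HF H (Polynomial.Chebyshev.S ℤ (lk - 2))) := by
      rw [hR, ← Polynomial.smul_eq_C_mul, map_smul, map_sub, zsmul_eq_mul]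
      congr 1
    rw [h1, HF_S H hH2 lk (by omega) hub, HF_S H hH2 (lk - 2) (by omega) (by omega), hα]
    have h2 := cheb_dF (p := p) lk
    have h3 := cheb_dF (p := p) (lk - 2)
    rw [sgn'_sub_two] at h3
    calc (T 2 - T (-2)) * (C (κ : ZMod p) * (T (a * (lk * (lk + 2))) *
          Polynomial.aeval (dF (ZMod p)) (Polynomial.Chebyshev.S ℤ lk) -
          T (a * ((lk - 2) * (lk - 2 + 2))) *
            Polynomial.aeval (dF (ZMod p)) (Polynomial.Chebyshev.S ℤ (lk - 2))))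
        = C (κ : ZMod p) * (T (a * (lk * (lk + 2))) * ((T 2 - T (-2)) *
          Polynomial.aeval (dF (ZMod p)) (Polynomial.Chebyshev.S ℤ lk)) -
          T (a * ((lk - 2) * (lk - 2 + 2))) * ((T 2 - T (-2)) *
            Polynomial.aeval (dF (ZMod p)) (Polynomial.Chebyshev.S ℤ (lk - 2)))) := by ring
      _ = _ := by rw [h2, h3]; ring
  -- the left side
  have hleft : (T 2 - T (-2)) * red p (dl * (PK.annular w dir).bracket) =
      C c * T e * (T (-4) - T 4) := by
    rw [map_mul, red_dl, hbr]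
    unfold dF
    have h1 : (T 2 * T 2 : (ZMod p)[T;T⁻¹]) = T 4 := by rw [← T_add]; norm_num
    have h2 : (T (-2) * T (-2) : (ZMod p)[T;T⁻¹]) = T (-4) := by rw [← T_add]; norm_num
    calc (T 2 - T (-2)) * ((-T 2 - T (-2)) * (C c * T e))
        = C c * T e * (T (-2) * T (-2) - T 2 * T 2 : (ZMod p)[T;T⁻¹]) := by ring
      _ = _ := by rw [h1, h2]
  have hsgn : ∃ s : ZMod p, sgn' p lk = C s := by
    rcases sgn'_eq p lk with h | h
    · exact ⟨1, by rw [h, map_one]⟩
    · exact ⟨-1, by rw [h, map_neg, map_one]⟩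
  obtain ⟨s, hs⟩ := hsgn
  set x : ℤ := (-sgb b * (3 * a.natAbs * M : ℕ) : ℤ) with hx
  set y : ℤ := ((p ^ k : ℕ) * clw B : ℤ) with hy
  apply final p k hq a lk (e - x - y) c (κ * s) hc
  have hT1 : (T (-x - y) * (T x * T y) : (ZMod p)[T;T⁻¹]) = 1 := by
    rw [← T_add, ← T_add]
    have : -x - y + (x + y) = 0 := by ring
    rw [this, T_zero]
  have h1 := congrArg (toG p (4 * p ^ k)) hleft
  rw [map_mul, hF, map_mul, hsum] at h1
  have h2 : toG p (4 * p ^ k) (T (-x - y)) * (toG p (4 * p ^ k) (T 2 - T (-2)) *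
      (toG p (4 * p ^ k) (T x) * toG p (4 * p ^ k) (T y * HF H (Rz M B)))) =
      toG p (4 * p ^ k) ((T (-x - y) * (T x * T y)) * ((T 2 - T (-2)) * HF H (Rz M B))) := by
    rw [← map_mul, ← map_mul, ← map_mul]
    congr 1
    ring
  rw [h1, ← map_mul, hT1, one_mul, hHF, hs, ← map_mul] at h2
  rw [← h2]
  congr 1
  have h3 : (T (e - x - y - 4) : (ZMod p)[T;T⁻¹]) = T (-x - y) * T e * T (-4) := by
    rw [← T_add, ← T_add]; congr 1; ring
  have h4 : (T (e - x - y + 4) : (ZMod p)[T;T⁻¹]) = T (-x - y) * T e * T 4 := by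
    rw [← T_add, ← T_add]; congr 1; ring
  rw [h3, h4]
  ring

/-- the bracket of a diagram with exactly one coefficient of `f` prime to `p` -/
theorem unit_bracket (p : ℕ) [Fact p.Prime] {P : Type} (D : Diagram P) (x : ℤ)
    (ha : ¬ (p : ℤ) ∣ D.fPoly.coeff x) (ha' : ∀ y, y ≠ x → (p : ℤ) ∣ D.fPoly.coeff y) :
    ∃ c : ZMod p, c ≠ 0 ∧ red p D.bracket = C c * T (x + 3 * D.writhe) := by
  have h1 := red_mono p D.fPoly x ha'
  have hc : ((D.fPoly.coeff x : ℤ) : ZMod p) ≠ 0 := by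
    intro h
    exact ha ((ZMod.intCast_zmod_eq_zero_iff_dvd _ p).1 h)
  have h2 : D.fPoly = (if Even D.writhe then 1 else -1) * T (-3 * D.writhe) * D.bracket := rfl
  have hT : (T (-3 * D.writhe) * T (3 * D.writhe) : ℤ[T;T⁻¹]) = 1 := by
    rw [← T_add]
    have : -3 * D.writhe + 3 * D.writhe = 0 := by ring
    rw [this, T_zero]
  by_cases hev : Even D.writhe
  · refine ⟨_, hc, ?_⟩
    rw [if_pos hev, one_mul] at h2
    have h3 : D.bracket = D.fPoly * T (3 * D.writhe) := by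
      rw [h2]
      calc D.bracket = (T (-3 * D.writhe) * T (3 * D.writhe)) * D.bracket := by rw [hT, one_mul]
        _ = _ := by ring
    rw [h3, map_mul, h1, red_T, mul_assoc, ← T_add]
  · refine ⟨-((D.fPoly.coeff x : ℤ) : ZMod p), neg_ne_zero.2 hc, ?_⟩
    rw [if_neg hev] at h2
    have h3 : D.bracket = -(D.fPoly * T (3 * D.writhe)) := by
      rw [h2]
      calc D.bracket = (T (-3 * D.writhe) * T (3 * D.writhe)) * D.bracket := by rw [hT, one_mul]
        _ = _ := by ring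
    rw [h3, map_neg, map_mul, h1, red_T, mul_assoc, ← T_add, map_neg, neg_mul]

/-- the theorem for a power of `p` -/
theorem free_main (p k : ℕ) (hp : p.Prime) (hq : 4 ≤ p ^ k) (hM : 0 < M) (v : Fin l → Elem M)
    (hl : 0 < l) (a : ℤ)
    (dir : Fin (p ^ k * l + a.natAbs * (M * (M - 1))) × Fin M → Bool)
    (ho : Oriented (freeWord (p ^ k) v a) dir) (hK : IsKnot (PK.annular (freeWord (p ^ k) v a) dir))
    (x : ℤ) (hx : ¬ (p : ℤ) ∣ (PK.annular (freeWord (p ^ k) v a) dir).fPoly.coeff x)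
    (hx' : ∀ y, y ≠ x → (p : ℤ) ∣ (PK.annular (freeWord (p ^ k) v a) dir).fPoly.coeff y)
    (t : Fin (p ^ k * l + a.natAbs * (M * (M - 1)))) :
    (p ^ k : ℤ) ∣ 2 * (linking dir t - 1) ∨ (p ^ k : ℤ) ∣ 2 * (linking dir t + 1) ∨
      (p ^ k : ℤ) ∣ a * linking dir t - 1 ∨ (p ^ k : ℤ) ∣ a * linking dir t + 1 := by
  have : Fact p.Prime := ⟨hp⟩
  have hq0 : 0 < p ^ k := by omega
  have hql : 0 < p ^ k * l := Nat.mul_pos hq0 hl
  have hL : 0 < p ^ k * l + a.natAbs * (M * (M - 1)) := by omega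
  have hem : ∀ t : Fin l, (t : ℕ) < p ^ k * l + a.natAbs * (M * (M - 1)) := by
    intro t
    have h1 : l ≤ p ^ k * l := Nat.le_mul_of_pos_left l hq0
    have := t.2
    omega
  obtain ⟨c, hc, hbr⟩ := unit_bracket p _ x hx hx'
  rw [linking_const _ dir ho t ⟨0, hL⟩]
  have h1 := free_core p k hq hL hl hM v (freeWord (p ^ k) v a) a (by
    unfold freeWord
    rw [toW_append, toW_pw (p ^ k) v]) (fun t => ⟨t, hem t⟩) dir ho hK (fun d hd => by
    obtain ⟨dir', h2, h3⟩ := free_ext hl hM (p ^ k) hq0 v a d hd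
    exact ⟨dir', h2, fun t j => h3 _ t j rfl⟩) c hc _ hbr
  exact h1

/-- the same with a change of the index -/
theorem free_main' (p k : ℕ) (hp : p.Prime) (hq : 4 ≤ p ^ k) (hM : 0 < M) (v : Fin l → Elem M)
    (hl : 0 < l) (a : ℤ) (L : ℕ) (hL : L = p ^ k * l + a.natAbs * (M * (M - 1)))
    (w : Fin L → Elem M) (hw : ∀ i, w i = freeWord (p ^ k) v a (Fin.cast hL i))
    (dir : Fin L × Fin M → Bool)
    (ho : Oriented w dir) (hK : IsKnot (PK.annular w dir))
    (x : ℤ) (hx : ¬ (p : ℤ) ∣ (PK.annular w dir).fPoly.coeff x)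
    (hx' : ∀ y, y ≠ x → (p : ℤ) ∣ (PK.annular w dir).fPoly.coeff y) (t : Fin L) :
    (p ^ k : ℤ) ∣ 2 * (linking dir t - 1) ∨ (p ^ k : ℤ) ∣ 2 * (linking dir t + 1) ∨
      (p ^ k : ℤ) ∣ a * linking dir t - 1 ∨ (p ^ k : ℤ) ∣ a * linking dir t + 1 := by
  subst hL
  have hw' : w = freeWord (p ^ k) v a := funext hw
  subst hw'
  exact free_main p k hp hq hM v hl a dir ho hK x hx hx' t

/-- the theorem for a multiple of a power of `p` -/
theorem free_main_n (p k n : ℕ) (hp : p.Prime) (hq : 4 ≤ p ^ k) (hn : p ^ k ∣ n) (hn0 : 0 < n)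
    (hM : 0 < M) (v : Fin l → Elem M) (hl : 0 < l) (a : ℤ)
    (dir : Fin (n * l + a.natAbs * (M * (M - 1))) × Fin M → Bool)
    (ho : Oriented (freeWord n v a) dir) (hK : IsKnot (PK.annular (freeWord n v a) dir))
    (x : ℤ) (hx : ¬ (p : ℤ) ∣ (PK.annular (freeWord n v a) dir).fPoly.coeff x)
    (hx' : ∀ y, y ≠ x → (p : ℤ) ∣ (PK.annular (freeWord n v a) dir).fPoly.coeff y)
    (t : Fin (n * l + a.natAbs * (M * (M - 1)))) :
    (p ^ k : ℤ) ∣ 2 * (linking dir t - 1) ∨ (p ^ k : ℤ) ∣ 2 * (linking dir t + 1) ∨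
      (p ^ k : ℤ) ∣ a * linking dir t - 1 ∨ (p ^ k : ℤ) ∣ a * linking dir t + 1 := by
  obtain ⟨n', hn'⟩ := hn
  have hn0' : 0 < n' := by
    rcases Nat.eq_zero_or_pos n' with h | h
    · rw [h, mul_zero] at hn'
      omega
    · exact h
  refine free_main' (l := n' * l) p k hp hq hM (pw n' v) (Nat.mul_pos hn0' hl) a _
    (by rw [hn', mul_assoc]) (freeWord n v a) (fun i => ?_) dir ho hK x hx hx' t
  unfold freeWord
  refine Fin.addCases (fun j => ?_) (fun j => ?_) i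
  · rw [Fin.append_left]
    have h1 : Fin.cast (show n * l + a.natAbs * (M * (M - 1)) = p ^ k * (n' * l) +
        a.natAbs * (M * (M - 1)) by rw [hn', mul_assoc]) (Fin.castAdd (a.natAbs * (M * (M - 1))) j) =
        Fin.castAdd _ (Fin.cast (show n * l = p ^ k * (n' * l) by rw [hn', mul_assoc]) j) :=
      Fin.ext rfl
    rw [h1, Fin.append_left]
    unfold pw
    congr 1
    apply Fin.ext
    simp only [Fin.modNat, Fin.val_cast]
    rw [Nat.mod_mod_of_dvd _ (Dvd.intro_left n' rfl)]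
  · rw [Fin.append_right]
    have h1 : Fin.cast (show n * l + a.natAbs * (M * (M - 1)) = p ^ k * (n' * l) +
        a.natAbs * (M * (M - 1)) by rw [hn', mul_assoc]) (Fin.natAdd (n * l) j) =
        Fin.natAdd _ j := by
      apply Fin.ext
      simp only [Fin.val_cast, Fin.val_natAdd]
      rw [hn', mul_assoc]
    rw [h1, Fin.append_right]

end main

end Pool.Agent.TH561.FP
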