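import Pool.Agent.TH561.FP.Iden
import Pool.Agent.H832R3.VJ.Fin

/-!
# Vassiliev invariants and the bracket in group rings
-/

set_option autoImplicit false

namespace Pool.Agent.TH561.FP

open Pool.Agent.H891R2.Jones Pool.Agent.TH561 Pool.Agent.TH561.PK Finset LaurentPolynomial
open Pool.Agent.H832R3.VJ (Dia Separated moment moment_sub moment_add isVassiliev_moment)
open Pool.Agent.H832R3.VJ.V7 (moment_term moment_T_mul moment_C_mul moment_pow_mul)

section mom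

theorem moment_fact (m : ℕ) (G : ℤ[T;T⁻¹]) :
    moment m ((T 1 - 1 : ℤ[T;T⁻¹]) ^ m * G) = m.factorial * moment 0 G := by
  induction m with
  | zero => simp
  | succ m ih =>
    have h1 : (T 1 - 1 : ℤ[T;T⁻¹]) ^ (m + 1) * G =
        T 1 * ((T 1 - 1 : ℤ[T;T⁻¹]) ^ m * G) - (T 1 - 1 : ℤ[T;T⁻¹]) ^ m * G := by ring
    rw [h1, moment_sub, moment_T_mul, Finset.sum_range_succ, Finset.sum_range_succ,
      Finset.sum_eq_zero, ih]
    · simp only [Nat.choose_self, Nat.choose_succ_self_right, Nat.factorial_succ, one_pow]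
      push_cast
      ring
    · intro i hi
      rw [Finset.mem_range] at hi
      rw [moment_pow_mul m G i hi, mul_zero]

theorem T_sub_one_dvd (n : ℤ) : (T 1 - 1 : ℤ[T;T⁻¹]) ∣ T n - 1 := by
  have h : ∀ n : ℕ, (T 1 - 1 : ℤ[T;T⁻¹]) ∣ T (n : ℤ) - 1 := by
    intro n
    have h1 : (T (n : ℤ) : ℤ[T;T⁻¹]) = T 1 ^ n := by rw [T_pow]; simp
    rw [h1]
    exact sub_one_dvd_pow_sub_one _ n
  rcases le_total 0 n with h0 | h0
  · obtain ⟨m, rfl⟩ := Int.eq_ofNat_of_zero_le h0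
    exact h m
  · obtain ⟨m, hm⟩ := Int.eq_ofNat_of_zero_le (neg_nonneg.2 h0)
    have h1 : (T n - 1 : ℤ[T;T⁻¹]) = -T n * (T (m : ℤ) - 1) := by
      have h2 : (T n * T (m : ℤ) : ℤ[T;T⁻¹]) = 1 := by
        rw [← T_add]
        have : n + (m : ℤ) = 0 := by omega
        rw [this, T_zero]
      linear_combination h2
    rw [h1]
    exact (h m).mul_left _

theorem dvd_sub_moment (g : ℤ[T;T⁻¹]) : (T 1 - 1 : ℤ[T;T⁻¹]) ∣ g - C (moment 0 g) := by
  induction g using LaurentPolynomial.induction_on' with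
  | add f g hf hg =>
    rw [moment_add, map_add]
    have : f + g - (C (moment 0 f) + C (moment 0 g)) = (f - C (moment 0 f)) + (g - C (moment 0 g)) := by ring
    rw [this]
    exact dvd_add hf hg
  | C_mul_T n a =>
    rw [moment_term, pow_zero, mul_one]
    have : C a * T n - C a = C a * (T n - 1 : ℤ[T;T⁻¹]) := by ring
    rw [this]
    exact (T_sub_one_dvd n).mul_left _

theorem dvd_of_moments (d : ℕ) (f : ℤ[T;T⁻¹]) (h : ∀ j < d, moment j f = 0) :
    (T 1 - 1 : ℤ[T;T⁻¹]) ^ d ∣ f := by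
  induction d with
  | zero => simp
  | succ d ih =>
    obtain ⟨g, hg⟩ := ih (fun j hj => h j (by omega))
    have h1 := h d (Nat.lt_succ_self d)
    rw [hg, moment_fact] at h1
    have h2 : moment 0 g = 0 := by
      rcases mul_eq_zero.1 h1 with h3 | h3
      · exact absurd h3 (by exact_mod_cast d.factorial_ne_zero)
      · exact h3
    have h3 := dvd_sub_moment g
    rw [h2, map_zero, sub_zero] at h3
    rw [hg, pow_succ]
    exact mul_dvd_mul_left _ h3

/-- diagrams which are not separated by Vassiliev invariants of order at most `d` -/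
theorem dvd_of_not_separated (d : ℕ) (X Y : Dia) (h : ¬ Separated d X Y) :
    (T 1 - 1 : ℤ[T;T⁻¹]) ^ (d + 1) ∣ X.D.fPoly - Y.D.fPoly := by
  apply dvd_of_moments
  intro j hj
  by_contra hne
  apply h
  refine ⟨j, by omega, fun X => moment j X.D.fPoly, isVassiliev_moment j, ?_⟩
  intro he
  apply hne
  rw [moment_sub]
  exact sub_eq_zero.mpr he

end mom

section toG

variable (p : ℕ) [hp : Fact p.Prime]

/-- the map to the group ring kills high powers of `T - 1` -/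
theorem toG_pow (j : ℕ) : toG p (p ^ j) ((T 1 - 1) ^ (p ^ j)) = 0 := by
  have h1 : ((T 1 - 1 : (ZMod p)[T;T⁻¹]) ^ (p ^ j)) = T ((p ^ j : ℕ) : ℤ) - T 0 := by
    rw [sub_pow_char_pow, one_pow, T_pow, T_zero, mul_one]
  have h2 : ∀ n : ℤ, (T n : (ZMod p)[T;T⁻¹]) = C 1 * T n := by
    intro n
    rw [map_one, one_mul]
  rw [h1, h2, h2 0, map_sub, toG_CT, toG_CT, Int.cast_natCast, ZMod.natCast_self, Int.cast_zero, sub_self]

/-- the order of the zero of `T(-4) - T 4` at `1` -/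
theorem red_four_dvd : (T 1 - 1 : (ZMod p)[T;T⁻¹]) ∣ T (-4) - T 4 := by
  have h1 : (T (-4) - T 4 : (ZMod p)[T;T⁻¹]) = -T (-4) * (T 1 ^ 8 - 1) := by
    have e1 : (T 4 : (ZMod p)[T;T⁻¹]) = T (-4) * T 1 ^ 8 := by
      rw [T_pow, ← T_add]
      norm_num
    rw [e1]
    ring
  rw [h1]
  exact (sub_one_dvd_pow_sub_one _ 8).mul_left _

theorem red_four_dvd_two : (T 1 - 1 : (ZMod 2)[T;T⁻¹]) ^ 8 ∣ T (-4) - T 4 := by
  have h1 : (T (-4) - T 4 : (ZMod 2)[T;T⁻¹]) = -T (-4) * (T 1 ^ 8 - 1) := by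
    have e1 : (T 4 : (ZMod 2)[T;T⁻¹]) = T (-4) * T 1 ^ 8 := by
      rw [T_pow, ← T_add]
      norm_num
    rw [e1]
    ring
  have h2 : (T 1 - 1 : (ZMod 2)[T;T⁻¹]) ^ 8 = T 1 ^ 8 - 1 := by
    have := sub_pow_char_pow (p := 2) (n := 3) (T 1 : (ZMod 2)[T;T⁻¹]) 1
    rw [one_pow] at this
    exact this
  rw [h1, h2]
  exact Dvd.intro_left _ rfl

theorem red_T_sub_one (d : ℕ) (f : ℤ[T;T⁻¹]) (h : (T 1 - 1 : ℤ[T;T⁻¹]) ^ d ∣ f) :
    (T 1 - 1 : (ZMod p)[T;T⁻¹]) ^ d ∣ red p f := by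
  obtain ⟨g, rfl⟩ := h
  rw [map_mul, map_pow, map_sub, map_one, red_T]
  exact dvd_mul_right _ _

/-- the order of the Vassiliev invariants for the period `q`, a power of `p` -/
def ord (p q : ℕ) : ℕ := if p = 2 then 4 * q - 9 else q - 2

/-- the order of the group -/
def grp (p q : ℕ) : ℕ := if p = 2 then 4 * q else q

omit hp in
theorem grp_dvd (q : ℕ) : grp p q ∣ 4 * q := by
  unfold grp
  split_ifs
  · exact dvd_rfl
  · exact Dvd.intro_left 4 rfl

theorem toG_kill (k : ℕ) (hq : 4 ≤ p ^ k) (f : ℤ[T;T⁻¹])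
    (h : (T 1 - 1 : ℤ[T;T⁻¹]) ^ (ord p (p ^ k) + 1) ∣ f) :
    toG p (grp p (p ^ k)) ((T (-4) - T 4) * red p f) = 0 := by
  have key : ∀ j d : ℕ, (T 1 - 1 : (ZMod p)[T;T⁻¹]) ^ d ∣ (T (-4) - T 4) * red p f → p ^ j ≤ d →
      toG p (p ^ j) ((T (-4) - T 4) * red p f) = 0 := by
    intro j d h1 h2
    obtain ⟨g, hg⟩ := (pow_dvd_pow _ h2).trans h1
    rw [hg, map_mul, toG_pow, zero_mul]
  unfold grp
  unfold ord at h
  by_cases h2 : p = 2
  · subst h2
    rw [if_pos rfl] at h ⊢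
    have h4 : 4 * 2 ^ k = 2 ^ (k + 2) := by ring
    have h3 := mul_dvd_mul red_four_dvd_two (red_T_sub_one 2 _ _ h)
    rw [← pow_add] at h3
    have h5 := key (k + 2) _ h3 (by omega)
    rwa [← h4] at h5
  · rw [if_neg h2] at h ⊢
    have h3 := mul_dvd_mul (red_four_dvd p) (red_T_sub_one p _ _ h)
    rw [← pow_succ'] at h3
    exact key k _ h3 (by omega)

end toG

end Pool.Agent.TH561.FP
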