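import Pool.Agent.TH561.FP.Ord

/-!
# Freely periodic knots and Vassiliev invariants of small order
-/

set_option autoImplicit false

namespace Pool.Agent.TH561.FP

open Pool.Agent.H891R2.Jones Pool.Agent.TH561 Pool.Agent.TH561.PK Finset LaurentPolynomial
open Pool.Agent.H832R3.VJ (Dia Separated moment moment_sub moment_add isVassiliev_moment unknot fPoly_unknot)

section fin

variable (p : ℕ) [hp : Fact p.Prime]

theorem fPoly_bracket {P : Type} (D : Diagram P) : ∃ (ε : ZMod p) (e : ℤ), (ε = 1 ∨ ε = -1) ∧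
    red p D.fPoly = C ε * T e * red p D.bracket := by
  have h2 : D.fPoly = (if Even D.writhe then 1 else -1) * T (-3 * D.writhe) * D.bracket := rfl
  by_cases hev : Even D.writhe
  · rw [if_pos hev, one_mul] at h2
    refine ⟨1, -3 * D.writhe, Or.inl rfl, ?_⟩
    rw [h2, map_mul, red_T, map_one, one_mul]
  · rw [if_neg hev] at h2
    refine ⟨-1, -3 * D.writhe, Or.inr rfl, ?_⟩
    rw [h2, map_mul, map_mul, red_T, map_neg, map_one, map_neg, map_one]

/-- the congruence from the identity in the group ring -/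
theorem final' (k : ℕ) (hq : 4 ≤ p ^ k) (r : ℕ)
    (hr : ∀ x : ℤ, (r : ℤ) ∣ 4 * x → (4 * p ^ k : ℤ) ∣ 4 * x) (a l e : ℤ) (c κ : ZMod p) (hc : c ≠ 0)
    (h : toG p r (C c * T (e - 4) - C c * T (e + 4)) = toG p r (C κ * FT p a l)) :
    (p ^ k : ℤ) ∣ 2 * (l - 1) ∨ (p ^ k : ℤ) ∣ 2 * (l + 1) ∨ (p ^ k : ℤ) ∣ a * l - 1 ∨
      (p ^ k : ℤ) ∣ a * l + 1 := by
  unfold FT at h
  set P1 : ℤ := a * (l * (l + 2)) + (2 * l + 2) with hP1
  set N1 : ℤ := a * (l * (l + 2)) + (-2 * l - 2) with hN1
  set N2 : ℤ := a * ((l - 2) * (l - 2 + 2)) + (2 * (l - 2) + 2) with hN2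
  set P2 : ℤ := a * ((l - 2) * (l - 2 + 2)) + (-2 * (l - 2) - 2) with hP2
  have h1 : (C κ * (T (a * (l * (l + 2))) * (T (2 * l + 2) - T (-2 * l - 2)) -
        T (a * ((l - 2) * (l - 2 + 2))) * (T (2 * (l - 2) + 2) - T (-2 * (l - 2) - 2))) :
        (ZMod p)[T;T⁻¹]) = C κ * T P1 - C κ * T N1 - C κ * T N2 + C κ * T P2 := by
    have f1 : (T P1 : (ZMod p)[T;T⁻¹]) = T (a * (l * (l + 2))) * T (2 * l + 2) := T_add _ _
    have f2 : (T N1 : (ZMod p)[T;T⁻¹]) = T (a * (l * (l + 2))) * T (-2 * l - 2) := T_add _ _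
    have f3 : (T N2 : (ZMod p)[T;T⁻¹]) = T (a * ((l - 2) * (l - 2 + 2))) * T (2 * (l - 2) + 2) :=
      T_add _ _
    have f4 : (T P2 : (ZMod p)[T;T⁻¹]) = T (a * ((l - 2) * (l - 2 + 2))) * T (-2 * (l - 2) - 2) :=
      T_add _ _
    rw [f1, f2, f3, f4]
    ring
  rw [h1, map_sub, map_add, map_sub, map_sub, toG_CT, toG_CT, toG_CT, toG_CT, toG_CT, toG_CT] at h
  classical
  have key := four_terms (((e - 4 : ℤ)) : ZMod r) ((e + 4 : ℤ) : ZMod r)
    (P1 : ZMod r) P2 N1 N2 c κ hc (by
      intro h2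
      rw [zcast_eq] at h2
      have h3 : (r : ℤ) ∣ 4 * 2 := by
        have e1 : e - 4 - (e + 4) = -(4 * 2) := by ring
        rw [e1, dvd_neg] at h2
        exact h2
      have h4 := hr 2 h3
      have h5 : 4 * p ^ k ∣ 8 := by exact_mod_cast h4
      have := Nat.le_of_dvd (by norm_num) h5
      omega) (by
      intro g
      have h2 := congrArg (fun f : AddMonoidAlgebra (ZMod p) (ZMod r) => f.coeff g) h
      have h3 : ∀ (x : ZMod r) (c : ZMod p),
          (AddMonoidAlgebra.single x c : AddMonoidAlgebra (ZMod p) (ZMod r)).coeff g =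
            if x = g then c else 0 := by
        intro x c
        show (Finsupp.single x c) g = _
        rw [Finsupp.single_apply]
      simp only [AddMonoidAlgebra.coeff_sub, AddMonoidAlgebra.coeff_add, Finsupp.sub_apply,
        Finsupp.add_apply, h3] at h2
      have h4 : ∀ (x : ZMod r) (c : ZMod p), (if x = g then c else 0) =
          c * (if x = g then 1 else 0) := by
        intro x c
        split_ifs <;> ring
      rw [h4 _ c, h4 _ c, h4 _ κ, h4 _ κ, h4 _ κ, h4 _ κ] at h2
      linear_combination h2)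
  simp only [zcast_eq] at key
  have e11 : P1 - N1 = 4 * (l + 1) := by rw [hP1, hN1]; ring
  have e12 : P1 - N2 = 4 * (a * l + 1) := by rw [hP1, hN2]; ring
  have e21 : P2 - N1 = 4 * (-a * l + 1) := by rw [hP2, hN1]; ring
  have e22 : P2 - N2 = 4 * (-l + 1) := by rw [hP2, hN2]; ring
  have ePP : P1 - P2 = 4 * (a * l + l) := by rw [hP1, hP2]; ring
  have eNN : N1 - N2 = 4 * (a * l - l) := by rw [hN1, hN2]; ring
  apply arith p k hp.out hq a l
  have hsub : ∀ {x y z w : ℤ}, ((r : ℤ) ∣ x - z) → ((r : ℤ) ∣ y - w) →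
      (r : ℤ) ∣ (x - y) - (z - w) := by
    intro x y z w h5 h6
    have := dvd_sub h5 h6
    have e5 : x - z - (y - w) = (x - y) - (z - w) := by ring
    rwa [e5] at this
  have hr' : ∀ x y : ℤ, y = 4 * x → (r : ℤ) ∣ y → (4 * p ^ k : ℤ) ∣ y := by
    intro x y hxy hy
    rw [hxy] at hy ⊢
    exact hr x hy
  rcases key with (h2 | h2 | h2 | h2) | ⟨h2, h3, h4⟩ | ⟨h2, h3⟩ | ⟨h2, h3⟩
  · left; left
    rw [e11] at h2
    have := hr _ h2
    rwa [mul_add, mul_one] at this
  · left; right; left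
    rw [e12] at h2
    have := hr _ h2
    rwa [mul_add, mul_one, ← mul_assoc] at this
  · left; right; right; left
    rw [e21] at h2
    have := hr _ h2
    have e5 : 4 * (-a * l + 1) = -4 * a * l + 4 := by ring
    rwa [e5] at this
  · left; right; right; right
    rw [e22] at h2
    have := hr _ h2
    have e5 : 4 * (-l + 1) = -4 * l + 4 := by ring
    rwa [e5] at this
  · right; left
    refine ⟨?_, ?_, ?_⟩
    · rw [ePP] at h2
      have := hr _ h2
      have e5 : 4 * (a * l + l) = 4 * a * l + 4 * l := by ring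
      rwa [e5] at this
    · rw [eNN] at h3
      have := hr _ h3
      have e5 : 4 * (a * l - l) = 4 * a * l - 4 * l := by ring
      rwa [e5] at this
    · rcases h4 with ⟨h5, h6⟩ | ⟨h5, h6⟩
      · left
        have := hsub h5 h6
        rw [e11] at this
        have e5 : 4 * (l + 1) - (e - 4 - (e + 4)) = 4 * (l + 3) := by ring
        rw [e5] at this
        have := hr _ this
        have e6 : 4 * (l + 3) = 4 * l + 4 + 8 := by ring
        rwa [e6] at this
      · right
        have := hsub h5 h6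
        rw [e11] at this
        have e5 : 4 * (l + 1) - (e + 4 - (e - 4)) = 4 * (l - 1) := by ring
        rw [e5] at this
        have := hr _ this
        have e6 : 4 * (l - 1) = 4 * l + 4 - 8 := by ring
        rwa [e6] at this
  · right; right; left
    refine ⟨?_, ?_⟩
    · rw [eNN] at h2
      have := hr _ h2
      have e5 : 4 * (a * l - l) = 4 * a * l - 4 * l := by ring
      rwa [e5] at this
    · rcases h3 with ⟨h5, h6⟩ | ⟨h5, h6⟩
      · left
        have := hsub h5 h6
        rw [ePP] at this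
        have e5 : 4 * (a * l + l) - (e - 4 - (e + 4)) = 4 * (a * l + l + 2) := by ring
        rw [e5] at this
        have := hr _ this
        have e6 : 4 * (a * l + l + 2) = 4 * a * l + 4 * l + 8 := by ring
        rwa [e6] at this
      · right
        have := hsub h5 h6
        rw [ePP] at this
        have e5 : 4 * (a * l + l) - (e + 4 - (e - 4)) = 4 * (a * l + l - 2) := by ring
        rw [e5] at this
        have := hr _ this
        have e6 : 4 * (a * l + l - 2) = 4 * a * l + 4 * l - 8 := by ring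
        rwa [e6] at this
  · right; right; right
    refine ⟨?_, ?_⟩
    · rw [ePP] at h2
      have := hr _ h2
      have e5 : 4 * (a * l + l) = 4 * a * l + 4 * l := by ring
      rwa [e5] at this
    · rcases h3 with ⟨h5, h6⟩ | ⟨h5, h6⟩
      · left
        have := hsub h5 h6
        rw [eNN] at this
        have e5 : 4 * (a * l - l) - (e - 4 - (e + 4)) = 4 * (a * l - l + 2) := by ring
        rw [e5] at this
        have := hr _ this
        have e6 : 4 * (a * l - l + 2) = 4 * a * l - 4 * l + 8 := by ring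
        rwa [e6] at this
      · right
        have := hsub h5 h6
        rw [eNN] at this
        have e5 : 4 * (a * l - l) - (e + 4 - (e - 4)) = 4 * (a * l - l - 2) := by ring
        rw [e5] at this
        have := hr _ this
        have e6 : 4 * (a * l - l - 2) = 4 * a * l - 4 * l - 8 := by ring
        rwa [e6] at this

omit hp in
theorem grp_four (hp : p.Prime) (k : ℕ) (x : ℤ) (h : ((grp p (p ^ k) : ℕ) : ℤ) ∣ 4 * x) :
    (4 * p ^ k : ℤ) ∣ 4 * x := by
  unfold grp at h
  by_cases h2 : p = 2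
  · rw [if_pos h2] at h
    exact_mod_cast h
  · rw [if_neg h2] at h
    have h3 : IsCoprime ((p ^ k : ℕ) : ℤ) 4 := by
      have h5 : IsCoprime (p : ℤ) 2 := by
        rw [Int.isCoprime_iff_gcd_eq_one]
        have : Nat.Coprime p 2 := (Nat.coprime_primes hp Nat.prime_two).2 h2
        exact_mod_cast this
      push_cast
      have h6 : (4 : ℤ) = 2 ^ 2 := by norm_num
      rw [h6]
      exact h5.pow
    have h4 := h3.dvd_of_dvd_mul_left h
    push_cast at h4
    exact mul_dvd_mul_left 4 h4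

variable {M l : ℕ}

/-- the theorem for a power of `p` -/
theorem order_main (k : ℕ) (hq : 4 ≤ p ^ k) (hM : 0 < M) (v : Fin l → Elem M)
    (hl : 0 < l) (a : ℤ)
    (dir : Fin (p ^ k * l + a.natAbs * (M * (M - 1))) × Fin M → Bool)
    (ho : Oriented (freeWord (p ^ k) v a) dir) (hK : IsKnot (PK.annular (freeWord (p ^ k) v a) dir))
    (hS : (T 1 - 1 : ℤ[T;T⁻¹]) ^ (ord p (p ^ k) + 1) ∣
      (PK.annular (freeWord (p ^ k) v a) dir).fPoly - 1)
    (t : Fin (p ^ k * l + a.natAbs * (M * (M - 1)))) :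
    (p ^ k : ℤ) ∣ 2 * (linking dir t - 1) ∨ (p ^ k : ℤ) ∣ 2 * (linking dir t + 1) ∨
      (p ^ k : ℤ) ∣ a * linking dir t - 1 ∨ (p ^ k : ℤ) ∣ a * linking dir t + 1 := by
  have hq0 : 0 < p ^ k := by omega
  have hql : 0 < p ^ k * l := Nat.mul_pos hq0 hl
  have hL : 0 < p ^ k * l + a.natAbs * (M * (M - 1)) := by omega
  have hem : ∀ t : Fin l, (t : ℕ) < p ^ k * l + a.natAbs * (M * (M - 1)) := by
    intro t
    have h1 : l ≤ p ^ k * l := Nat.le_mul_of_pos_left l hq0
    have := t.2
    omega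
  rw [linking_const _ dir ho t ⟨0, hL⟩]
  obtain ⟨c, z, -, h1⟩ := free_identity_zero p k hL hl hM v (freeWord (p ^ k) v a) a (by
    unfold freeWord
    rw [toW_append, toW_pw (p ^ k) v]) (fun t => ⟨t, hem t⟩) dir ho hK (fun d hd => by
    obtain ⟨dir', h2, h3⟩ := free_ext hl hM (p ^ k) hq0 v a d hd
    exact ⟨dir', h2, fun t j => h3 _ t j rfl⟩) (grp p (p ^ k)) (grp_dvd p (p ^ k))
  obtain ⟨ε, e, hε, h2⟩ := fPoly_bracket p (PK.annular (freeWord (p ^ k) v a) dir)
  have h3 := toG_kill p k hq _ hS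
  rw [map_sub, map_one, mul_sub, mul_one, map_sub, sub_eq_zero, h2] at h3
  have h4 : toG p (grp p (p ^ k)) ((T (-4) - T 4) * (C ε * T e *
      red p (PK.annular (freeWord (p ^ k) v a) dir).bracket)) =
      toG p (grp p (p ^ k)) (C (ε * c) * T (e + z) * FT p a (linking dir ⟨0, hL⟩)) := by
    have e1 : (T (-4) - T 4) * (C ε * T e * red p (PK.annular (freeWord (p ^ k) v a) dir).bracket) =
        C ε * T e * ((T (-4) - T 4) * red p (PK.annular (freeWord (p ^ k) v a) dir).bracket) := by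
      ring
    rw [e1, map_mul, h1, ← map_mul, map_mul C, T_add]
    congr 1
    ring
  rw [h4] at h3
  have h5 : toG p (grp p (p ^ k)) (C (1 : ZMod p) * T (-(e + z) - 4) - C 1 * T (-(e + z) + 4)) =
      toG p (grp p (p ^ k)) (C (ε * c) * FT p a (linking dir ⟨0, hL⟩)) := by
    have e1 : (C (1 : ZMod p) * T (-(e + z) - 4) - C 1 * T (-(e + z) + 4) : (ZMod p)[T;T⁻¹]) =
        T (-(e + z)) * (T (-4) - T 4) := by
      rw [map_one, one_mul, one_mul, sub_eq_add_neg (-(e+z)) 4, T_add, T_add, mul_sub]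
    have e2 : C (ε * c) * FT p a (linking dir ⟨0, hL⟩) =
        T (-(e + z)) * (C (ε * c) * T (e + z) * FT p a (linking dir ⟨0, hL⟩)) := by
      have e3 : (T (-(e + z)) * T (e + z) : (ZMod p)[T;T⁻¹]) = 1 := by
        rw [← T_add, neg_add_cancel, T_zero]
      calc C (ε * c) * FT p a (linking dir ⟨0, hL⟩) =
          (T (-(e + z)) * T (e + z)) * (C (ε * c) * FT p a (linking dir ⟨0, hL⟩)) := by
            rw [e3, one_mul]
        _ = _ := by ring
    rw [e1, e2, map_mul, map_mul, h3]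
  exact final' p k hq (grp p (p ^ k)) (grp_four p hp.out k) a _ _ 1 _ one_ne_zero h5

/-- the same with a change of the index -/
theorem order_main' (k : ℕ) (hq : 4 ≤ p ^ k) (hM : 0 < M) (v : Fin l → Elem M)
    (hl : 0 < l) (a : ℤ) (L : ℕ) (hL : L = p ^ k * l + a.natAbs * (M * (M - 1)))
    (w : Fin L → Elem M) (hw : ∀ i, w i = freeWord (p ^ k) v a (Fin.cast hL i))
    (dir : Fin L × Fin M → Bool)
    (ho : Oriented w dir) (hK : IsKnot (PK.annular w dir))
    (hS : (T 1 - 1 : ℤ[T;T⁻¹]) ^ (ord p (p ^ k) + 1) ∣ (PK.annular w dir).fPoly - 1) (t : Fin L) :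
    (p ^ k : ℤ) ∣ 2 * (linking dir t - 1) ∨ (p ^ k : ℤ) ∣ 2 * (linking dir t + 1) ∨
      (p ^ k : ℤ) ∣ a * linking dir t - 1 ∨ (p ^ k : ℤ) ∣ a * linking dir t + 1 := by
  subst hL
  have hw' : w = freeWord (p ^ k) v a := funext hw
  subst hw'
  exact order_main p k hq hM v hl a dir ho hK hS t

omit hp in
/-- `freeWord n v a` for a multiple `n` of `q` -/
theorem freeWord_mul (q n n' : ℕ) (hn : n = q * n') (v : Fin l → Elem M) (a : ℤ)
    (i : Fin (n * l + a.natAbs * (M * (M - 1)))) :
    freeWord n v a i = freeWord q (pw n' v) a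
      (Fin.cast (by rw [hn, mul_assoc]) i) := by
  unfold freeWord
  refine Fin.addCases (fun j => ?_) (fun j => ?_) i
  · rw [Fin.append_left]
    have h1 : Fin.cast (show n * l + a.natAbs * (M * (M - 1)) = q * (n' * l) +
        a.natAbs * (M * (M - 1)) by rw [hn, mul_assoc]) (Fin.castAdd (a.natAbs * (M * (M - 1))) j) =
        Fin.castAdd _ (Fin.cast (show n * l = q * (n' * l) by rw [hn, mul_assoc]) j) :=
      Fin.ext rfl
    rw [h1, Fin.append_left]
    unfold pw
    congr 1
    apply Fin.ext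
    simp only [Fin.modNat, Fin.val_cast]
    rw [Nat.mod_mod_of_dvd _ (Dvd.intro_left n' rfl)]
  · rw [Fin.append_right]
    have h1 : Fin.cast (show n * l + a.natAbs * (M * (M - 1)) = q * (n' * l) +
        a.natAbs * (M * (M - 1)) by rw [hn, mul_assoc]) (Fin.natAdd (n * l) j) =
        Fin.natAdd _ j := by
      apply Fin.ext
      simp only [Fin.val_cast, Fin.val_natAdd]
      rw [hn, mul_assoc]
    rw [h1, Fin.append_right]

omit hp in
/-- the theorem for a multiple of a power of `p` -/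
theorem order_main_n (hp : p.Prime) (k n : ℕ) (hq : 4 ≤ p ^ k) (hn : p ^ k ∣ n) (hn0 : 0 < n)
    (hM : 0 < M) (v : Fin l → Elem M) (hl : 0 < l) (a : ℤ)
    (dir : Fin (n * l + a.natAbs * (M * (M - 1))) × Fin M → Bool)
    (ho : Oriented (freeWord n v a) dir) (hK : IsKnot (PK.annular (freeWord n v a) dir))
    (hS : ¬ Separated (ord p (p ^ k)) ⟨_, inferInstance, PK.annular (freeWord n v a) dir⟩ unknot)
    (t : Fin (n * l + a.natAbs * (M * (M - 1)))) :
    (p ^ k : ℤ) ∣ 2 * (linking dir t - 1) ∨ (p ^ k : ℤ) ∣ 2 * (linking dir t + 1) ∨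
      (p ^ k : ℤ) ∣ a * linking dir t - 1 ∨ (p ^ k : ℤ) ∣ a * linking dir t + 1 := by
  obtain ⟨n', hn'⟩ := hn
  have : Fact p.Prime := ⟨hp⟩
  have hn0' : 0 < n' := by
    rcases Nat.eq_zero_or_pos n' with h | h
    · rw [h, mul_zero] at hn'
      omega
    · exact h
  have h1 := dvd_of_not_separated _ _ _ hS
  rw [fPoly_unknot] at h1
  exact order_main' (l := n' * l) p k hq hM (pw n' v) (Nat.mul_pos hn0' hl) a _
    (by rw [hn', mul_assoc]) (freeWord n v a) (fun i => freeWord_mul _ _ _ hn' v a i) dir ho hK h1 t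

end fin

end Pool.Agent.TH561.FP
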