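import Pool.Agent.TH561.FP.Ko

/-!
# The orientation of a freely periodic knot is periodic
-/

set_option autoImplicit false

namespace Pool.Agent.TH561.FP

open Pool.Agent.H891R2.Jones Pool.Agent.TH561 Pool.Agent.TH561.PK Finset

section rot

variable {M l : ℕ}

/-- the directions at the level `s` modulo the number of levels -/
def levL {L : ℕ} (hL : 0 < L) (dir : Fin L × Fin M → Bool) (s : ℕ) (j : Fin M) : Bool :=
  dir (⟨s % L, Nat.mod_lt _ hL⟩, j)

theorem levL_fits {L : ℕ} (hL : 0 < L) (w : Fin L → Elem M) (dir : Fin L × Fin M → Bool)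
    (ho : Oriented w dir) (s : ℕ) :
    Fits (w ⟨s % L, Nat.mod_lt _ hL⟩) (levL hL dir s) (levL hL dir (s + 1)) := by
  have h := ho ⟨s % L, Nat.mod_lt _ hL⟩
  have h1 : (fun j => dir (finRotate L ⟨s % L, Nat.mod_lt _ hL⟩, j)) = levL hL dir (s + 1) := by
    funext j
    unfold levL
    congr 2
    apply Fin.ext
    rw [finRotate_val]
    simp
  rw [h1] at h
  exact h

/-- the letters of the first block -/
theorem freeWord_lt (hl : 0 < l) (n : ℕ) (v : Fin l → Elem M) (a : ℤ)
    (s : Fin (n * l + a.natAbs * (M * (M - 1)))) (hs : (s : ℕ) < n * l) :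
    freeWord n v a s = v ⟨(s : ℕ) % l, Nat.mod_lt _ hl⟩ := by
  have h2 : s = Fin.castAdd _ (⟨s, hs⟩ : Fin (n * l)) := Fin.ext rfl
  conv_lhs => rw [h2]
  unfold freeWord
  rw [Fin.append_left]
  rfl

/-- the letters of the full twists -/
theorem freeWord_ge (hM : 0 < M - 1) (n : ℕ) (v : Fin l → Elem M) (a : ℤ)
    (s : Fin (n * l + a.natAbs * (M * (M - 1)))) (hs : n * l ≤ (s : ℕ)) :
    freeWord n v a s = (some (decide (0 ≤ a)), ⟨((s : ℕ) - n * l) % (M-1), Nat.mod_lt _ hM⟩) := by
  have hlt : (s : ℕ) - n * l < a.natAbs * (M * (M - 1)) := by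
    have := s.2
    omega
  have hmod : ((s : ℕ) - n * l) % (M * (M-1)) % (M-1) = ((s : ℕ) - n * l) % (M-1) :=
    Nat.mod_mod_of_dvd _ (Dvd.intro_left M rfl)
  have h2 : s = Fin.natAdd (n * l) (⟨(s : ℕ) - n * l, hlt⟩ : Fin (a.natAbs * (M * (M - 1)))) := by
    apply Fin.ext
    simp only [Fin.val_natAdd]
    omega
  conv_lhs => rw [h2]
  unfold freeWord
  rw [Fin.append_right]
  unfold pw
  congr 1
  apply Fin.ext
  simp only [Fin.modNat]
  exact hmod

/-- the directions above a crossing -/
theorem fits_sw (b : Bool) (i : Fin (M - 1)) (x y : Fin M → Bool) :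
    Fits ((some b, i) : Elem M) x y ↔ y = fun j => x (sw i j) := by
  have hlf : (Elem.lf ((some b, i) : Elem M)) = ⟨i, by have := i.2; omega⟩ := rfl
  have hrg : (Elem.rg ((some b, i) : Elem M)) = ⟨i + 1, by have := i.2; omega⟩ := rfl
  constructor
  · rintro ⟨h1, h2, h3⟩
    rw [hlf, hrg] at h1 h2 h3
    funext j
    unfold sw
    by_cases hj : j = ⟨i, by have := i.2; omega⟩
    · rw [hj, Equiv.swap_apply_left]
      exact h3.symm
    · by_cases hj' : j = ⟨i + 1, by have := i.2; omega⟩
      · rw [hj', Equiv.swap_apply_right]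
        exact h2.symm
      · rw [Equiv.swap_apply_of_ne_of_ne hj hj']
        exact (h1 j hj hj').symm
  · rintro rfl
    refine ⟨fun j h6 h7 => ?_, ?_, ?_⟩
    · rw [hlf] at h6
      rw [hrg] at h7
      simp only
      unfold sw
      rw [Equiv.swap_apply_of_ne_of_ne h6 h7]
    · rw [hlf, hrg]
      unfold sw
      simp only
      rw [Equiv.swap_apply_right]
    · rw [hlf, hrg]
      unfold sw
      simp only
      rw [Equiv.swap_apply_left]

/-- the directions at the end of the first block -/
theorem lev_end (hM : 0 < M - 1) (n : ℕ) (v : Fin l → Elem M) (a : ℤ)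
    (hL : 0 < n * l + a.natAbs * (M * (M - 1)))
    (dir : Fin (n * l + a.natAbs * (M * (M - 1))) × Fin M → Bool) (ho : Oriented (freeWord n v a) dir) :
    levL hL dir (n * l) = levL hL dir 0 := by
  have key : ∀ s, s ≤ a.natAbs * (M * (M - 1)) →
      levL hL dir (n * l + s) = fun j => levL hL dir (n * l) (pm hM s j) := by
    intro s
    induction s with
    | zero => intro _; rfl
    | succ s ih =>
      intro hs
      have ih := ih (by omega)
      have h1 := levL_fits hL _ dir ho (n * l + s)
      have hmod : (n * l + s) % (n * l + a.natAbs * (M * (M - 1))) = n * l + s :=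
        Nat.mod_eq_of_lt (by omega)
      have h2 := freeWord_ge hM n v a ⟨(n * l + s) % (n * l + a.natAbs * (M * (M - 1))),
        Nat.mod_lt _ hL⟩ (by simp only; rw [hmod]; omega)
      rw [h2, fits_sw, ih] at h1
      have h3 : n * l + (s + 1) = n * l + s + 1 := by ring
      rw [h3, h1]
      funext j
      show levL hL dir (n * l) (pm hM s (sw _ j)) = levL hL dir (n * l) (pm hM (s + 1) j)
      show _ = levL hL dir (n * l) ((pm hM s * sw ⟨s % (M-1), Nat.mod_lt _ hM⟩) j)
      rw [Equiv.Perm.mul_apply]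
      congr 4
      apply Fin.ext
      simp only
      rw [hmod]
      congr 1
      omega
  have h1 := key _ le_rfl
  rw [pm_full] at h1
  have h2 : levL hL dir (n * l + a.natAbs * (M * (M - 1))) = levL hL dir 0 := by
    funext j
    unfold levL
    congr 2
    apply Fin.ext
    simp
  rw [h2] at h1
  rw [h1]
  rfl

/-- extension of directions of the first block -/
def gd (hM : 0 < M - 1) (N : ℕ) (D : ℕ → Fin M → Bool) (s : ℕ) (j : Fin M) : Bool :=
  if s ≤ N then D s j else D N (pm hM (s - N) j)

theorem gd_ge (hM : 0 < M - 1) (N : ℕ) (D : ℕ → Fin M → Bool) (s : ℕ) (hs : N ≤ s) :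
    gd hM N D s = fun j => D N (pm hM (s - N) j) := by
  funext j
  unfold gd
  split_ifs with h
  · have h1 : s = N := by omega
    subst h1
    rw [Nat.sub_self]
    rfl
  · rfl

theorem gd_oriented (hl : 0 < l) (hM : 0 < M - 1) (n : ℕ) (v : Fin l → Elem M) (a : ℤ)
    (D : ℕ → Fin M → Bool) (h1 : ∀ s, s < n * l → Fits (v ⟨s % l, Nat.mod_lt _ hl⟩) (D s) (D (s + 1)))
    (h2 : D (n * l) = D 0) :
    Oriented (freeWord n v a) (fun x => gd hM (n * l) D x.1 x.2) := by
  intro s
  have h3 : (fun j => gd hM (n * l) D ((finRotate _ s : Fin _) : ℕ) j) = gd hM (n * l) D (s + 1) := by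
    rw [finRotate_val]
    rcases Nat.lt_or_eq_of_le (Nat.succ_le_of_lt s.2) with h3 | h3
    · rw [Nat.mod_eq_of_lt h3]
    · have h4 : (s : ℕ) + 1 = n * l + a.natAbs * (M * (M - 1)) := h3
      rw [h4, Nat.mod_self, gd_ge hM (n * l) D (n * l + a.natAbs * (M * (M-1))) (by omega)]
      have h5 : n * l + a.natAbs * (M * (M-1)) - n * l = a.natAbs * (M * (M-1)) := by omega
      rw [h5, pm_full]
      funext j
      unfold gd
      rw [if_pos (Nat.zero_le _), h2]
      rfl
  show Fits (freeWord n v a s) (gd hM (n * l) D s)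
      (fun j => gd hM (n * l) D ((finRotate _ s : Fin _) : ℕ) j)
  rw [h3]
  by_cases hs : (s : ℕ) < n * l
  · rw [freeWord_lt hl n v a s hs]
    have h4 : gd hM (n * l) D s = D s := by
      funext j
      unfold gd
      rw [if_pos hs.le]
    have h5 : gd hM (n * l) D (s + 1) = D (s + 1) := by
      funext j
      unfold gd
      rw [if_pos (by omega)]
    rw [h4, h5]
    exact h1 s hs
  · have hs' : n * l ≤ (s : ℕ) := not_lt.1 hs
    rw [freeWord_ge hM n v a s hs', fits_sw, gd_ge hM _ D _ hs', gd_ge hM _ D _ (by omega)]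
    funext j
    have h5 : (s : ℕ) + 1 - n * l = (s - n * l) + 1 := by omega
    rw [h5]
    rfl

/-- the directions of a freely periodic knot of odd order are periodic -/
theorem rot_orient (hl : 0 < l) (hM : 0 < M) (n : ℕ) (hn : Odd n) (v : Fin l → Elem M) (a : ℤ)
    (hL : 0 < n * l + a.natAbs * (M * (M - 1)))
    (dir : Fin (n * l + a.natAbs * (M * (M - 1))) × Fin M → Bool) (ho : Oriented (freeWord n v a) dir)
    (hK : IsKnot (PK.annular (freeWord n v a) dir)) :
    levL hL dir l = levL hL dir 0 := by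
  have hM1 : 0 < M - 1 := lt_of_le_of_lt (Nat.zero_le _) (v ⟨0, hl⟩).2.2
  have hn0 : 0 < n := hn.pos
  have hnl : 0 < n * l := Nat.mul_pos hn0 hl
  have hend := lev_end hM1 n v a hL dir ho
  -- the first block as a periodic function
  let D : ℕ → Fin M → Bool := fun s => levL hL dir (s % (n * l))
  have hlt : ∀ s, s % (n * l) < n * l := fun s => Nat.mod_lt _ hnl
  have hD : ∀ s, Fits (v ⟨s % l, Nat.mod_lt _ hl⟩) (D s) (D (s + 1)) := by
    intro s
    have h1 := levL_fits hL _ dir ho (s % (n * l))
    have hmod : (s % (n * l)) % (n * l + a.natAbs * (M * (M - 1))) = s % (n * l) :=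
      Nat.mod_eq_of_lt (by have := hlt s; omega)
    rw [freeWord_lt hl n v a _ (by simp only; rw [hmod]; exact hlt s)] at h1
    have h2 : (⟨((⟨(s % (n * l)) % (n * l + a.natAbs * (M * (M - 1))), Nat.mod_lt _ hL⟩ :
        Fin (n * l + a.natAbs * (M * (M - 1)))) : ℕ) % l, Nat.mod_lt _ hl⟩ : Fin l) =
        ⟨s % l, Nat.mod_lt _ hl⟩ := by
      apply Fin.ext
      simp only
      rw [hmod, Nat.mod_mod_of_dvd _ (Dvd.intro_left n rfl)]
    rw [h2] at h1
    have h3 : levL hL dir (s % (n * l) + 1) = D (s + 1) := by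
      show _ = levL hL dir ((s + 1) % (n * l))
      rcases Nat.lt_or_eq_of_le (Nat.succ_le_of_lt (hlt s)) with h3 | h3
      · rw [Nat.add_mod, Nat.mod_eq_of_lt (a := s % (n * l) + 1 % (n * l))]
        · have h5 : 1 % (n * l) = 1 := Nat.mod_eq_of_lt (by omega)
          rw [h5]
        · have h5 : 1 % (n * l) = 1 := Nat.mod_eq_of_lt (by omega)
          rw [h5]
          exact h3
      · have h4 : s % (n * l) + 1 = n * l := h3
        have h5 : (s + 1) % (n * l) = 0 := by
          rw [← Nat.mod_add_mod, h4, Nat.mod_self]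
        rw [h4, h5]
        exact hend
    rw [h3] at h1
    exact h1
  have hper : ∀ s, D (s + n * l) = D s := by
    intro s
    show levL hL dir ((s + n * l) % (n * l)) = levL hL dir (s % (n * l))
    rw [Nat.add_mod_right]
  -- the rotated directions
  have ho' := gd_oriented hl hM1 n v a (fun s => D (s + l)) (by
    intro s _
    have h1 := hD (s + l)
    have h2 : (⟨(s + l) % l, Nat.mod_lt _ hl⟩ : Fin l) = ⟨s % l, Nat.mod_lt _ hl⟩ :=
      Fin.ext (Nat.add_mod_right s l)
    rw [h2] at h1
    have h3 : s + 1 + l = s + l + 1 := by ring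
    show Fits _ (D (s + l)) (D (s + 1 + l))
    rw [h3]
    exact h1) (by
    show D (n * l + l) = D (0 + l)
    rw [Nat.add_comm (n * l) l, hper, zero_add])
  have hval : ∀ s, s < n * l → ∀ j, gd hM1 (n * l) (fun s => D (s + l)) s j = D (s + l) j := by
    intro s hs j
    unfold gd
    rw [if_pos hs.le]
  have hval' : ∀ s (hs : s < n * l) j, dir (⟨s, by omega⟩, j) = D s j := by
    intro s hs j
    show _ = dir (⟨(s % (n * l)) % _, _⟩, j)
    congr 2
    apply Fin.ext
    simp only
    rw [Nat.mod_eq_of_lt hs, Nat.mod_eq_of_lt (by omega)]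
  have hl0 : levL hL dir l = D l := by
    show _ = levL hL dir (l % (n * l))
    rcases Nat.lt_or_eq_of_le (Nat.le_mul_of_pos_left l hn0) with h | h
    · rw [Nat.mod_eq_of_lt h]
    · have e1 : l % (n * l) = 0 := by
        rw [← h, Nat.mod_self]
      have e2 : levL hL dir l = levL hL dir (n * l) := congrArg (levL hL dir) h
      rw [e1, e2]
      exact hend
  have h00 : levL hL dir 0 = D 0 := by
    show _ = levL hL dir (0 % (n * l))
    rw [Nat.zero_mod]
  rw [hl0, h00]
  rcases two_orientations _ dir _ ho ho' hK with h6 | h6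
  · funext j
    have h7 := h6 (⟨0, hL⟩, j)
    simp only at h7
    rw [hval 0 hnl j, hval' 0 hnl j, zero_add] at h7
    exact h7
  · exfalso
    have h7 : ∀ s j, D (s + l) j = !(D s j) := by
      intro s j
      have h8 := h6 (⟨s % (n * l), by have := hlt s; omega⟩, j)
      simp only at h8
      rw [hval _ (hlt s) j, hval' _ (hlt s) j] at h8
      have h9 : D (s % (n * l) + l) = D (s + l) := by
        show levL hL dir ((s % (n * l) + l) % (n * l)) = levL hL dir ((s + l) % (n * l))
        rw [Nat.mod_add_mod]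
      have h10 : D (s % (n * l)) = D s := by
        show levL hL dir ((s % (n * l)) % (n * l)) = levL hL dir (s % (n * l))
        rw [Nat.mod_mod]
      rw [h9, h10] at h8
      exact h8
    have h8 : ∀ i j, D ((2 * i + 1) * l) j = !(D 0 j) := by
      intro i j
      induction i with
      | zero =>
        have := h7 0 j
        rw [zero_add] at this
        rw [mul_zero, zero_add, one_mul]
        exact this
      | succ i ih =>
        have e1 : (2 * (i + 1) + 1) * l = (2 * i + 1) * l + l + l := by ring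
        rw [e1, h7, h7, ih]
        simp
    obtain ⟨i, hi⟩ := hn
    have h9 := h8 i ⟨0, hM⟩
    rw [← hi] at h9
    have h10 : D (n * l) = D 0 := by
      have := hper 0
      rwa [zero_add] at this
    rw [h10] at h9
    revert h9
    cases D 0 ⟨0, hM⟩ <;> simp

/-- the directions of a freely periodic knot of odd order are directions of the quotient -/
theorem quot_orient (hl : 0 < l) (hM : 0 < M) (n : ℕ) (hn : Odd n) (v : Fin l → Elem M) (a : ℤ)
    (hL : 0 < n * l + a.natAbs * (M * (M - 1)))
    (dir : Fin (n * l + a.natAbs * (M * (M - 1))) × Fin M → Bool) (ho : Oriented (freeWord n v a) dir)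
    (hK : IsKnot (PK.annular (freeWord n v a) dir)) :
    Oriented v (fun x : Fin l × Fin M => levL hL dir x.1 x.2) := by
  have h0 := rot_orient hl hM n hn v a hL dir ho hK
  intro t
  have hn0 : 0 < n := hn.pos
  have htl : (t : ℕ) < n * l := lt_of_lt_of_le t.2 (Nat.le_mul_of_pos_left l hn0)
  have h1 := levL_fits hL _ dir ho t
  have hmod : (t : ℕ) % (n * l + a.natAbs * (M * (M - 1))) = t := Nat.mod_eq_of_lt (by omega)
  rw [freeWord_lt hl n v a _ (by simp only; rw [hmod]; exact htl)] at h1
  have h2 : (⟨((⟨(t : ℕ) % (n * l + a.natAbs * (M * (M - 1))), Nat.mod_lt _ hL⟩ :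
      Fin (n * l + a.natAbs * (M * (M - 1)))) : ℕ) % l, Nat.mod_lt _ hl⟩ : Fin l) = t := by
    apply Fin.ext
    simp only
    rw [hmod, Nat.mod_eq_of_lt t.2]
  rw [h2] at h1
  have h3 : (fun j => levL hL dir ((finRotate l t : Fin l) : ℕ) j) = levL hL dir (t + 1) := by
    rw [finRotate_val]
    rcases Nat.lt_or_eq_of_le (Nat.succ_le_of_lt t.2) with h3 | h3
    · rw [Nat.mod_eq_of_lt h3]
    · have h4 : (t : ℕ) + 1 = l := h3
      rw [h4, Nat.mod_self]
      exact h0.symm
  show Fits (v t) (levL hL dir t) (fun j => levL hL dir ((finRotate l t : Fin l) : ℕ) j)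
  rw [h3]
  exact h1

end rot

end Pool.Agent.TH561.FP
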