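import Pool.Agent.TH561.FP.OrdM
import Pool.Agent.TH561.FP.Rot

/-!
# Two freely periodic knots which are not separated by Vassiliev invariants of small order
-/

set_option autoImplicit false

namespace Pool.Agent.TH561.FP

open Pool.Agent.H891R2.Jones Pool.Agent.TH561 Pool.Agent.TH561.PK Finset LaurentPolynomial
open Pool.Agent.H832R3.VJ (Dia Separated)

section comb

theorem ms_pair {G : Type*} {a b c d : G} (h : ({a, b} : Multiset G) = {c, d}) :
    (a = c ∧ b = d) ∨ (a = d ∧ b = c) := by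
  have ha : a ∈ ({c, d} : Multiset G) := by rw [← h]; simp
  rw [Multiset.insert_eq_cons, Multiset.mem_cons, Multiset.mem_singleton] at ha
  rcases ha with rfl | rfl
  · left
    rw [Multiset.insert_eq_cons, Multiset.insert_eq_cons, Multiset.cons_inj_right,
      Multiset.singleton_inj] at h
    exact ⟨rfl, h⟩
  · right
    rw [Multiset.pair_comm c, Multiset.insert_eq_cons, Multiset.insert_eq_cons,
      Multiset.cons_inj_right, Multiset.singleton_inj] at h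
    exact ⟨rfl, h⟩

theorem ms_four {G : Type*} {P1 P2 R1 R2 Q1 Q2 N1 N2 : G}
    (h : P1 ::ₘ P2 ::ₘ ({R1, R2} : Multiset G) = Q1 ::ₘ Q2 ::ₘ {N1, N2})
    (h1 : P1 ≠ N1) (h2 : P1 ≠ N2) (h3 : P2 ≠ N1) (h4 : P2 ≠ N2) :
    ((P1 = Q1 ∧ P2 = Q2) ∨ (P1 = Q2 ∧ P2 = Q1)) ∧ ((R1 = N1 ∧ R2 = N2) ∨ (R1 = N2 ∧ R2 = N1)) := by
  have ha : P1 ∈ Q1 ::ₘ Q2 ::ₘ ({N1, N2} : Multiset G) := by rw [← h]; simp
  have key : ∀ X : G, P2 ::ₘ ({R1, R2} : Multiset G) = X ::ₘ {N1, N2} →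
      P2 = X ∧ ((R1 = N1 ∧ R2 = N2) ∨ (R1 = N2 ∧ R2 = N1)) := by
    intro X hX
    have hb : P2 ∈ X ::ₘ ({N1, N2} : Multiset G) := by rw [← hX]; simp
    rw [Multiset.mem_cons, Multiset.insert_eq_cons, Multiset.mem_cons, Multiset.mem_singleton] at hb
    rcases hb with hb | hb | hb
    · subst hb
      rw [Multiset.cons_inj_right] at hX
      exact ⟨rfl, ms_pair hX⟩
    · exact absurd hb h3
    · exact absurd hb h4
  rw [Multiset.mem_cons, Multiset.mem_cons, Multiset.insert_eq_cons, Multiset.mem_cons,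
    Multiset.mem_singleton] at ha
  rcases ha with ha | ha | ha | ha
  · subst ha
    rw [Multiset.cons_inj_right] at h
    obtain ⟨h5, h6⟩ := key _ h
    exact ⟨Or.inl ⟨rfl, h5⟩, h6⟩
  · subst ha
    rw [Multiset.cons_swap Q1, Multiset.cons_inj_right] at h
    obtain ⟨h5, h6⟩ := key _ h
    exact ⟨Or.inr ⟨rfl, h5⟩, h6⟩
  · exact absurd ha h1
  · exact absurd ha h2

/-- four terms which are four other terms -/
theorem pairs_comb {G : Type*} [DecidableEq G] (p : ℕ) (hp5 : 5 ≤ p)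
    (P1 P2 N1 N2 Q1 Q2 R1 R2 : G) (c c' : ZMod p) (hc : c = 1 ∨ c = -1) (hc' : c' = 1 ∨ c' = -1)
    (h : ∀ g, c * ((if P1 = g then 1 else 0) - (if N1 = g then 1 else 0) - (if N2 = g then 1 else 0) +
        (if P2 = g then 1 else 0)) =
      c' * ((if Q1 = g then 1 else 0) - (if R1 = g then 1 else 0) - (if R2 = g then 1 else 0) +
        (if Q2 = g then 1 else 0)))
    (h1 : P1 ≠ N1) (h2 : P1 ≠ N2) (h3 : P2 ≠ N1) (h4 : P2 ≠ N2) :
    (((P1 = Q1 ∧ P2 = Q2) ∨ (P1 = Q2 ∧ P2 = Q1)) ∧ ((R1 = N1 ∧ R2 = N2) ∨ (R1 = N2 ∧ R2 = N1))) ∨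
    (((P1 = R1 ∧ P2 = R2) ∨ (P1 = R2 ∧ P2 = R1)) ∧ ((Q1 = N1 ∧ Q2 = N2) ∨ (Q1 = N2 ∧ Q2 = N1))) := by
  let i : G → G → ℤ := fun x g => if x = g then 1 else 0
  have hi : ∀ x g, i x g = 0 ∨ i x g = 1 := by
    intro x g
    show (if x = g then (1 : ℤ) else 0) = 0 ∨ (if x = g then (1 : ℤ) else 0) = 1
    split_ifs <;> simp
  have hcast : ∀ x g, ((i x g : ℤ) : ZMod p) = if x = g then 1 else 0 := by
    intro x g
    show ((if x = g then (1 : ℤ) else 0 : ℤ) : ZMod p) = _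
    split_ifs <;> simp
  have hx : (∀ g, i P1 g - i N1 g - i N2 g + i P2 g = i Q1 g - i R1 g - i R2 g + i Q2 g) ∨
      (∀ g, i P1 g - i N1 g - i N2 g + i P2 g = -(i Q1 g - i R1 g - i R2 g + i Q2 g)) := by
    have hb : ∀ x : ℤ, (p : ℤ) ∣ x → -4 ≤ x → x ≤ 4 → x = 0 := by
      intro x hx h5 h6
      by_contra hne
      have h7 := Int.le_of_dvd (abs_pos.2 hne) ((dvd_abs _ _).2 hx)
      have h8 : |x| ≤ 4 := abs_le.2 ⟨h5, h6⟩
      omega
    have hbd : ∀ g, ∀ e : ℤ, (e = 1 ∨ e = -1) →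
        -4 ≤ i P1 g - i N1 g - i N2 g + i P2 g - e * (i Q1 g - i R1 g - i R2 g + i Q2 g) ∧
        i P1 g - i N1 g - i N2 g + i P2 g - e * (i Q1 g - i R1 g - i R2 g + i Q2 g) ≤ 4 := by
      intro g e he
      have a1 := hi P1 g
      have a2 := hi N1 g
      have a3 := hi N2 g
      have a4 := hi P2 g
      have a5 := hi Q1 g
      have a6 := hi R1 g
      have a7 := hi R2 g
      have a8 := hi Q2 g
      rcases he with rfl | rfl <;> constructor <;> omega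
    have hcc : ∃ e : ℤ, (e = 1 ∨ e = -1) ∧ c' = c * e := by
      rcases hc with rfl | rfl <;> rcases hc' with rfl | rfl
      · exact ⟨1, Or.inl rfl, by simp⟩
      · exact ⟨-1, Or.inr rfl, by simp⟩
      · exact ⟨-1, Or.inr rfl, by simp⟩
      · exact ⟨1, Or.inl rfl, by simp⟩
    have hcc1 : c * c = 1 := by
      rcases hc with rfl | rfl <;> simp
    obtain ⟨e, he, hce⟩ := hcc
    have key : ∀ g, i P1 g - i N1 g - i N2 g + i P2 g =
        e * (i Q1 g - i R1 g - i R2 g + i Q2 g) := by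
      intro g
      rw [← sub_eq_zero]
      apply hb _ _ (hbd g e he).1 (hbd g e he).2
      rw [← ZMod.intCast_zmod_eq_zero_iff_dvd]
      have h5 := h g
      rw [← hcast, ← hcast, ← hcast, ← hcast, ← hcast, ← hcast, ← hcast, ← hcast, hce] at h5
      push_cast
      linear_combination c * h5 -
        ((i P1 g : ZMod p) - i N1 g - i N2 g + i P2 g - e * (i Q1 g - i R1 g - i R2 g + i Q2 g)) * hcc1
    rcases he with rfl | rfl
    · left; intro g; rw [key g]; ring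
    · right; intro g; rw [key g]; ring
  have hcount : ∀ a b c d g : G, (Multiset.count g (a ::ₘ b ::ₘ ({c, d} : Multiset G)) : ℤ) =
      i a g + i b g + i c g + i d g := by
    intro a b c d g
    have e1 : ∀ (x : G) (m : Multiset G), (Multiset.count g (x ::ₘ m) : ℤ) = i x g + Multiset.count g m := by
      intro x m
      rw [Multiset.count_cons]
      show _ = (if x = g then (1 : ℤ) else 0) + _
      by_cases hxg : x = g
      · rw [if_pos hxg, if_pos hxg.symm]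
        push_cast
        ring
      · rw [if_neg hxg, if_neg (Ne.symm hxg)]
        push_cast
        ring
    rw [e1, e1, Multiset.insert_eq_cons, e1, ← Multiset.cons_zero, e1, Multiset.count_zero]
    push_cast
    ring
  rcases hx with hx | hx
  · left
    apply ms_four _ h1 h2 h3 h4
    apply Multiset.ext.2
    intro g
    have h5 := hx g
    have h6 : (Multiset.count g (P1 ::ₘ P2 ::ₘ ({R1, R2} : Multiset G)) : ℤ) =
        Multiset.count g (Q1 ::ₘ Q2 ::ₘ ({N1, N2} : Multiset G)) := by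
      rw [hcount, hcount]
      linarith
    exact_mod_cast h6
  · right
    apply ms_four _ h1 h2 h3 h4
    apply Multiset.ext.2
    intro g
    have h5 := hx g
    have h6 : (Multiset.count g (P1 ::ₘ P2 ::ₘ ({Q1, Q2} : Multiset G)) : ℤ) =
        Multiset.count g (R1 ::ₘ R2 ::ₘ ({N1, N2} : Multiset G)) := by
      rw [hcount, hcount]
      linarith
    exact_mod_cast h6

end comb

section arithm

/-- the arithmetic for pairs -/
theorem pair_arith (q : ℤ) (h2 : IsCoprime q 2) (a l z a' l' z' : ℤ)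
    (h : ((q ∣ a * (l * (l + 2)) + (2 * l + 2) + z - (a' * (l' * (l' + 2)) + (2 * l' + 2) + z') ∧
          q ∣ a * ((l - 2) * (l - 2 + 2)) + (-2 * (l - 2) - 2) + z -
            (a' * ((l' - 2) * (l' - 2 + 2)) + (-2 * (l' - 2) - 2) + z')) ∨
        (q ∣ a * (l * (l + 2)) + (2 * l + 2) + z -
            (a' * ((l' - 2) * (l' - 2 + 2)) + (-2 * (l' - 2) - 2) + z') ∧
          q ∣ a * ((l - 2) * (l - 2 + 2)) + (-2 * (l - 2) - 2) + z -
            (a' * (l' * (l' + 2)) + (2 * l' + 2) + z'))) ∧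
      ((q ∣ a' * (l' * (l' + 2)) + (-2 * l' - 2) + z' - (a * (l * (l + 2)) + (-2 * l - 2) + z) ∧
          q ∣ a' * ((l' - 2) * (l' - 2 + 2)) + (2 * (l' - 2) + 2) + z' -
            (a * ((l - 2) * (l - 2 + 2)) + (2 * (l - 2) + 2) + z)) ∨
        (q ∣ a' * (l' * (l' + 2)) + (-2 * l' - 2) + z' -
            (a * ((l - 2) * (l - 2 + 2)) + (2 * (l - 2) + 2) + z) ∧
          q ∣ a' * ((l' - 2) * (l' - 2 + 2)) + (2 * (l' - 2) + 2) + z' -
            (a * (l * (l + 2)) + (-2 * l - 2) + z)))) :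
    ∃ ε : ℤ, (ε = 1 ∨ ε = -1) ∧
      ((q ∣ l' - ε * l ∧ q ∣ a' * l' - ε * (a * l)) ∨ (q ∣ l' - ε * (a * l) ∧ q ∣ a' * l' - ε * l)) := by
  have h4 : ∀ x, q ∣ 8 * x → q ∣ x := by
    intro x hx
    have h5 : IsCoprime q 8 := by
      have h6 : (8 : ℤ) = 2 ^ 3 := by norm_num
      rw [h6]
      exact h2.pow_right
    exact h5.dvd_of_dvd_mul_left hx
  obtain ⟨hP, hN⟩ := h
  rcases hP with ⟨⟨x1, hx1⟩, ⟨x2, hx2⟩⟩ | ⟨⟨x1, hx1⟩, ⟨x2, hx2⟩⟩ <;>
    rcases hN with ⟨⟨y1, hy1⟩, ⟨y2, hy2⟩⟩ | ⟨⟨y1, hy1⟩, ⟨y2, hy2⟩⟩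
  · refine ⟨1, Or.inl rfl, Or.inl ⟨h4 _ ⟨-(x1 - x2) - (y1 - y2), ?_⟩, h4 _ ⟨(y1 - y2) - (x1 - x2), ?_⟩⟩⟩
    · linear_combination -hx1 + hx2 - hy1 + hy2
    · linear_combination -hx1 + hx2 + hy1 - hy2
  · refine ⟨1, Or.inl rfl, Or.inr ⟨h4 _ ⟨-(x1 - x2) - (y1 - y2), ?_⟩, h4 _ ⟨(y1 - y2) - (x1 - x2), ?_⟩⟩⟩
    · linear_combination -hx1 + hx2 - hy1 + hy2
    · linear_combination -hx1 + hx2 + hy1 - hy2
  · refine ⟨-1, Or.inr rfl, Or.inr ⟨h4 _ ⟨(x1 - x2) - (y1 - y2), ?_⟩, h4 _ ⟨(y1 - y2) + (x1 - x2), ?_⟩⟩⟩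
    · linear_combination hx1 - hx2 - hy1 + hy2
    · linear_combination hx1 - hx2 + hy1 - hy2
  · refine ⟨-1, Or.inr rfl, Or.inl ⟨h4 _ ⟨(x1 - x2) - (y1 - y2), ?_⟩, h4 _ ⟨(y1 - y2) + (x1 - x2), ?_⟩⟩⟩
    · linear_combination hx1 - hx2 - hy1 + hy2
    · linear_combination hx1 - hx2 + hy1 - hy2

end arithm

end Pool.Agent.TH561.FP
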