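import Pool.Agent.TH561.FP.TJ

/-!
# The traces of full twists on `s` strands
-/

set_option autoImplicit false

namespace Pool.Agent.TH561.FP

open Pool.Agent.H891R2.Jones Pool.Agent.TH561 Pool.Agent.TH561.PK Finset Polynomial

section hf

variable {R S S' : Type*} [CommRing R] [CommRing S] [Algebra R S] [CommRing S'] [Algebra R S']

/-- the linear map with `X ^ s ↦ h s` -/
noncomputable def HF (h : ℕ → S) : R[X] →ₗ[R] S :=
  Polynomial.lsum (fun s => LinearMap.toSpanSingleton R S (h s))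

theorem HF_monomial (h : ℕ → S) (s : ℕ) (c : R) : HF h (monomial s c) = c • h s := by
  unfold HF
  rw [Polynomial.lsum_apply, Polynomial.sum_monomial_index]
  · simp
  · simp

theorem HF_X_pow (h : ℕ → S) (s : ℕ) : HF h (X ^ s : R[X]) = h s := by
  rw [X_pow_eq_monomial, HF_monomial, one_smul]

theorem HF_one (h : ℕ → S) : HF h (1 : R[X]) = h 0 := by
  have := HF_X_pow (R := R) h 0
  rwa [pow_zero] at this

theorem HF_eq_sum (h : ℕ → S) (Q : R[X]) {n : ℕ} (hQ : Q.natDegree < n) :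
    HF h Q = ∑ s ∈ range n, Q.coeff s • h s := by
  conv_lhs => rw [Q.as_sum_range' n hQ]
  rw [map_sum]
  refine Finset.sum_congr rfl fun s _ => ?_
  rw [HF_monomial]

theorem HF_congr {h h' : ℕ → S} {Q : R[X]} {n : ℕ} (hQ : Q.natDegree ≤ n)
    (hh : ∀ s, s ≤ n → h s = h' s) : HF h Q = HF h' Q := by
  rw [HF_eq_sum h Q (Nat.lt_succ_of_le hQ), HF_eq_sum h' Q (Nat.lt_succ_of_le hQ)]
  refine Finset.sum_congr rfl fun s hs => ?_
  rw [hh s (by rw [Finset.mem_range] at hs; omega)]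

theorem HF_comp (f : S →ₗ[R] S') (h : ℕ → S) (Q : R[X]) : f (HF h Q) = HF (fun s => f (h s)) Q := by
  rw [HF_eq_sum h Q (Nat.lt_succ_self _), HF_eq_sum _ Q (Nat.lt_succ_self _), map_sum]
  refine Finset.sum_congr rfl fun s _ => ?_
  rw [map_smul]

theorem HF_int (h : ℕ → S) (Q : ℤ[X]) : HF h (Q.map (Int.castRingHom R)) = HF h Q := by
  have h1 : (Q.map (Int.castRingHom R)).natDegree < Q.natDegree + 1 :=
    Nat.lt_succ_of_le natDegree_map_le
  rw [HF_eq_sum h Q (Nat.lt_succ_self _), HF_eq_sum _ _ h1]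
  refine Finset.sum_congr rfl fun s _ => ?_
  rw [coeff_map, eq_intCast, Int.cast_smul_eq_zsmul]

theorem HF_eval (x c : S) (Q : R[X]) : HF (fun s => c * x ^ s) Q = c * aeval x Q := by
  induction Q using Polynomial.induction_on' with
  | add p q hp hq => rw [map_add, map_add, hp, hq, mul_add]
  | monomial n a =>
    rw [HF_monomial, aeval_monomial, Algebra.smul_def]
    ring

/-- degree and leading coefficient of the Chebyshev polynomials -/
theorem S_deg : ∀ n : ℕ, (Chebyshev.S R (n : ℤ)).natDegree ≤ n ∧ (Chebyshev.S R (n : ℤ)).coeff n = 1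
  | 0 => by simp
  | 1 => by
    have : Chebyshev.S R ((1 : ℕ) : ℤ) = X := by simp
    rw [this]
    exact ⟨natDegree_X_le, coeff_X_one⟩
  | (n+2) => by
    obtain ⟨h1, h2⟩ := S_deg n
    obtain ⟨h3, h4⟩ := S_deg (n+1)
    have e1 : Chebyshev.S R ((n+2 : ℕ) : ℤ) = X * Chebyshev.S R ((n+1 : ℕ) : ℤ) -
        Chebyshev.S R (n : ℤ) := by
      push_cast
      exact Chebyshev.S_add_two R n
    rw [e1]
    constructor
    · refine (natDegree_sub_le _ _).trans (max_le ?_ (h1.trans (by omega)))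
      exact (natDegree_mul_le_of_le natDegree_X_le h3).trans (le_of_eq (by ring))
    · rw [coeff_sub, coeff_X_mul, h4, coeff_eq_zero_of_natDegree_lt (by omega), sub_zero]

end hf

section star

variable {m N : ℕ}

theorem AR_span (n : ℕ) {X : Matrix (Fin m → Fin N) (Fin m → Fin N) ℂ} (hX : X ∈ AR ℂ m (KK m N) n) :
    X ∈ Submodule.span ℂ {Y | ∃ L : List ℕ, (∀ i ∈ L, m - n ≤ i ∧ i + 1 < m) ∧ WP (KK m N) L = Y} := by
  unfold AR at hX
  rw [← Subalgebra.mem_toSubmodule, Algebra.adjoin_eq_span] at hX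
  refine Submodule.span_mono ?_ hX
  intro Y hY
  induction hY using Submonoid.closure_induction with
  | mem x hx =>
    obtain ⟨i, hi, rfl⟩ := hx
    exact ⟨[i], by simpa using hi, by simp [WP_cons]⟩
  | one => exact ⟨[], by simp, rfl⟩
  | mul x y _ _ hx hy =>
    obtain ⟨L1, h1, rfl⟩ := hx
    obtain ⟨L2, h2, rfl⟩ := hy
    refine ⟨L1 ++ L2, fun i hi => ?_, WP_append _ _ _⟩
    rcases List.mem_append.1 hi with hi | hi
    · exact h1 i hi
    · exact h2 i hi

/-- the trace of a full twist on the last `s` strands, with a weight -/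
noncomputable def hh (m N : ℕ) (b : Bool) (a s : ℕ) : ℂ :=
  (AA N b) ^ (3 * a * s) * (N : ℂ) ^ s * Matrix.trace ((FF (sg (AA N b) (KK m N)) s (m - s)) ^ a)

theorem exists_u (w : ℂ) : ∃ u : ℂ, u ≠ 0 ∧ u + u⁻¹ = w := by
  obtain ⟨s, hs⟩ := IsAlgClosed.exists_pow_nat_eq (w ^ 2 - 4) (n := 2) (by norm_num)
  have h1 : ((w + s) / 2) * ((w - s) / 2) = 1 := by
    linear_combination (-1/4 : ℂ) * hs
  have h2 : (w + s) / 2 ≠ 0 := left_ne_zero_of_mul_eq_one h1
  refine ⟨(w + s) / 2, h2, ?_⟩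
  rw [← eq_inv_of_mul_eq_one_right h1]
  ring

/-- the polynomial of an element -/
theorem exists_poly (hN : 3 ≤ N) (n : ℕ) (hn : n ≤ m) (X : Matrix (Fin m → Fin N) (Fin m → Fin N) ℂ)
    (hX : X ∈ AR ℂ m (KK m N) n) : ∃ Q : ℂ[X],
      (∀ u : ℂ, u ≠ 0 → u + u⁻¹ + ((N : ℂ) - 2) ≠ 0 → Matrix.trace (Matrix.diagonal (tz u) * X) =
        (u + u⁻¹ + ((N : ℂ) - 2)) ^ (m - n) * Q.eval (u + u⁻¹ + ((N : ℂ) - 2))) ∧
      ∀ (b : Bool) (a : ℕ), (N : ℂ) ^ n *
        Matrix.trace (X * (FF (sg (AA N b) (KK m N)) n (m - n)) ^ a) =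
        (AA N b)⁻¹ ^ (3 * a * n) * HF (hh m N b a) Q := by
  have h1 := AR_span n hX
  clear hX
  induction h1 using Submodule.span_induction with
  | zero => exact ⟨0, fun u _ _ => by simp, fun b a => by simp⟩
  | add x y _ _ hx hy =>
    obtain ⟨Q1, h1, h2⟩ := hx
    obtain ⟨Q2, h3, h4⟩ := hy
    refine ⟨Q1 + Q2, fun u hu hz => ?_, fun b a => ?_⟩
    · rw [mul_add, Matrix.trace_add, h1 u hu hz, h3 u hu hz, eval_add, mul_add]
    · rw [add_mul, Matrix.trace_add, mul_add, h2, h4, map_add, mul_add]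
  | smul c x _ hx =>
    obtain ⟨Q1, h1, h2⟩ := hx
    refine ⟨c • Q1, fun u hu hz => ?_, fun b a => ?_⟩
    · rw [mul_smul_comm, Matrix.trace_smul, h1 u hu hz, eval_smul, smul_eq_mul, smul_eq_mul]
      ring
    · rw [smul_mul_assoc, Matrix.trace_smul, map_smul, smul_eq_mul, smul_eq_mul,
        mul_left_comm, h2]
      ring
  | mem x hx =>
    obtain ⟨L, hL, rfl⟩ := hx
    obtain ⟨s, hs, hes, h3⟩ := trace_twist' m n hn L hL
    refine ⟨monomial s ((N : ℂ) ^ inn m L), fun u hu hz => ?_, fun b a => ?_⟩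
    · rw [trace_tz_word L (fun i hi => (hL i hi).2) (by omega) hu hz, eval_monomial, hes, pow_add]
      ring
    · have h4 := h3 N hN b 1 a le_rfl
      rw [pow_one, one_mul] at h4
      have hA := AA_ne N hN b
      have h5 : (N : ℂ) ^ n = (N : ℂ) ^ s * (N : ℂ) ^ (n - s) := by
        rw [← pow_add]; congr 1; omega
      have h6 : (AA N b)⁻¹ ^ (3 * a * (n - s)) = (AA N b)⁻¹ ^ (3 * a * n) * (AA N b) ^ (3 * a * s) := by
        have : 3 * a * n = 3 * a * (n - s) + 3 * a * s := by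
          rw [← mul_add]; congr 1; omega
        have h8 : (AA N b)⁻¹ ^ (3 * a * s) * (AA N b) ^ (3 * a * s) = 1 := by
          rw [← mul_pow, inv_mul_cancel₀ hA, one_pow]
        calc (AA N b)⁻¹ ^ (3 * a * (n - s)) = (AA N b)⁻¹ ^ (3 * a * (n - s)) *
              ((AA N b)⁻¹ ^ (3 * a * s) * (AA N b) ^ (3 * a * s)) := by rw [h8, mul_one]
          _ = _ := by rw [this, pow_add]; ring
      rw [HF_monomial, h5, mul_assoc, h4, h6]
      unfold hh
      rw [smul_eq_mul]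
      ring

/-- the traces of full twists -/
theorem star_ev (hN : 3 ≤ N) (n : ℕ) (hn : n ≤ m) (b : Bool) (a : ℕ) :
    HF (hh m N b a) (Chebyshev.S ℂ (n : ℤ)) =
      (AA N b) ^ (a * (n * (n + 2))) * ((N : ℂ) ^ m * (Chebyshev.S ℂ (n : ℤ)).eval (N : ℂ)) := by
  have hq : ∀ n, 1 ≤ n → n ≤ m → qn (N : ℂ) n ≠ 0 := fun n hn _ => qn_ne N (by omega) n hn
  have hA := AA_ne N hN b
  have hN0 : (N : ℂ) ≠ 0 := Nat.cast_ne_zero.2 (by omega)
  obtain ⟨Q, h1, h2⟩ := exists_poly (m := m) hN n hn (jw m (N : ℂ) (KK m N) n) (jw_mem n hn)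
  have hQ : Q = Chebyshev.S ℂ (n : ℤ) := by
    apply Polynomial.eq_of_infinite_eval_eq
    apply Set.Infinite.mono (s := {0}ᶜ)
    · intro z hz
      have hz0 : z ≠ 0 := hz
      obtain ⟨u, hu, hu'⟩ := exists_u (z - ((N : ℂ) - 2))
      have hzu : u + u⁻¹ + ((N : ℂ) - 2) = z := by rw [hu']; ring
      have h3 := h1 u hu (by rw [hzu]; exact hz0)
      have h4 := trace_jw' (m := m) (N := N) hu (by omega) n hn
      rw [h3, hzu, ← mul_assoc, ← pow_add, Nat.add_sub_cancel' hn] at h4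
      exact mul_left_cancel₀ (pow_ne_zero m hz0) h4
    · exact (Set.finite_singleton (0 : ℂ)).infinite_compl
  subst hQ
  have h3 := h2 b a
  have h4 := h2 b 0
  rw [jw_FF_pow (isTL_KK m N) hq (AA N b) n hn a, Matrix.trace_smul, smul_eq_mul] at h3
  rw [pow_zero, mul_one, mul_zero, zero_mul, pow_zero, one_mul] at h4
  have h5 : HF (hh m N b 0) (Chebyshev.S ℂ (n : ℤ)) =
      (N : ℂ) ^ m * (Chebyshev.S ℂ (n : ℤ)).eval (N : ℂ) := by
    have : hh m N b 0 = fun s => (N : ℂ) ^ m * (N : ℂ) ^ s := by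
      funext s
      unfold hh
      rw [mul_zero, zero_mul, pow_zero, pow_zero, one_mul, Matrix.trace_one, Fintype.card_fun,
        Fintype.card_fin, Fintype.card_fin]
      push_cast
      ring
    rw [this, HF_eval, Polynomial.coe_aeval_eq_eval]
  rw [h5] at h4
  have h6 : (AA N b) ^ (3 * a * n) * (AA N b)⁻¹ ^ (3 * a * n) = 1 := by
    rw [← mul_pow, mul_inv_cancel₀ hA, one_pow]
  have h7 : a * (n * (n + 2)) = 3 * a * n + a * (n * (n - 1)) := by
    rcases n with _ | n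
    · simp
    · simp only [Nat.add_sub_cancel]
      ring
  calc HF (hh m N b a) (Chebyshev.S ℂ (n : ℤ))
      = (AA N b) ^ (3 * a * n) * ((AA N b)⁻¹ ^ (3 * a * n) * HF (hh m N b a) (Chebyshev.S ℂ (n : ℤ))) := by
        rw [← mul_assoc, h6, one_mul]
    _ = (AA N b) ^ (3 * a * n) * (AA N b) ^ (a * (n * (n-1))) * ((N : ℂ) ^ n *
          Matrix.trace (jw m (N : ℂ) (KK m N) n)) := by rw [← h3]; ring
    _ = _ := by rw [h4, h7, pow_add]

end star

end Pool.Agent.TH561.FP
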