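import Pool.Agent.TH561.PK.State

/-!
# The twisted trace of the Temperley–Lieb representation on `N` colours
-/

set_option autoImplicit false

namespace Pool.Agent.TH561.FP

open Pool.Agent.H891R2.Jones Pool.Agent.TH561 Pool.Agent.TH561.PK Finset

section tw

variable {m N : ℕ}

/-- the weight of the colour `c` at the place `s` -/
noncomputable def wt1 (u : ℂ) (s c : ℕ) : ℂ :=
  if c = 0 then (if s % 2 = 0 then u else u⁻¹) else if c = 1 then (if s % 2 = 0 then u⁻¹ else u) else 1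

theorem wt1_adj {u : ℂ} (hu : u ≠ 0) (i c : ℕ) : wt1 u i c * wt1 u (i+1) c = 1 := by
  unfold wt1
  have h2 : i % 2 = 0 ∨ i % 2 = 1 := by omega
  rcases h2 with h2 | h2
  · have h3 : (i+1) % 2 = 1 := by omega
    rw [h2, h3]
    by_cases h0 : c = 0
    · simp [h0, hu]
    · by_cases h1 : c = 1
      · simp [h1, hu]
      · simp [h0, h1]
  · have h3 : (i+1) % 2 = 0 := by omega
    rw [h2, h3]
    by_cases h0 : c = 0
    · simp [h0, hu]
    · by_cases h1 : c = 1
      · simp [h1, hu]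
      · simp [h0, h1]

theorem wt1_sum (u : ℂ) (s : ℕ) (hN : 2 ≤ N) :
    ∑ c : Fin N, wt1 u s (c : ℕ) = u + u⁻¹ + ((N : ℂ) - 2) := by
  obtain ⟨n, rfl⟩ : ∃ n, N = n + 2 := ⟨N - 2, by omega⟩
  rw [Fin.sum_univ_succ, Fin.sum_univ_succ]
  have h1 : ∑ i : Fin n, wt1 u s ((i.succ.succ : Fin (n+2)) : ℕ) = (n : ℂ) := by
    have : ∀ i : Fin n, wt1 u s ((i.succ.succ : Fin (n+2)) : ℕ) = 1 := by
      intro i
      unfold wt1
      rw [Fin.val_succ, Fin.val_succ, if_neg (by omega), if_neg (by omega)]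
    rw [Finset.sum_congr rfl (fun i _ => this i)]
    simp
  rw [h1]
  have h0 : wt1 u s ((0 : Fin (n+2)) : ℕ) = if s % 2 = 0 then u else u⁻¹ := by
    unfold wt1
    simp
  have h2 : wt1 u s (((0 : Fin (n+1)).succ : Fin (n+2)) : ℕ) = if s % 2 = 0 then u⁻¹ else u := by
    unfold wt1
    simp
  rw [h0, h2]
  push_cast
  by_cases h : s % 2 = 0
  · rw [if_pos h, if_pos h]; ring
  · rw [if_neg h, if_neg h]; ring

/-- the twist -/
noncomputable def tz (u : ℂ) (x : Fin m → Fin N) : ℂ := ∏ j : Fin m, wt1 u j (x j)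

/-- the rest of the twist -/
noncomputable def cz (u : ℂ) (p q : Fin m) (x : Fin m → Fin N) : ℂ :=
  ∏ j ∈ (univ.erase p).erase q, wt1 u j (x j)

theorem tz_split (u : ℂ) {p q : Fin m} (hpq : p ≠ q) (x : Fin m → Fin N) :
    tz u x = wt1 u p (x p) * wt1 u q (x q) * cz u p q x := by
  unfold tz cz
  rw [← Finset.mul_prod_erase univ _ (Finset.mem_univ p),
    ← Finset.mul_prod_erase (univ.erase p) _ (Finset.mem_erase.2 ⟨hpq.symm, Finset.mem_univ q⟩),
    mul_assoc]

theorem cz_congr (u : ℂ) (p q : Fin m) (x y : Fin m → Fin N)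
    (h : ∀ j, j ≠ p → j ≠ q → x j = y j) : cz u p q x = cz u p q y := by
  unfold cz
  refine Finset.prod_congr rfl fun j hj => ?_
  rw [Finset.mem_erase, Finset.mem_erase] at hj
  rw [h j hj.2.1 hj.1]

theorem tz_adj {u : ℂ} (hu : u ≠ 0) (i : ℕ) (h : i + 1 < m) (x : Fin m → Fin N)
    (hx : x ⟨i, Nat.lt_of_succ_lt h⟩ = x ⟨i+1, h⟩) :
    tz u x = cz u ⟨i, Nat.lt_of_succ_lt h⟩ ⟨i+1, h⟩ x := by
  have hpq : (⟨i, Nat.lt_of_succ_lt h⟩ : Fin m) ≠ ⟨i+1, h⟩ := by
    intro h; simp at h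
  rw [tz_split u hpq, hx]
  have := wt1_adj hu i (x ⟨i+1, h⟩ : ℕ)
  simp only
  rw [this, one_mul]

theorem tz_comm {u : ℂ} (hu : u ≠ 0) (i : ℕ) (h : i + 1 < m) :
    Matrix.diagonal (tz (m := m) (N := N) u) * KK m N i = KK m N i * Matrix.diagonal (tz u) := by
  ext x y
  rw [Matrix.diagonal_mul, Matrix.mul_diagonal, KK_apply i h]
  by_cases h1 : x ⟨i, Nat.lt_of_succ_lt h⟩ = x ⟨i+1, h⟩ ∧
      y ⟨i, Nat.lt_of_succ_lt h⟩ = y ⟨i+1, h⟩ ∧
      ∀ j : Fin m, j ≠ ⟨i, Nat.lt_of_succ_lt h⟩ → j ≠ ⟨i+1, h⟩ → x j = y j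
  · rw [ind_pos h1, tz_adj hu i h x h1.1, tz_adj hu i h y h1.2.1, cz_congr u _ _ x y h1.2.2]
    ring
  · rw [ind_neg h1]; ring

theorem sum_flipN (s : Fin m) (F : (Fin m → Fin N) → ℂ)
    (hF : ∀ (σ : Equiv.Perm (Fin N)) x, F (permAt s σ x) = F x) (g : Fin N → ℂ) :
    (N : ℂ) * ∑ x, F x * g (x s) = (∑ c, g c) * ∑ x, F x := by
  have h1 : ∀ c c' : Fin N, ∑ x : Fin m → Fin N, (if x s = c then F x else 0) =
      ∑ x : Fin m → Fin N, (if x s = c' then F x else 0) := by
    intro c c'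
    rw [← Equiv.sum_comp (permAt s (Equiv.swap c c'))]
    refine Finset.sum_congr rfl fun x _ => ?_
    rw [hF, permAt_self]
    have : (Equiv.swap c c' (x s) = c) ↔ (x s = c') := by
      rw [Equiv.swap_apply_eq_iff, Equiv.swap_apply_left]
    simp only [this]
  have h2 : ∀ c : Fin N, (N : ℂ) * ∑ x : Fin m → Fin N, (if x s = c then F x else 0) = ∑ x, F x := by
    intro c
    have h3 : ∑ x, F x = ∑ c' : Fin N, ∑ x : Fin m → Fin N, (if x s = c' then F x else 0) := by
      rw [Finset.sum_comm]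
      refine Finset.sum_congr rfl fun x _ => ?_
      rw [Finset.sum_ite_eq univ (x s) (fun _ => F x), if_pos (Finset.mem_univ _)]
    rw [h3, Finset.sum_congr rfl (fun c' _ => h1 c' c), Finset.sum_const, Finset.card_univ,
      Fintype.card_fin, nsmul_eq_mul]
  have h4 : ∑ x, F x * g (x s) = ∑ c : Fin N, g c * ∑ x : Fin m → Fin N, (if x s = c then F x else 0) := by
    have h5 : ∀ x : Fin m → Fin N, F x * g (x s) = ∑ c : Fin N, g c * (if x s = c then F x else 0) := by
      intro x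
      have : ∀ c : Fin N, g c * (if x s = c then F x else 0) = if x s = c then F x * g c else 0 := by
        intro c
        split_ifs
        · ring
        · ring
      rw [Finset.sum_congr rfl (fun c _ => this c), Finset.sum_ite_eq univ (x s) (fun c => F x * g c),
        if_pos (Finset.mem_univ _)]
    rw [Finset.sum_congr rfl (fun x _ => h5 x), Finset.sum_comm]
    refine Finset.sum_congr rfl fun c _ => ?_
    rw [Finset.mul_sum]
  rw [h4, Finset.mul_sum, Finset.sum_mul]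
  refine Finset.sum_congr rfl fun c _ => ?_
  rw [← h2 c]
  ring

/-- the Markov property of the twisted trace -/
theorem markov_tz {u : ℂ} (hu : u ≠ 0) (hN : 2 ≤ N) (r : ℕ) (hr : r + 1 < m)
    (Y : Matrix (Fin m → Fin N) (Fin m → Fin N) ℂ)
    (hYp : Y ∈ Loc N (⟨r, Nat.lt_of_succ_lt hr⟩ : Fin m)) (hYq : Y ∈ Loc N (⟨r+1, hr⟩ : Fin m)) :
    (u + u⁻¹ + ((N : ℂ) - 2)) ^ 2 * Matrix.trace (Matrix.diagonal (tz (m := m) u) * (Y * KK m N r)) =
      (N : ℂ) * Matrix.trace (Matrix.diagonal (tz (m := m) u) * Y) := by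
  have hN0 : (N : ℂ) ≠ 0 := Nat.cast_ne_zero.2 (by omega)
  set p : Fin m := ⟨r, Nat.lt_of_succ_lt hr⟩ with hp
  set q : Fin m := ⟨r+1, hr⟩ with hq
  have hpq : p ≠ q := by
    intro h; rw [hp, hq] at h; simp at h
  -- the trace with `KK r`
  have h1 : Matrix.trace (Matrix.diagonal (tz (m := m) u) * (Y * KK m N r)) =
      ∑ x, (if x p = x q then cz u p q x * Y x x else 0) := by
    rw [← mul_assoc, Matrix.trace_mul_comm]
    unfold Matrix.trace
    refine Finset.sum_congr rfl fun x _ => ?_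
    rw [Matrix.diag_apply, KK_mul_apply r hr]
    by_cases hx : x p = x q
    · rw [if_pos hx, if_pos hx, Finset.sum_eq_single (x p)]
      · have hxx' : upd x ⟨r, Nat.lt_of_succ_lt hr⟩ ⟨r+1, hr⟩ (x p) = x := by
          funext j
          simp only [upd]
          split_ifs with hj
          · rcases hj with rfl | rfl
            · rfl
            · exact hx
          · rfl
        rw [hxx', Matrix.diagonal_mul, tz_adj hu r hr x hx]
      · intro c _ hc
        rw [Matrix.diagonal_mul]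
        have : Y (upd x ⟨r, Nat.lt_of_succ_lt hr⟩ ⟨r+1, hr⟩ c) x = 0 := by
          apply hYp.1
          rw [upd_left]
          exact hc
        rw [this, mul_zero]
      · intro h; exact absurd (Finset.mem_univ _) h
    · rw [if_neg hx, if_neg hx]
  have h2 : Matrix.trace (Matrix.diagonal (tz (m := m) u) * Y) =
      ∑ x, cz u p q x * Y x x * wt1 u p (x p) * wt1 u q (x q) := by
    unfold Matrix.trace
    refine Finset.sum_congr rfl fun x _ => ?_
    rw [Matrix.diag_apply, Matrix.diagonal_mul, tz_split u hpq]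
    ring
  have hFp : ∀ (σ : Equiv.Perm (Fin N)) x, cz u p q (permAt p σ x) * Y (permAt p σ x) (permAt p σ x) =
      cz u p q x * Y x x := by
    intro σ x
    rw [hYp.2, cz_congr u p q (permAt p σ x) x (fun j hj _ => permAt_other p σ x hj)]
  have hFq : ∀ (σ : Equiv.Perm (Fin N)) x, cz u p q (permAt q σ x) * Y (permAt q σ x) (permAt q σ x) =
      cz u p q x * Y x x := by
    intro σ x
    rw [hYq.2, cz_congr u p q (permAt q σ x) x (fun j _ hj => permAt_other q σ x hj)]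
  have h3 := sum_place (N := N) (by omega) q p hpq (fun x => cz u p q x * Y x x) hFq
  have h4 := sum_flipN p (fun x => cz u p q x * Y x x) hFp (fun c => wt1 u p c)
  have h5 := sum_flipN q (fun x => cz u p q x * Y x x * wt1 u p (x p)) (by
    intro σ x
    beta_reduce
    rw [hFq, permAt_other q σ x hpq]) (fun c => wt1 u q c)
  beta_reduce at h3 h4 h5
  rw [wt1_sum u _ hN] at h4 h5
  rw [h1, h2]
  set z := u + u⁻¹ + ((N : ℂ) - 2) with hz
  set S0 := ∑ x, cz u p q x * Y x x with hS0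
  set S1 := ∑ x, (if x p = x q then cz u p q x * Y x x else 0) with hS1
  set S2 := ∑ x, cz u p q x * Y x x * wt1 u p (x p) with hS2
  set S3 := ∑ x, cz u p q x * Y x x * wt1 u p (x p) * wt1 u q (x q) with hS3
  -- h3 : N * S1 = S0, h4 : N * S2 = z * S0, h5 : N * S3 = z * S2
  apply mul_left_cancel₀ hN0
  calc (N : ℂ) * (z ^ 2 * S1) = z ^ 2 * (N * S1) := by ring
    _ = z * (z * S0) := by rw [h3]; ring
    _ = N * (z * S2) := by rw [← h4]; ring
    _ = N * (N * S3) := by rw [← h5]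

theorem trace_tz (u : ℂ) (hN : 2 ≤ N) :
    Matrix.trace (Matrix.diagonal (tz (m := m) (N := N) u)) = (u + u⁻¹ + ((N : ℂ) - 2)) ^ m := by
  rw [Matrix.trace_diagonal]
  have h1 : ∀ x : Fin m → Fin N, tz u x = ∏ j, (fun (j : Fin m) (a : Fin N) => wt1 u j a) j (x j) :=
    fun x => rfl
  rw [Finset.sum_congr rfl (fun x _ => h1 x)]
  rw [← Fintype.prod_sum (fun (j : Fin m) (a : Fin N) => wt1 u j a)]
  have h2 : ∀ j : Fin m, ∑ a : Fin N, wt1 u (j : ℕ) (a : ℕ) = u + u⁻¹ + ((N : ℂ) - 2) :=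
    fun j => wt1_sum u j hN
  simp only [h2]
  rw [Finset.prod_const, Finset.card_univ, Fintype.card_fin]

/-- the twisted trace with `N` colours -/
noncomputable def repNU (m N : ℕ) (hN : 2 ≤ N) (u : ℂ) (hu : u ≠ 0)
    (hz : u + u⁻¹ + ((N : ℂ) - 2) ≠ 0) : TrData m where
  N := N
  D := Matrix.diagonal (tz u)
  z := u + u⁻¹ + ((N : ℂ) - 2)
  hN := by omega
  hz := hz
  comm := fun i hi => tz_comm hu i hi
  mark := fun r L hr hL => markov_tz hu hN r hr _
    (WP_loc _ L (fun i hi => by have := hL i hi; simp only; omega))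
    (WP_loc _ L (fun i hi => by have := hL i hi; simp only; omega))
  tr := trace_tz u hN

theorem trace_tz_word (L : List ℕ) (h : ∀ i ∈ L, i + 1 < m) (hN : 2 ≤ N) {u : ℂ} (hu : u ≠ 0)
    (hz : u + u⁻¹ + ((N : ℂ) - 2) ≠ 0) :
    Matrix.trace (Matrix.diagonal (tz u) * WP (KK m N) L) =
      (u + u⁻¹ + ((N : ℂ) - 2)) ^ (esn m L) * (N : ℂ) ^ (inn m L) := by
  have h1 := (esn_inn L h).2.2.2 (repNU m N hN u hu hz) 1 le_rfl
  have h2 : Matrix.trace (Matrix.diagonal (tz u) * (WP (KK m N) L) ^ 1) =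
      (u + u⁻¹ + ((N : ℂ) - 2)) ^ (esn m L) * ((N : ℕ) : ℂ) ^ (1 * inn m L) := h1
  rw [pow_one, one_mul] at h2
  exact h2

end tw

end Pool.Agent.TH561.FP
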