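import Pool.Agent.TH561.FP.JW
import Pool.Agent.TH561.FP.Tw
import Pool.Agent.TH561.PB.State2

/-!
# Traces of the idempotents of Jones and Wenzl, and the traces of full twists
-/

set_option autoImplicit false

namespace Pool.Agent.TH561.FP

open Pool.Agent.H891R2.Jones Pool.Agent.TH561 Pool.Agent.TH561.PK Finset Polynomial

section tj

variable {m N : ℕ}

theorem AR_Loc (n : ℕ) (hn : 1 ≤ n) (s : Fin m) (hs : (s : ℕ) < m - n) :
    AR ℂ m (KK m N) n ≤ Loc N s := by
  apply Algebra.adjoin_le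
  rintro _ ⟨i, ⟨h1, h2⟩, rfl⟩
  refine KK_loc s i h2 (fun h => ?_) (fun h => ?_)
  · have := congrArg Fin.val h
    simp only at this
    omega
  · have := congrArg Fin.val h
    simp only at this
    omega

theorem AR_comm_tz {u : ℂ} (hu : u ≠ 0) (n : ℕ) {X : Matrix (Fin m → Fin N) (Fin m → Fin N) ℂ}
    (hX : X ∈ AR ℂ m (KK m N) n) :
    Matrix.diagonal (tz u) * X = X * Matrix.diagonal (tz u) := by
  have h1 : AR ℂ m (KK m N) n ≤ Subalgebra.centralizer ℂ {Matrix.diagonal (tz (m := m) (N := N) u)} := by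
    apply Algebra.adjoin_le
    rintro _ ⟨i, ⟨_, h2⟩, rfl⟩
    show KK m N i ∈ Subalgebra.centralizer ℂ {Matrix.diagonal (tz (m := m) (N := N) u)}
    rw [Subalgebra.mem_centralizer_iff]
    intro g hg
    rw [Set.mem_singleton_iff] at hg
    rw [hg]
    exact tz_comm hu i h2
  have h2 := h1 hX
  rw [Subalgebra.mem_centralizer_iff] at h2
  exact h2 _ rfl

theorem cyc_tz {D X Y : Matrix (Fin m → Fin N) (Fin m → Fin N) ℂ} (h : D * Y = Y * D) :
    Matrix.trace (D * (X * Y)) = Matrix.trace (D * (Y * X)) := by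
  rw [← mul_assoc, ← mul_assoc, h, mul_assoc Y, Matrix.trace_mul_comm Y]

/-- the twisted traces of the idempotents -/
theorem trace_jw {u : ℂ} (hu : u ≠ 0) (hN : 2 ≤ N) : ∀ n, n + 1 ≤ m →
    (u + u⁻¹ + ((N : ℂ) - 2)) ^ n * Matrix.trace (Matrix.diagonal (tz u) * jw m (N : ℂ) (KK m N) n) =
      (u + u⁻¹ + ((N : ℂ) - 2)) ^ m * (Chebyshev.S ℂ (n : ℤ)).eval (u + u⁻¹ + ((N : ℂ) - 2)) ∧
    (u + u⁻¹ + ((N : ℂ) - 2)) ^ (n+1) *
        Matrix.trace (Matrix.diagonal (tz u) * jw m (N : ℂ) (KK m N) (n+1)) =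
      (u + u⁻¹ + ((N : ℂ) - 2)) ^ m *
        (Chebyshev.S ℂ ((n : ℤ) + 1)).eval (u + u⁻¹ + ((N : ℂ) - 2)) := by
  have hN0 : (N : ℂ) ≠ 0 := Nat.cast_ne_zero.2 (by omega)
  set z := u + u⁻¹ + ((N : ℂ) - 2) with hz
  intro n
  induction n with
  | zero =>
    intro hn
    rw [zero_add, jw_one, jw_zero, mul_one, trace_tz u hN, ← hz]
    constructor
    · simp
    · have : (Chebyshev.S ℂ (((0 : ℕ) : ℤ) + 1)) = X := by simp
      rw [this, eval_X]
      ring
  | succ n ih =>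
    intro hn
    obtain ⟨h1, h2⟩ := ih (by omega)
    refine ⟨by push_cast; exact h2, ?_⟩
    have hq : ∀ n, 1 ≤ n → n ≤ m → qn (N : ℂ) n ≠ 0 := fun n hn _ => qn_ne N hN n hn
    have hTL := isTL_KK m N
    obtain ⟨hPP, ⟨hP0P, hPP0⟩, hkill, hcap⟩ := jw_main hTL hq n (by omega)
    have hcap := hcap (by omega)
    have hq1 := hq (n+1) (by omega) (by omega)
    have hq2 := hq (n+2) (by omega) (by omega)
    have hmem0 : jw m (N : ℂ) (KK m N) n ∈ AR ℂ m (KK m N) n := jw_mem n (by omega)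
    have hmem : jw m (N : ℂ) (KK m N) (n+1) ∈ AR ℂ m (KK m N) (n+1) := jw_mem (n+1) (by omega)
    have hjw2 : jw m (N : ℂ) (KK m N) (n+1+1) = jw m (N : ℂ) (KK m N) (n+1) +
        (-(qn (N : ℂ) (n+1) / qn (N : ℂ) (n+2))) • (jw m (N : ℂ) (KK m N) (n+1) * KK m N (m-n-2) *
          jw m (N : ℂ) (KK m N) (n+1)) := by
      rw [jw_succ]
      have : m - (n+1) - 1 = m - n - 2 := by omega
      rw [this]
    set P := jw m (N : ℂ) (KK m N) (n+1) with hP
    set P0 := jw m (N : ℂ) (KK m N) n with hP0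
    set f := KK m N (m-n-2) with hf'
    set c := -(qn (N : ℂ) (n+1) / qn (N : ℂ) (n+2)) with hc
    set κ := qn (N : ℂ) (n+2) / qn (N : ℂ) (n+1) with hκ
    set D := Matrix.diagonal (tz (m := m) (N := N) u) with hD
    have hcκ : c * κ = -1 := by
      rw [hc, hκ]
      field_simp
    have hDP : D * P = P * D := AR_comm_tz hu (n+1) hmem
    have hDf : D * f = f * D := tz_comm hu _ (by omega)
    have t1 : Matrix.trace (D * (P * f * P)) = Matrix.trace (D * (P * f)) := by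
      rw [cyc_tz hDP, ← mul_assoc P P f, hPP]
    have t2 : (N : ℂ) * Matrix.trace (D * (P * f)) = κ * Matrix.trace (D * (P0 * f)) := by
      have hff : f * f = (N : ℂ) • f := hTL.sq _ (by omega)
      calc (N : ℂ) * Matrix.trace (D * (P * f)) = Matrix.trace (D * (P * ((N : ℂ) • f))) := by
            rw [mul_smul_comm, mul_smul_comm, Matrix.trace_smul, smul_eq_mul]
        _ = Matrix.trace (D * ((P * f) * f)) := by rw [← hff, mul_assoc]
        _ = Matrix.trace (D * (f * (P * f))) := cyc_tz hDf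
        _ = Matrix.trace (D * (f * P * f)) := by rw [mul_assoc]
        _ = κ * Matrix.trace (D * (P0 * f)) := by
            rw [hcap, mul_smul_comm, Matrix.trace_smul, smul_eq_mul]
    have t3 : z ^ 2 * Matrix.trace (D * (P0 * f)) = (N : ℂ) * Matrix.trace (D * P0) := by
      have hr : (m - n - 2) + 1 < m := by omega
      rcases Nat.eq_zero_or_pos n with h0 | h0
      · subst h0
        have h5 := markov_tz (m := m) hu hN (m - 0 - 2) (by omega) 1 (one_mem _) (one_mem _)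
        exact h5
      · refine markov_tz hu hN (m - n - 2) hr P0 (AR_Loc n h0 _ ?_ hmem0) (AR_Loc n h0 _ ?_ hmem0)
        · simp only; omega
        · simp only; omega
    have t4 : z ^ 2 * Matrix.trace (D * (P * f * P)) = κ * Matrix.trace (D * P0) := by
      apply mul_left_cancel₀ hN0
      calc (N : ℂ) * (z ^ 2 * Matrix.trace (D * (P * f * P)))
          = z ^ 2 * ((N : ℂ) * Matrix.trace (D * (P * f))) := by rw [t1]; ring
        _ = κ * (z ^ 2 * Matrix.trace (D * (P0 * f))) := by rw [t2]; ring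
        _ = _ := by rw [t3]; ring
    have t5 : Matrix.trace (D * jw m (N : ℂ) (KK m N) (n+1+1)) =
        Matrix.trace (D * P) + c * Matrix.trace (D * (P * f * P)) := by
      rw [hjw2, mul_add, mul_smul_comm, Matrix.trace_add, Matrix.trace_smul, smul_eq_mul]
    have hS : (Chebyshev.S ℂ (((n+1 : ℕ) : ℤ) + 1)).eval z =
        z * (Chebyshev.S ℂ ((n : ℤ) + 1)).eval z - (Chebyshev.S ℂ (n : ℤ)).eval z := by
      have : (((n+1 : ℕ) : ℤ) + 1) = (n : ℤ) + 2 := by push_cast; ring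
      rw [this, Chebyshev.S_add_two, eval_sub, eval_mul, eval_X]
    rw [t5, hS]
    calc z ^ (n+1+1) * (Matrix.trace (D * P) + c * Matrix.trace (D * (P * f * P)))
        = z * (z ^ (n+1) * Matrix.trace (D * P)) +
            z ^ n * (c * (z ^ 2 * Matrix.trace (D * (P * f * P)))) := by ring
      _ = z * (z ^ (n+1) * Matrix.trace (D * P)) + z ^ n * ((c * κ) * Matrix.trace (D * P0)) := by
          rw [t4]; ring
      _ = z * (z ^ (n+1) * Matrix.trace (D * P)) - z ^ n * Matrix.trace (D * P0) := by rw [hcκ]; ring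
      _ = z * (z ^ m * (Chebyshev.S ℂ ((n : ℤ) + 1)).eval z) -
            z ^ m * (Chebyshev.S ℂ (n : ℤ)).eval z := by rw [h1, h2]
      _ = _ := by ring

theorem trace_jw' {u : ℂ} (hu : u ≠ 0) (hN : 2 ≤ N) (n : ℕ) (hn : n ≤ m) :
    (u + u⁻¹ + ((N : ℂ) - 2)) ^ n * Matrix.trace (Matrix.diagonal (tz u) * jw m (N : ℂ) (KK m N) n) =
      (u + u⁻¹ + ((N : ℂ) - 2)) ^ m *
        (Chebyshev.S ℂ (n : ℤ)).eval (u + u⁻¹ + ((N : ℂ) - 2)) := by
  rcases Nat.eq_zero_or_pos n with h0 | h0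
  · subst h0
    rw [jw_zero, mul_one, trace_tz u hN]
    simp
  · obtain ⟨n', rfl⟩ : ∃ n', n = n' + 1 := ⟨n - 1, by omega⟩
    have := (trace_jw (m := m) (N := N) hu hN n' (by omega)).2
    push_cast
    exact this

/-- the trace of a word and a full twist on the last `n` strands -/
theorem trace_twist' (m n : ℕ) (hn : n ≤ m) (L : List ℕ) (hL : ∀ i ∈ L, m - n ≤ i ∧ i + 1 < m) :
    ∃ s : ℕ, s ≤ n ∧ esn m L = (m - n) + s ∧
      ∀ N : ℕ, 3 ≤ N → ∀ (b : Bool) (q a : ℕ), 1 ≤ q → (N : ℂ) ^ (n - s) *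
        Matrix.trace ((WP (KK m N) L) ^ q * (FF (sg (AA N b) (KK m N)) n (m - n)) ^ a) =
        (N : ℂ) ^ (q * inn m L) * ((AA N b)⁻¹ ^ (3 * a * (n - s)) *
          Matrix.trace ((FF (sg (AA N b) (KK m N)) s (m - s)) ^ a)) := by
  have hcond : ∀ k : ℕ, ∀ j : {N : ℕ // 3 ≤ N} × Bool, k + 1 < m → j.1.1 ≠ 0 := by
    intro k j _
    have := j.1.2
    omega
  obtain ⟨s, z, h1, h2, h3, h4, h5, h6⟩ := annularF (K := ℂ) (ι := {N : ℕ // 3 ≤ N} × Bool)
    (R := fun j => Matrix (Fin m → Fin j.1.1) (Fin m → Fin j.1.1) ℂ) (M := m)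
    (d := fun j => (j.1.1 : ℂ)) (e := fun j => KK m j.1.1) (A := fun j => AA j.1.1 j.2)
    (fun j => AA_ne _ j.1.2 _) (fun j => AA_d _ j.1.2 _) (fun j => isTL_KK m j.1.1)
    (fun j => Matrix.traceLinearMap _ ℂ ℂ)
    (fun j x y => Matrix.trace_mul_comm x y)
    (fun j k => if h : k < m then Loc j.1.1 (⟨k, h⟩ : Fin m) else ⊤)
    (by
      intro j k i hki hi
      have hk : k < m := by omega
      rw [dif_pos hk]
      apply KK_loc _ i hi
      · intro h; simp only [Fin.mk.injEq] at h; omega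
      · intro h; simp only [Fin.mk.injEq] at h; omega)
    (by
      intro j k Y hk hY
      rw [dif_pos (show k < m by omega)] at hY
      exact markov2 (hcond k j hk) k hk Y hY)
    n (m - n) (by omega) L hL
  have h7 : ∀ N : ℕ, 3 ≤ N → ∀ (b : Bool) (q a : ℕ), 1 ≤ q → (N : ℂ) ^ (n - s) *
        Matrix.trace ((WP (KK m N) L) ^ q * (FF (sg (AA N b) (KK m N)) n (m - n)) ^ a) =
        (N : ℂ) ^ (q * z) * ((AA N b)⁻¹ ^ (3 * a * (n - s)) *
          Matrix.trace ((FF (sg (AA N b) (KK m N)) s (m - s)) ^ a)) :=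
    fun N hN b q a hq => h6 (⟨N, hN⟩, b) q a hq
  have hLm : ∀ i ∈ L, i + 1 < m := fun i hi => (hL i hi).2
  have hq : ∀ q : ℕ, 1 ≤ q → (m - n) + s + q * z = esn m L + q * inn m L := by
    intro q hq
    have g1 := h7 3 le_rfl true q 0 hq
    have g2 := trace_N L hLm (N := 3) (by norm_num) hq
    rw [pow_zero, mul_one, g2, mul_zero, zero_mul, pow_zero, pow_zero, one_mul,
      Matrix.trace_one, Fintype.card_fun, Fintype.card_fin, Fintype.card_fin] at g1
    have g3 : ((3 : ℕ) : ℂ) ^ (n - s + (esn m L + q * inn m L)) = ((3 : ℕ) : ℂ) ^ (q * z + m) := by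
      rw [pow_add, g1, pow_add]
      push_cast
      ring
    have g4 := nat_pow_inj3 g3
    omega
  have e1 := hq 1 le_rfl
  have e2 := hq 2 (by norm_num)
  have hz : z = inn m L := by omega
  subst hz
  exact ⟨s, h1, by omega, h7⟩

end tj

end Pool.Agent.TH561.FP
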